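import Pool.Agent.MP_1479fb_pr.SG.Spec

/-! PROJECT SG: the Borel-Cantelli step. -/

set_option autoImplicit false

open MeasureTheory ProbabilityTheory Filter Topology Finset
open scoped ENNReal

namespace Pool.Agent.MP_1479fb_pr.SG

namespace BCX

/-- A two-sided geometric weight. -/
noncomputable def wt (c m : ℕ) : ℝ := if m < c then (1 / 2) ^ (c - m) else (1 / 2) ^ (m - c)

theorem wt_nonneg (c m : ℕ) : 0 ≤ wt c m := by
  unfold wt
  split_ifs <;> positivity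

theorem wt_sum (c J : ℕ) : ∑ m ∈ range J, wt c m ≤ 3 := by
  have h : ∑ m ∈ range J, wt c m ≤
      if J ≤ c then (1 / 2 : ℝ) ^ (c - J) else 3 - 2 * (1 / 2) ^ (J - c) := by
    induction J with
    | zero => simp
    | succ J ih =>
      rw [sum_range_succ, wt]
      rcases lt_trichotomy J c with h | h | h
      · rw [if_pos h.le] at ih
        rw [if_pos h, if_pos (by omega)]
        have h1 : c - J = c - (J + 1) + 1 := by omega
        rw [h1, pow_succ] at ih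
        rw [h1, pow_succ]
        linarith
      · subst h
        rw [if_pos le_rfl] at ih
        rw [if_neg (lt_irrefl _), if_neg (by omega)]
        simp only [Nat.sub_self, pow_zero, Nat.add_sub_cancel_left, pow_one] at ih ⊢
        linarith
      · rw [if_neg (by omega)] at ih
        rw [if_neg (by omega), if_neg (by omega)]
        have h1 : J + 1 - c = J - c + 1 := by omega
        rw [h1, pow_succ]
        linarith
  refine h.trans ?_
  split_ifs
  · exact (pow_le_one₀ (by norm_num) (by norm_num)).trans (by norm_num)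
  · have : (0 : ℝ) ≤ (1 / 2) ^ (J - c) := by positivity
    linarith

theorem le_cube {P : ℝ≥0∞} {x y z : ℝ} (hx : 0 ≤ x) (hy : 0 ≤ y) (hz : 0 ≤ z)
    (h1 : P ≤ ENNReal.ofReal x) (h2 : P ≤ ENNReal.ofReal y) (h : x * y ^ 2 ≤ z ^ 3) :
    P ≤ ENNReal.ofReal z := by
  have h3 : min x y ≤ z := by
    refine le_of_pow_le_pow_left₀ (n := 3) (by norm_num) hz (le_trans ?_ h)
    have h4 : 0 ≤ min x y := le_min hx hy
    rw [pow_succ']
    exact mul_le_mul (min_le_left _ _) (pow_le_pow_left₀ h4 (min_le_right _ _) 2) (by positivity) hx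
  rcases le_total x y with h4 | h4
  · exact h1.trans (ENNReal.ofReal_le_ofReal (min_eq_left h4 ▸ h3))
  · exact h2.trans (ENNReal.ofReal_le_ofReal (min_eq_right h4 ▸ h3))

theorem one (h : OverS) {d : ℕ} (hd : 2 ≤ d) (μ : Measure ℝ) [IsProbabilityMeasure μ] {a : ℕ → ℝ}
    (ha : IsA d μ a) (i₀ k m : ℕ) (hk : a k ≤ 1) :
    Pm d μ {x | ¬ Good d μ i₀ k m x} ≤
      ENNReal.ofReal (3 ^ d * 2 ^ (i₀ * d) * a k * wt (4 * k + i₀) m) := by
  classical
  obtain ⟨h1, h2⟩ := h d (by omega) μ (16 ^ k) m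
  obtain ⟨a0, a1⟩ := ha k
  have p0 : 0 ≤ μ.real (Set.Ici ((16 : ℝ) ^ k)) := measureReal_nonneg
  have s2 : Pm d μ {x | ¬ Good d μ i₀ k m x} ≤
      ENNReal.ofReal (3 ^ d * (2 ^ m) ^ d * μ.real (Set.Ici ((16 : ℝ) ^ k))) := by
    refine (measure_mono fun x hx => ?_).trans h2
    by_contra hc
    refine hx (Or.inl fun v hv => ?_)
    by_contra hv'
    exact hc ⟨v, hv, not_lt.mp hv'⟩
  generalize hp : μ.real (Set.Ici ((16 : ℝ) ^ k)) = p at a1 p0 s2
  have e16 : (16 : ℝ) ^ k = 2 ^ (4 * k) := by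
    rw [pow_mul]
    norm_num
  have b3 : (((16 : ℝ) ^ k) ^ d * p) ^ 2 ≤ a k ^ 3 :=
    a1 ▸ pow_le_pow_of_le_one a0 hk (by omega)
  have b1 : ((16 : ℝ) ^ k) ^ d * p ≤ a k :=
    le_of_pow_le_pow_left₀ (n := 2) (by norm_num) a0
      (b3.trans (pow_le_pow_of_le_one a0 hk (by omega)))
  have b0 : 0 ≤ ((16 : ℝ) ^ k) ^ d * p := by positivity
  by_cases hm : m < 4 * k + i₀
  · refine s2.trans (ENNReal.ofReal_le_ofReal ?_)
    rw [wt, if_pos hm]
    obtain ⟨j, hj⟩ : ∃ j, 4 * k + i₀ = m + j := ⟨4 * k + i₀ - m, by omega⟩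
    rw [show 4 * k + i₀ - m = j by omega]
    have c1 : ((2 : ℝ) ^ m) ^ d * 2 ^ j ≤ 2 ^ (i₀ * d) * ((16 : ℝ) ^ k) ^ d := by
      rw [e16, ← pow_mul, ← pow_mul, ← pow_add, ← pow_add]
      refine pow_le_pow_right₀ (by norm_num) ?_
      have c2 : i₀ * d + 4 * k * d = m * d + j * d := by
        rw [← add_mul, ← add_mul, ← hj, add_comm]
      have c3 : j * 1 ≤ j * d := Nat.mul_le_mul_left _ (by omega)
      omega
    have c4 : (2 : ℝ) ^ j * (1 / 2) ^ j = 1 := by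
      rw [← mul_pow]
      norm_num
    calc (3 : ℝ) ^ d * (2 ^ m) ^ d * p
        = 3 ^ d * ((2 ^ m) ^ d * 2 ^ j) * p * (1 / 2) ^ j := by
          linear_combination (-(3 : ℝ) ^ d * (2 ^ m) ^ d * p) * c4
      _ ≤ 3 ^ d * (2 ^ (i₀ * d) * ((16 : ℝ) ^ k) ^ d) * p * (1 / 2) ^ j := by gcongr
      _ = 3 ^ d * 2 ^ (i₀ * d) * (((16 : ℝ) ^ k) ^ d * p) * (1 / 2) ^ j := by ring
      _ ≤ _ := by gcongr
  · obtain ⟨i, hi⟩ : ∃ i, m = 4 * k + i := ⟨m - 4 * k, by omega⟩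
    have s1 : Pm d μ {x | ¬ Good d μ i₀ k m x} ≤ ENNReal.ofReal ((1 / 2) ^ (3 * (d + 1) * i)) := by
      refine (measure_mono fun x hx => ?_).trans (h1 _)
      by_contra hc
      refine hx (Or.inr ⟨by omega, fun q hq => ?_⟩)
      by_contra hq'
      rw [show m - 4 * k = i by omega] at hq'
      exact hc ⟨q, hq, not_lt.mp hq'⟩
    have s3 : Pm d μ {x | ¬ Good d μ i₀ k m x} ≤ ENNReal.ofReal (3 ^ d * a k * (1 / 2) ^ i) := by
      refine le_cube (by positivity) (by positivity) (by positivity) s1 s2 ?_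
      have c1 : ((2 : ℝ) ^ m) ^ d = 2 ^ (d * i) * ((16 : ℝ) ^ k) ^ d := by
        rw [e16, hi]
        ring
      have c2 : (1 / 2 : ℝ) ^ (3 * (d + 1) * i) = ((1 / 2) ^ (d * i)) ^ 3 * ((1 / 2) ^ i) ^ 3 := by
        ring
      have c3 : (2 : ℝ) ^ (d * i) * (1 / 2) ^ (d * i) = 1 := by
        rw [← mul_pow]
        norm_num
      have c4 : (1 / 2 : ℝ) ^ (d * i) ≤ 3 ^ d :=
        (pow_le_one₀ (by norm_num) (by norm_num)).trans (one_le_pow₀ (by norm_num))
      rw [c1, c2]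
      generalize ((16 : ℝ) ^ k) ^ d = T at b3 b0
      have u0 : (0 : ℝ) ≤ (1 / 2) ^ (d * i) := by positivity
      have w0 : (0 : ℝ) ≤ (1 / 2) ^ i := by positivity
      have z0 : (0 : ℝ) ≤ 3 ^ d := by positivity
      generalize (1 / 2 : ℝ) ^ (d * i) = u at c3 c4 u0
      generalize (2 : ℝ) ^ (d * i) = v at c3
      generalize (1 / 2 : ℝ) ^ i = w at w0
      generalize (3 : ℝ) ^ d = z at c4 z0
      calc u ^ 3 * w ^ 3 * (z * (v * T) * p) ^ 2
          = (v * u) ^ 2 * (u * (z ^ 2 * w ^ 3) * (T * p) ^ 2) := by ring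
        _ = u * (z ^ 2 * w ^ 3) * (T * p) ^ 2 := by rw [c3]; ring
        _ ≤ z * (z ^ 2 * w ^ 3) * a k ^ 3 := by gcongr
        _ = _ := by ring
    refine s3.trans (ENNReal.ofReal_le_ofReal ?_)
    rw [wt, if_neg hm]
    have c1 : (1 / 2 : ℝ) ^ i ≤ (1 / 2) ^ (m - (4 * k + i₀)) :=
      pow_le_pow_of_le_one (by norm_num) (by norm_num) (by omega)
    have c2 : (1 : ℝ) ≤ 2 ^ (i₀ * d) := one_le_pow₀ (by norm_num)
    calc (3 : ℝ) ^ d * a k * (1 / 2) ^ i = 3 ^ d * 1 * a k * (1 / 2) ^ i := by ring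
      _ ≤ _ := by gcongr

end BCX

open BCX

theorem bcS (h : OverS) : BCS := by
  intro d hd μ _ a ha sa i₀ k₀ hk₀
  let B : ℕ → ℕ → Set ((Fin d → ℤ) → ℝ) := fun m k => {x | k₀ ≤ k ∧ ¬ Good d μ i₀ k m x}
  have hB : ∀ m k, Pm d μ (B m k) ≤
      ENNReal.ofReal (3 ^ d * 2 ^ (i₀ * d) * a k * wt (4 * k + i₀) m) := by
    intro m k
    by_cases hk : k₀ ≤ k
    · exact (measure_mono fun x hx => hx.2).trans (one h hd μ ha i₀ k m (hk₀ k hk))
    · have : B m k = ∅ := by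
        ext x
        simp [B, hk]
      simp [this]
  have hsum : ∑' m, Pm d μ (⋃ k, B m k) ≠ ⊤ := by
    refine ne_top_of_le_ne_top (b := ∑' k, ENNReal.ofReal (3 ^ d * 2 ^ (i₀ * d) * 3 * a k))
      (sa.mul_left _).tsum_ofReal_ne_top ?_
    refine (ENNReal.tsum_le_tsum (fun m => (measure_iUnion_le _).trans
      (ENNReal.tsum_le_tsum (hB m)))).trans ?_
    rw [ENNReal.tsum_comm]
    refine ENNReal.tsum_le_tsum (fun k => ENNReal.tsum_le_of_sum_range_le (fun J => ?_))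
    have a0 := (ha k).1
    rw [← ENNReal.ofReal_sum_of_nonneg (fun m _ =>
      mul_nonneg (by positivity) (wt_nonneg _ m)), ← Finset.mul_sum]
    refine ENNReal.ofReal_le_ofReal ?_
    calc (3 : ℝ) ^ d * 2 ^ (i₀ * d) * a k * ∑ m ∈ range J, wt (4 * k + i₀) m
        ≤ 3 ^ d * 2 ^ (i₀ * d) * a k * 3 :=
          mul_le_mul_of_nonneg_left (wt_sum _ _) (by positivity)
      _ = _ := by ring
  filter_upwards [ae_eventually_notMem hsum] with x hx
  filter_upwards [hx] with m hm k hk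
  by_contra hc
  exact hm (Set.mem_iUnion.mpr ⟨k, hk, hc⟩)

end Pool.Agent.MP_1479fb_pr.SG
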