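import Pool.Agent.MP_1479fb_pr.SG.Spec

/-! The charge of a node that is not stopped. -/

set_option autoImplicit false

namespace Pool.Agent.MP_1479fb_pr.SG

namespace ChargeX

lemma pow_four_le (n : ℕ) : n ^ 4 ≤ 81 * 2 ^ n := by
  rcases le_or_gt 6 n with h | h
  · induction n, h using Nat.le_induction with
    | base => norm_num
    | succ m hm ih =>
      obtain ⟨j, rfl⟩ := Nat.exists_eq_add_of_le hm
      have e : 2 * (6 + j) ^ 4 =
          (6 + j + 1) ^ 4 + (j ^ 4 + 20 * j ^ 3 + 138 * j ^ 2 + 356 * j + 191) := by ring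
      rw [pow_succ 2]
      omega
  · interval_cases n <;> norm_num

lemma psi_nonneg (u : ℝ) : 0 ≤ psi u := by
  unfold psi
  split_ifs
  exacts [Real.sqrt_nonneg _, le_rfl]

lemma sqrt_max_le {Z Y : ℝ} (h : 1 < max Z Y) : √(max Z Y) ≤ psi Z + psi Y := by
  have hZ := psi_nonneg Z
  have hY := psi_nonneg Y
  rcases le_total Z Y with h1 | h1
  · rw [max_eq_right h1] at h ⊢
    have : psi Y = √Y := if_pos h
    linarith
  · rw [max_eq_left h1] at h ⊢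
    have : psi Z = √Z := if_pos h
    linarith

end ChargeX

open ChargeX

theorem chargeS : ChargeS := by
  intro d hd p a τ lam L W ρ r hp ha hτ hA hl hl4 hL hρ h1 h2 h3
  obtain ⟨D, rfl⟩ : ∃ D, d = D + 2 := ⟨d - 2, by omega⟩
  have e1 : D + 2 - 1 = D + 1 := rfl
  rw [e1] at h1
  obtain ⟨w, hw⟩ : ∃ w, w = max W 1 := ⟨_, rfl⟩
  rw [← hw]
  have hw1 : 1 ≤ w := hw ▸ le_max_right _ _
  have hwW : W ≤ w := hw ▸ le_max_left _ _
  have hpL : 0 ≤ p * L := by positivity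
  obtain ⟨x, hx⟩ : ∃ x, x = p * L * (2 * w) ^ (D + 1) := ⟨_, rfl⟩
  have hx1 : 1 < x := by
    rw [hx]
    rcases h2 with h2 | h2
    · exact h2.trans_le (le_mul_of_one_le_right hpL (one_le_pow₀ (by linarith)))
    · refine h1.trans_le ?_
      have : ρ ≤ w := h2.le.trans hwW
      gcongr
  obtain ⟨Z, hZ⟩ : ∃ Z, Z = 4 / lam * a * L / τ := ⟨_, rfl⟩
  obtain ⟨Y, hY⟩ : ∃ Y, Y = lam * w ^ 2 / (L * τ) := ⟨_, rfl⟩
  rw [← hZ, ← hY]
  have hZ0 : 0 ≤ Z := by rw [hZ]; positivity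
  have hY0 : 0 ≤ Y := by rw [hY]; positivity
  have hZY : Z ^ (D + 2 + 1) * Y ^ (D + 1) = (4 / lam) ^ 2 * x ^ 2 := by
    have e4 : (4 : ℝ) ^ D = 2 ^ D * 2 ^ D := by rw [← mul_pow]; norm_num
    rw [hZ, hY, hx, div_pow, mul_pow, mul_pow, hA, div_pow, div_pow, div_pow]
    simp only [mul_pow, pow_succ _ (D + 2), pow_succ _ (D + 1), pow_succ _ D, e4, ← pow_mul,
      mul_comm 2 D]
    simp only [pow_mul]
    field_simp
    ring
  obtain ⟨u, hu⟩ : ∃ u, u = max Z Y := ⟨_, rfl⟩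
  have hZu : Z ≤ u := hu ▸ le_max_left _ _
  have hYu : Y ≤ u := hu ▸ le_max_right _ _
  have hu0 : 0 ≤ u := hZ0.trans hZu
  have hxu : x ^ 2 ≤ u ^ (D + 2 + 1 + (D + 1)) := by
    have h4 : 1 ≤ 4 / lam := by rw [le_div_iff₀ hl]; linarith
    calc x ^ 2 ≤ (4 / lam) ^ 2 * x ^ 2 := le_mul_of_one_le_left (sq_nonneg _) (one_le_pow₀ h4)
      _ = _ := hZY.symm
      _ ≤ u ^ (D + 2 + 1) * u ^ (D + 1) := by gcongr
      _ = _ := (pow_add _ _ _).symm
  have hu1 : 1 < u := by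
    by_contra hcon
    have := pow_le_one₀ (n := D + 2 + 1 + (D + 1)) hu0 (not_lt.1 hcon)
    nlinarith
  have hs := sqrt_max_le (hu ▸ hu1 : 1 < max Z Y)
  rw [← hu] at hs
  have hs1 : 1 ≤ √u := Real.one_le_sqrt.2 hu1.le
  have hr : (r : ℝ) ≤ 3 * √u + 1 := by
    rcases r with _ | n
    · push_cast; linarith
    have h3' : (2 : ℝ) ^ n * ρ < W := by simpa using h3
    have a1 : ((2 : ℝ) ^ n) ^ (D + 1) ≤ x := by
      have b1 : (2 : ℝ) ^ n * ρ ≤ w := h3'.le.trans hwW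
      calc ((2 : ℝ) ^ n) ^ (D + 1) ≤ p * L * (2 * ρ) ^ (D + 1) * ((2 : ℝ) ^ n) ^ (D + 1) :=
            le_mul_of_one_le_left (by positivity) h1.le
        _ = p * L * (2 * (2 ^ n * ρ)) ^ (D + 1) := by simp only [mul_pow]; ring
        _ ≤ _ := by rw [hx]; gcongr
    have a2 : x ≤ (u ^ 2) ^ (D + 1) := by
      refine le_of_sq_le_sq (hxu.trans ?_) (by positivity)
      rw [← pow_mul, ← pow_mul]
      exact pow_le_pow_right₀ hu1.le (by omega)
    have a3 : (2 : ℝ) ^ n ≤ u ^ 2 :=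
      le_of_pow_le_pow_left₀ (Nat.succ_ne_zero D) (by positivity) (a1.trans a2)
    have a4 : (n : ℝ) ^ 4 ≤ 81 * 2 ^ n := by exact_mod_cast pow_four_le n
    have a5 : (n : ℝ) ≤ 3 * √u := by
      refine le_of_pow_le_pow_left₀ (n := 4) (by norm_num) (by positivity) ?_
      have : (3 * √u) ^ 4 = 81 * (√u ^ 2) ^ 2 := by ring
      rw [this, Real.sq_sqrt hu0]
      linarith
    push_cast
    linarith
  have hD : (1 : ℝ) ≤ ((D + 2 : ℕ) : ℝ) + 1 := by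
    have : (0 : ℝ) ≤ ((D + 2 : ℕ) : ℝ) := Nat.cast_nonneg _
    linarith
  calc ((r : ℝ) + 4) * (((D + 2 : ℕ) : ℝ) + 1) + 1
      ≤ ((r : ℝ) + 4) * (((D + 2 : ℕ) : ℝ) + 1) + (((D + 2 : ℕ) : ℝ) + 1) := by linarith
    _ = (((D + 2 : ℕ) : ℝ) + 1) * (r + 5) := by ring
    _ ≤ (((D + 2 : ℕ) : ℝ) + 1) * (10 * (psi Z + psi Y)) := by
      apply mul_le_mul_of_nonneg_left _ (by linarith)
      linarith
    _ = _ := by ring

end Pool.Agent.MP_1479fb_pr.SG
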