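import Pool.Agent.MP_1479fb_pr.SG.Spec

/-! PROJECT SG: the tube lemma and the covering of a walk by a member of the family. -/

set_option autoImplicit false

open Finset

namespace Pool.Agent.MP_1479fb_pr.SG

namespace CoverX

lemma chord (x P Q A B θ θ' L ρ : ℝ) (h0 : 0 ≤ θ') (h1 : θ' ≤ θ) (h2 : θ ≤ 1)
    (h3 : (θ - θ') * L ≤ ρ) (hx : |x - (P + θ * (Q - P))| ≤ ρ) (hQ : |Q - P| ≤ L)
    (hA : |A - P| ≤ ρ) (hB : |B - Q| ≤ ρ) : |x - (A + θ' * (B - A))| ≤ 3 * ρ := by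
  rw [abs_le] at hx hQ hA hB ⊢
  have e : x - (A + θ' * (B - A)) = (x - (P + θ * (Q - P))) + (θ - θ') * (Q - P) -
      (1 - θ') * (A - P) - θ' * (B - Q) := by ring
  have a1 := mul_le_mul_of_nonneg_left hQ.1 (sub_nonneg.2 h1)
  have a2 := mul_le_mul_of_nonneg_left hQ.2 (sub_nonneg.2 h1)
  have a3 := mul_le_mul_of_nonneg_left hA.1 (sub_nonneg.2 (h1.trans h2))
  have a4 := mul_le_mul_of_nonneg_left hA.2 (sub_nonneg.2 (h1.trans h2))
  have a5 := mul_le_mul_of_nonneg_left hB.1 h0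
  have a6 := mul_le_mul_of_nonneg_left hB.2 h0
  rw [e]
  constructor <;> nlinarith

lemma tot_nonneg (χ : ℕ → ℕ → ℝ) (h : ∀ j a, 0 ≤ χ j a) : ∀ j a, 0 ≤ Tot χ j a
  | 0, _ => le_rfl
  | j + 1, a => add_nonneg (add_nonneg (h _ _) (tot_nonneg χ h j a)) (tot_nonneg χ h j _)

lemma code_bound (x P Q A B ρ R : ℤ) (hρ : 1 ≤ ρ) (hR : 1 ≤ R)
    (hx : |2 * x - (P + Q)| ≤ 2 * (R * ρ)) (hA : |A - P| ≤ ρ) (hB : |B - Q| ≤ ρ) :
    |(x - (A + B) / 2) / ρ| ≤ 4 * R := by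
  rw [abs_le] at hx hA hB ⊢
  have h1 : ρ ≤ R * ρ := by nlinarith
  have h2 : x - (A + B) / 2 ≤ 4 * R * ρ := by
    have : 4 * R * ρ = 4 * (R * ρ) := by ring
    omega
  have h3 : -(4 * R) * ρ ≤ x - (A + B) / 2 := by
    have : -(4 * R) * ρ = -4 * (R * ρ) := by ring
    omega
  exact ⟨Int.le_ediv_of_mul_le (by omega) h3, Int.ediv_le_of_le_mul (by omega) h2⟩

end CoverX

open CoverX

theorem tubeS (h : EnS) : TubeS := by
  intro d g hg ρ j a A B hρ hW hA hB t ht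
  obtain ⟨h1, -, -, h4, -⟩ := h d g hg
  refine mem_biUnion.2 ⟨t / ρ, mem_range.2 (Nat.lt_succ_of_le (Nat.div_le_div_right ht)),
    mem_cube.2 fun c => ?_⟩
  have hL : (0 : ℝ) < 2 ^ j := by positivity
  have hρ' : (1 : ℝ) ≤ ρ := by exact_mod_cast hρ
  have e1 : ((t / ρ * ρ : ℕ) : ℝ) ≤ t := by exact_mod_cast Nat.div_mul_le_self t ρ
  have e2 : (t : ℝ) ≤ ((t / ρ * ρ : ℕ) : ℝ) + ρ := by
    exact_mod_cast (Nat.lt_div_mul_add (a := t) hρ).le
  have hc := chord (g (a + t) c) (g a c) (g (a + 2 ^ j) c) (A c) (B c) ((t : ℝ) / 2 ^ j)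
    (((t / ρ * ρ : ℕ) : ℝ) / 2 ^ j) (2 ^ j) ρ (by positivity)
    (div_le_div_of_nonneg_right e1 hL.le) ((div_le_one hL).2 (by exact_mod_cast ht))
    (by rw [← sub_div, div_mul_cancel₀ _ hL.ne']; linarith)
    ((h4 j a t c ht).trans hW) (by exact_mod_cast h1 a (2 ^ j) c)
    (by exact_mod_cast hA c) (by exact_mod_cast hB c)
  rw [abs_le] at hc
  have f1 := Int.floor_le ((A c : ℝ) + ((t / ρ * ρ : ℕ) : ℝ) / 2 ^ j * ((B c : ℝ) - A c))
  have f2 := Int.lt_floor_add_one ((A c : ℝ) + ((t / ρ * ρ : ℕ) : ℝ) / 2 ^ j * ((B c : ℝ) - A c))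
  have : |(g (a + t) c : ℝ) -
      (⌊(A c : ℝ) + ((t / ρ * ρ : ℕ) : ℝ) / 2 ^ j * ((B c : ℝ) - A c)⌋ : ℤ)| ≤ 4 * ρ := by
    rw [abs_le]
    constructor <;> linarith [hc.1, hc.2]
  exact_mod_cast this

/-- The covering statement with the charge hypothesis only for natural numbers `r`. -/
def CoverN : Prop := ∀ (d : ℕ) (g : ℕ → Fin d → ℤ), Lazy g →
  ∀ (s : ℕ → ℕ) (ok : ℕ → Prop) (χ : ℕ → ℕ → ℝ),
  (∀ j, s j ≤ j) → (∀ j, s (j + 1) ≤ j → s (j + 1) ≤ s j) → (∀ j, ¬ ok (j + 1) → s (j + 1) ≤ j) →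
  (∀ j a, 0 ≤ χ j a) →
  (∀ j a r : ℕ, s (j + 1) ≤ j → ¬ (ok (j + 1) ∧ Wd g (j + 1) a ≤ 2 ^ s (j + 1)) →
    (r = 0 ∨ (2 : ℝ) ^ (r - 1) * 2 ^ s (j + 1) < Wd g (j + 1) a) →
    ((r : ℝ) + 4) * (d + 1) + 1 ≤ χ (j + 1) a) →
  ∀ (j a : ℕ) (A B : Fin d → ℤ), (∀ c, |A c - g a c| ≤ 2 ^ s j) →
    (∀ c, |B c - g (a + 2 ^ j) c| ≤ 2 ^ s j) →
    ∃ q ∈ Fam s ok j A B, (∀ t ≤ 2 ^ j, g (a + t) ∈ q.1) ∧ (q.2 : ℝ) ≤ 1 + Tot χ j a

theorem coverN (h1 : EnS) (h2 : TubeS) : CoverN := by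
  classical
  intro d g hg s ok χ _ hs2 hs3 hχ hch j
  obtain ⟨-, hW, hmid, -, -⟩ := h1 d g hg
  induction j with
  | zero =>
    intro a A B hA hB
    refine ⟨(tube (2 ^ s 0) 0 A B, 1), by simp [Fam], fun t ht => ?_, by simp [Tot]⟩
    exact h2 d g hg _ 0 a A B Nat.one_le_two_pow (by simp [Wd]) (by exact_mod_cast hA)
      (by exact_mod_cast hB) t ht
  | succ j ih =>
    intro a A B hA hB
    by_cases hstop : ok (j + 1) ∧ Wd g (j + 1) a ≤ 2 ^ s (j + 1)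
    · refine ⟨(tube (2 ^ s (j + 1)) (j + 1) A B, 1), ?_, fun t ht => ?_, ?_⟩
      · rw [Fam, if_pos hstop.1]
        exact mem_union_left _ (mem_singleton_self _)
      · exact h2 d g hg _ (j + 1) a A B Nat.one_le_two_pow (by exact_mod_cast hstop.2)
          (by exact_mod_cast hA) (by exact_mod_cast hB) t ht
      · simpa using tot_nonneg χ hχ (j + 1) a
    · have hsj : s (j + 1) ≤ j := by
        by_cases hok : ok (j + 1)
        · have h3 : (2 : ℝ) ^ s (j + 1) < 2 ^ (j + 1) :=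
            (not_le.1 fun h => hstop ⟨hok, h⟩).trans_le (hW (j + 1) a).2
          exact Nat.lt_succ_iff.1 ((pow_lt_pow_iff_right₀ one_lt_two).1 h3)
        · exact hs3 j hok
      have hρ : (2 : ℤ) ^ s (j + 1) ≤ 2 ^ s j := pow_le_pow_right₀ one_le_two (hs2 j hsj)
      have hρ1 : (1 : ℤ) ≤ 2 ^ s (j + 1) := one_le_pow₀ one_le_two
      have hex : ∃ r : ℕ, Wd g (j + 1) a ≤ 2 ^ r * 2 ^ s (j + 1) :=
        ⟨j + 1, (hW (j + 1) a).2.trans (le_mul_of_one_le_right (by positivity)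
          (one_le_pow₀ one_le_two))⟩
      have hr : Nat.find hex ≤ j + 1 := Nat.find_min' hex ((hW (j + 1) a).2.trans
        (le_mul_of_one_le_right (by positivity) (one_le_pow₀ one_le_two)))
      have hr' := Nat.find_spec hex
      have hcost := hch j a (Nat.find hex) hsj hstop (by
        rcases Nat.eq_zero_or_pos (Nat.find hex) with h | h
        · exact Or.inl h
        · exact Or.inr (not_le.1 (Nat.find_min hex (Nat.sub_lt h one_pos))))
      set r := Nat.find hex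
      let z : Fin d → ℤ := fun c => (g (a + 2 ^ j) c - (A c + B c) / 2) / 2 ^ s (j + 1)
      have hM : ∀ c, |mdp (2 ^ s (j + 1)) A B z c - g (a + 2 ^ j) c| ≤ 2 ^ s j := by
        intro c
        have e1 := Int.emod_nonneg (g (a + 2 ^ j) c - (A c + B c) / 2)
          (show (2 : ℤ) ^ s (j + 1) ≠ 0 by positivity)
        have e2 := Int.emod_lt_of_pos (g (a + 2 ^ j) c - (A c + B c) / 2)
          (show (0 : ℤ) < 2 ^ s (j + 1) by positivity)
        have e3 := Int.mul_ediv_add_emod (g (a + 2 ^ j) c - (A c + B c) / 2) (2 ^ s (j + 1))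
        simp only [mdp, z, Nat.cast_pow, Nat.cast_ofNat]
        rw [abs_le]
        constructor <;> linarith
      have hz : z ∈ cube (0 : Fin d → ℤ) (2 ^ (r + 2)) := by
        refine mem_cube.2 fun c => ?_
        have e1 := (hmid j a c).trans hr'
        have e2 : |2 * (g (a + 2 ^ j) c : ℝ) - (g a c + g (a + 2 ^ (j + 1)) c)| ≤
            2 * (2 ^ r * 2 ^ s (j + 1)) := by
          simp only [mid] at e1
          rw [abs_le] at e1 ⊢
          constructor <;> linarith [e1.1, e1.2]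
        have := code_bound (g (a + 2 ^ j) c) (g a c) (g (a + 2 ^ (j + 1)) c) (A c) (B c)
          (2 ^ s (j + 1)) (2 ^ r) hρ1 (one_le_pow₀ one_le_two) (by exact_mod_cast e2) (hA c) (hB c)
        simp only [Pi.zero_apply, sub_zero, z, Nat.cast_pow, Nat.cast_ofNat]
        rw [pow_add]
        linarith
      have hab : a + 2 ^ j + 2 ^ j = a + 2 ^ (j + 1) := by ring
      obtain ⟨q₁, hq₁, hc₁, hk₁⟩ := ih a A (mdp (2 ^ s (j + 1)) A B z)
        (fun c => (hA c).trans hρ) hM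
      obtain ⟨q₂, hq₂, hc₂, hk₂⟩ := ih (a + 2 ^ j) (mdp (2 ^ s (j + 1)) A B z) B hM
        (fun c => by rw [hab]; exact (hB c).trans hρ)
      refine ⟨(q₁.1 ∪ q₂.1, q₁.2 + q₂.2 + (r + 4) * (d + 1)), ?_, fun t ht => ?_, ?_⟩
      · rw [Fam]
        refine mem_union_right _ (mem_biUnion.2 ⟨r, mem_range.2 (by omega), mem_biUnion.2
          ⟨z, hz, mem_image.2 ⟨(q₁, q₂), mem_product.2 ⟨hq₁, hq₂⟩, rfl⟩⟩⟩)
      · by_cases htj : t ≤ 2 ^ j
        · exact mem_union_left _ (hc₁ t htj)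
        · have := hc₂ (t - 2 ^ j) (by rw [pow_succ] at ht; omega)
          rw [show a + 2 ^ j + (t - 2 ^ j) = a + t by omega] at this
          exact mem_union_right _ this
      · simp only [Tot]
        push_cast
        linarith

theorem coverS (h1 : EnS) (h2 : TubeS) : CoverS := by
  intro d g hg s ok χ hs1 hs2 hs3 hχ hch
  refine coverN h1 h2 d g hg s ok χ hs1 hs2 hs3 hχ fun j a r h3 h4 h5 => hch j a r h3 h4 ?_
  rcases Nat.eq_zero_or_pos r with h | h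
  · exact Or.inl (by exact_mod_cast h)
  · right
    have e : (r : ℝ) - 1 = ((r - 1 : ℕ) : ℝ) := by rw [Nat.cast_sub h, Nat.cast_one]
    rw [e, Real.rpow_natCast]
    exact h5.resolve_left h.ne'

end Pool.Agent.MP_1479fb_pr.SG
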