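import Mathlib.Probability.ConditionalProbability
import Mathlib.Analysis.SpecialFunctions.Pow.Real
import Pool.Agent.MP_1479fb_pr.PosTail

/-! PROJECT SG: the exact range of linear growth of greedy lattice paths.
Definitions and module statements. Note: 1479fb_sharp_h20.md. -/

set_option autoImplicit false

open MeasureTheory ProbabilityTheory Filter Topology Finset
open scoped ENNReal

namespace Pool.Agent.MP_1479fb_pr.SG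

open Classical

noncomputable section

variable {d : ℕ}

/-- The product measure of the field. -/
def Pm (d : ℕ) (μ : Measure ℝ) : Measure ((Fin d → ℤ) → ℝ) :=
  Measure.infinitePi (fun _ : Fin d → ℤ => μ)

/-- The sequence `a k = (16^(k d) μ[16^k, ∞))^(2/(d+1))`, described without real powers. -/
def IsA (d : ℕ) (μ : Measure ℝ) (a : ℕ → ℝ) : Prop :=
  ∀ k, 0 ≤ a k ∧ a k ^ (d + 1) = (((16 : ℝ) ^ k) ^ d * μ.real (Set.Ici ((16 : ℝ) ^ k))) ^ 2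

/-! ### Upper bound -/

/-- Walks with steps of length at most one. -/
def Lazy (g : ℕ → Fin d → ℤ) : Prop := ∀ t, ∑ c, |g (t + 1) c - g t c| ≤ 1

/-- Sum over the nodes of level at least one of the dyadic tree below the node `(j, a)`. -/
def Tot (f : ℕ → ℕ → ℝ) : ℕ → ℕ → ℝ
  | 0, _ => 0
  | j + 1, a => f (j + 1) a + Tot f j a + Tot f j (a + 2 ^ j)

/-- Deviation of the midpoint of the node `(j + 1, a)`. -/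
def mid (g : ℕ → Fin d → ℤ) (j a : ℕ) : Fin d → ℝ :=
  fun c => (g (a + 2 ^ j) c : ℝ) - ((g a c : ℝ) + (g (a + 2 ^ (j + 1)) c : ℝ)) / 2

/-- Width of the node `(j, a)`. -/
def Wd (g : ℕ → Fin d → ℤ) : ℕ → ℕ → ℝ
  | 0, _ => 0
  | j + 1, a => ‖mid g j a‖ + max (Wd g j a) (Wd g j (a + 2 ^ j))

/-- A tube of radius `4 ρ` around the segment from `A` to `B`. -/
def tube (ρ j : ℕ) (A B : Fin d → ℤ) : Finset (Fin d → ℤ) :=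
  (range (2 ^ j / ρ + 1)).biUnion fun i =>
    cube (fun c => ⌊(A c : ℝ) + ((i * ρ : ℕ) : ℝ) / 2 ^ j * ((B c : ℝ) - A c)⌋) (4 * ρ)

/-- The coded midpoint. -/
def mdp (ρ : ℕ) (A B z : Fin d → ℤ) : Fin d → ℤ := fun c => (A c + B c) / 2 + ρ * z c

/-- The family of unions of tubes with their costs. -/
def Fam (s : ℕ → ℕ) (ok : ℕ → Prop) :
    ℕ → (Fin d → ℤ) → (Fin d → ℤ) → Finset (Finset (Fin d → ℤ) × ℕ)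
  | 0, A, B => {(tube (2 ^ s 0) 0 A B, 1)}
  | j + 1, A, B => (if ok (j + 1) then {(tube (2 ^ s (j + 1)) (j + 1) A B, 1)} else ∅) ∪
      (range (j + 2)).biUnion fun r => (cube 0 (2 ^ (r + 2))).biUnion fun z =>
        (Fam s ok j A (mdp (2 ^ s (j + 1)) A B z) ×ˢ Fam s ok j (mdp (2 ^ s (j + 1)) A B z) B).image
          fun q => (q.1.1 ∪ q.2.1, q.1.2 + q.2.2 + (r + 4) * (d + 1))

/-- The exponent of the allowed width at time scale `2 ^ j`. -/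
def sx (d : ℕ) (p : ℝ) (j : ℕ) : ℕ :=
  Nat.findGreatest (fun s => p * 2 ^ j * ((2 : ℝ) ^ s) ^ (d - 1) ≤ 1) j

/-- Time scales at which a leaf is allowed. -/
def okp (p : ℝ) (j : ℕ) : Prop := p * 2 ^ j ≤ 1

/-- The family for the tail probability `p` and the closed walks of length `2 ^ m`. -/
def Fp (d : ℕ) (p : ℝ) (m : ℕ) : Finset (Finset (Fin d → ℤ) × ℕ) := Fam (sx d p) (okp p) m 0 0

/-- The charge function. -/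
def psi (u : ℝ) : ℝ := if 1 < u then √u else 0

/-- The charge of a node for the threshold `τ`. -/
def chg (g : ℕ → Fin d → ℤ) (lam a τ : ℝ) (j b : ℕ) : ℝ :=
  psi (4 / lam * a * 2 ^ j / τ) + psi (lam * (max (Wd g j b) 1) ^ 2 / (2 ^ j * τ))

/-- Linear properties of `Tot`. -/
def TotS : Prop :=
  (∀ (f f' : ℕ → ℕ → ℝ), (∀ j a, f (j + 1) a ≤ f' (j + 1) a) → ∀ j a, Tot f j a ≤ Tot f' j a) ∧
  (∀ (f f' : ℕ → ℕ → ℝ) j a, Tot (fun i b => f i b + f' i b) j a = Tot f j a + Tot f' j a) ∧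
  (∀ (c : ℝ) (f : ℕ → ℕ → ℝ) j a, Tot (fun i b => c * f i b) j a = c * Tot f j a) ∧
  (∀ (S : Finset ℕ) (f : ℕ → ℕ → ℕ → ℝ) j a,
    Tot (fun i b => ∑ k ∈ S, f k i b) j a = ∑ k ∈ S, Tot (f k) j a) ∧
  (∀ (f : ℕ → ℝ) j a, Tot (fun i _ => f i) j a = 2 ^ j * ∑ i ∈ range j, f (i + 1) / 2 ^ (i + 1))

/-- Width and energy. -/
def EnS : Prop := ∀ (d : ℕ) (g : ℕ → Fin d → ℤ), Lazy g →
  (∀ a t c, |g (a + t) c - g a c| ≤ t) ∧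
  (∀ j a, 0 ≤ Wd g j a ∧ Wd g j a ≤ 2 ^ j) ∧
  (∀ j a c, |mid g j a c| ≤ Wd g (j + 1) a) ∧
  (∀ j a t c, t ≤ 2 ^ j → |(g (a + t) c : ℝ) -
    ((g a c : ℝ) + (t : ℝ) / 2 ^ j * ((g (a + 2 ^ j) c : ℝ) - g a c))| ≤ Wd g j a) ∧
  (∀ m a, Tot (fun j b => Wd g j b ^ 2 / 2 ^ j) m a ≤ 3 * 2 ^ m)

/-- The Kraft inequality. -/
def KraftS : Prop := ∀ (d : ℕ) (s : ℕ → ℕ) (ok : ℕ → Prop) (j : ℕ) (A B : Fin d → ℤ),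
  ∑ q ∈ Fam s ok j A B, (1 / 2 : ℝ) ^ q.2 ≤ 1

/-- The volume of the members of the family. -/
def VolS : Prop := ∀ (d : ℕ), 1 ≤ d → ∀ p : ℝ, 0 ≤ p → p ≤ 1 → ∀ (j : ℕ) (A B : Fin d → ℤ),
  ∀ q ∈ Fam (sx d p) (okp p) j A B, 1 ≤ q.2 ∧ p * q.1.card ≤ 2 * 9 ^ d * q.2

/-- A narrow piece of a walk lies in the tube. -/
def TubeS : Prop := ∀ (d : ℕ) (g : ℕ → Fin d → ℤ), Lazy g → ∀ (ρ j a : ℕ) (A B : Fin d → ℤ),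
  1 ≤ ρ → Wd g j a ≤ ρ → (∀ c, |A c - g a c| ≤ ρ) → (∀ c, |B c - g (a + 2 ^ j) c| ≤ ρ) →
  ∀ t ≤ 2 ^ j, g (a + t) ∈ tube ρ j A B

/-- Every walk is covered by a member of the family of controlled cost. -/
def CoverS : Prop := ∀ (d : ℕ) (g : ℕ → Fin d → ℤ), Lazy g →
  ∀ (s : ℕ → ℕ) (ok : ℕ → Prop) (χ : ℕ → ℕ → ℝ),
  (∀ j, s j ≤ j) → (∀ j, s (j + 1) ≤ j → s (j + 1) ≤ s j) → (∀ j, ¬ ok (j + 1) → s (j + 1) ≤ j) →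
  (∀ j a, 0 ≤ χ j a) →
  (∀ j a r, s (j + 1) ≤ j → ¬ (ok (j + 1) ∧ Wd g (j + 1) a ≤ 2 ^ s (j + 1)) →
    (r = 0 ∨ (2 : ℝ) ^ (r - 1) * 2 ^ s (j + 1) < Wd g (j + 1) a) →
    ((r : ℝ) + 4) * (d + 1) + 1 ≤ χ (j + 1) a) →
  ∀ (j a : ℕ) (A B : Fin d → ℤ), (∀ c, |A c - g a c| ≤ 2 ^ s j) →
    (∀ c, |B c - g (a + 2 ^ j) c| ≤ 2 ^ s j) →
    ∃ q ∈ Fam s ok j A B, (∀ t ≤ 2 ^ j, g (a + t) ∈ q.1) ∧ (q.2 : ℝ) ≤ 1 + Tot χ j a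

/-- The charge of a node that is not stopped. -/
def ChargeS : Prop := ∀ (d : ℕ), 2 ≤ d → ∀ (p a τ lam L W ρ : ℝ) (r : ℕ),
  0 ≤ p → 0 ≤ a → 0 < τ → a ^ (d + 1) = (τ ^ d * p) ^ 2 → 0 < lam → lam ≤ 4 → 0 < L → 1 ≤ ρ →
  1 < p * L * (2 * ρ) ^ (d - 1) → (1 < p * L ∨ ρ < W) → (r = 0 ∨ (2 : ℝ) ^ (r - 1) * ρ < W) →
  ((r : ℝ) + 4) * (d + 1) + 1 ≤
    10 * (d + 1) * (psi (4 / lam * a * L / τ) + psi (lam * (max W 1) ^ 2 / (L * τ)))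

/-- The total charge over all levels. -/
def SumChS : Prop := ∀ (d : ℕ) (g : ℕ → Fin d → ℤ), Lazy g → ∀ (S : Finset ℕ) (a : ℕ → ℝ) (lam : ℝ),
  (∀ k, 0 ≤ a k) → 0 < lam → ∀ m : ℕ,
  ∑ k ∈ S, (16 : ℝ) ^ k * Tot (chg g lam (a k) (16 ^ k)) m 0 ≤
    2 ^ m * (8 * lam + 16 / lam * ∑ k ∈ S, a k)

/-- The covering for one level. -/
def LevelS : Prop := ∀ (d : ℕ), 2 ≤ d → ∀ (g : ℕ → Fin d → ℤ), Lazy g → ∀ (m : ℕ),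
  g 0 = 0 → g (2 ^ m) = 0 → ∀ (p a τ lam : ℝ), 0 ≤ p → p ≤ 1 → 0 ≤ a → 0 < τ →
  a ^ (d + 1) = (τ ^ d * p) ^ 2 → 0 < lam → lam ≤ 4 →
  ∃ q ∈ Fp d p m, (∀ t ≤ 2 ^ m, g t ∈ q.1) ∧
    (q.2 : ℝ) ≤ 1 + 10 * (d + 1) * Tot (chg g lam a τ) m 0

/-- The two union bounds. -/
def OverS : Prop := ∀ (d : ℕ), 1 ≤ d → ∀ (μ : Measure ℝ) [IsProbabilityMeasure μ] (τ : ℝ) (m : ℕ),
  (∀ t : ℕ, Pm d μ {x | ∃ q ∈ Fp d (μ.real (Set.Ici τ)) m,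
    12 * 9 ^ d * q.2 + t ≤ (q.1.filter (fun v => τ ≤ x v)).card} ≤ ENNReal.ofReal ((1 / 2) ^ t)) ∧
  Pm d μ {x | ∃ v ∈ cube (0 : Fin d → ℤ) (2 ^ m), τ ≤ x v} ≤
    ENNReal.ofReal (3 ^ d * (2 ^ m) ^ d * μ.real (Set.Ici τ))

/-- The good event at level `k` and time scale `2 ^ m`. -/
def Good (d : ℕ) (μ : Measure ℝ) (i₀ k m : ℕ) (x : (Fin d → ℤ) → ℝ) : Prop :=
  (∀ v ∈ cube (0 : Fin d → ℤ) (2 ^ m), x v < 16 ^ k) ∨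
    (4 * k + i₀ ≤ m ∧ ∀ q ∈ Fp d (μ.real (Set.Ici ((16 : ℝ) ^ k))) m,
      (q.1.filter (fun v => (16 : ℝ) ^ k ≤ x v)).card < 12 * 9 ^ d * q.2 + 3 * (d + 1) * (m - 4 * k))

/-- The Borel-Cantelli step. -/
def BCS : Prop := ∀ (d : ℕ), 2 ≤ d → ∀ (μ : Measure ℝ) [IsProbabilityMeasure μ] (a : ℕ → ℝ),
  IsA d μ a → Summable a → ∀ i₀ k₀ : ℕ, (∀ k, k₀ ≤ k → a k ≤ 1) →
  ∀ᵐ x ∂Pm d μ, ∀ᶠ m : ℕ in atTop, ∀ k, k₀ ≤ k → Good d μ i₀ k m x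

/-- The deterministic bound on the good event. -/
def DetS : Prop := ∀ (d : ℕ), 2 ≤ d → ∀ (μ : Measure ℝ) [IsProbabilityMeasure μ] (a : ℕ → ℝ),
  IsA d μ a → ∀ (i₀ k₀ m : ℕ) (lam T : ℝ) (x : (Fin d → ℤ) → ℝ), 0 < lam → lam ≤ 4 →
  (∀ S : Finset ℕ, (∀ k ∈ S, k₀ ≤ k) → ∑ k ∈ S, a k ≤ T) →
  (∀ k, k₀ ≤ k → Good d μ i₀ k m x) →
  ∀ l : List (Fin d → ℤ), (0 :: l).Nodup → (0 :: l).IsChain Adj → 2 * l.length ≤ 2 ^ m →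
  ∑ v ∈ l.toFinset.filter (fun v => (16 : ℝ) ^ k₀ ≤ x v), x v ≤
    2 ^ m * (16 * (12 * 9 ^ d) * (10 * (d + 1)) * (8 * lam + 16 / lam * T) +
      16 * (12 * 9 ^ d + 3 * (d + 1)) * (8 * (3 / 4) ^ i₀))

/-- The upper bound. -/
def UpS : Prop := ∀ (d : ℕ), 2 ≤ d → ∀ (μ : Measure ℝ) [IsProbabilityMeasure μ] (a : ℕ → ℝ),
  IsA d μ a → Summable a → PosTail d μ

/-! ### Lower bound -/

variable {D : ℕ}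

/-- Sites far from all islands of very negative sites. -/
def Safe (C : ℕ) (L : ℝ) (x : (Fin d → ℤ) → ℝ) (v : Fin d → ℤ) : Prop :=
  ¬ ∃ j u, Isl C (fun y => x y < -L) j u ∧ InQ u (Dk C (j + 1)) v

/-- The best safe gain of a path with at most `R` steps, with promised weights `w`. -/
def Gv (C : ℕ) (L K : ℝ) (R : ℕ) (w x : (Fin d → ℤ) → ℝ) : ℝ≥0∞ :=
  ⨆ l : {l : List (Fin d → ℤ) // (0 :: l).Nodup ∧ (0 :: l).IsChain Adj ∧ l.length ≤ R},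
    ENNReal.ofReal (∑ v ∈ l.1.toFinset,
      if Safe C L x v then max (w v) (max (min (x v) K) 0) else 0)

/-- The two-layer coupling. -/
def Fl (τ s t : ℝ) : ℝ := if τ ≤ s then max s t else t

/-- The energy of a curve. -/
def En (N : ℕ) (y : ℕ → Fin d → ℝ) : ℝ := ∑ t ∈ range N, ∑ c, (y (t + 1) c - y t c) ^ 2

/-- Valid states: a curve over the first axis through the collected sites. -/
def Valid (N Λ : ℕ) (E : ℝ) (y : ℕ → Fin (D + 1) → ℝ) (Cs : Finset (Fin (D + 1) → ℤ)) : Prop :=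
  (∀ t, y t 0 = t) ∧ y 0 = 0 ∧
  (∀ v ∈ Cs, ∃ t : ℕ, 1 ≤ t ∧ t ≤ N ∧ ∀ c, y t c = v c) ∧
  (∀ t : ℕ, ¬ Λ ∣ t + 1 → (∀ v ∈ Cs, v 0 ≠ (t : ℤ) + 1) →
    ∀ c, y (t + 2) c - y (t + 1) c = y (t + 1) c - y t c) ∧
  Cs.card * Λ ≤ 2 * N ∧ En N y ≤ E

/-- The window of the block `[4 ℓ i, 4 ℓ (i + 1)]`. -/
def win (y : ℕ → Fin (D + 1) → ℝ) (ℓ H i : ℕ) : Finset (Fin (D + 1) → ℤ) :=
  (Icc (4 * ℓ * i + ℓ) (4 * ℓ * i + 3 * ℓ) ×ˢ cube (0 : Fin D → ℤ) H).image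
    fun q => Fin.cons (q.1 : ℤ) (fun c => ⌊y q.1 c.succ⌋ + q.2 c)

/-- No collected site has its time strictly inside the block. -/
def Free (Cs : Finset (Fin (D + 1) → ℤ)) (ℓ i : ℕ) : Prop :=
  ∀ v ∈ Cs, ¬ (((4 * ℓ * i : ℕ) : ℤ) < v 0 ∧ v 0 < ((4 * ℓ * (i + 1) : ℕ) : ℤ))

/-- Counting: the start state, the size of a window, the number of free blocks. -/
def CntS : Prop := ∀ D : ℕ,
  (∀ N Λ : ℕ, Valid (D := D) N Λ N (fun t => Pi.single 0 (t : ℝ)) ∅) ∧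
  (∀ (y : ℕ → Fin (D + 1) → ℝ) (ℓ H i : ℕ), 2 * ℓ * (2 * H + 1) ^ D ≤ (win y ℓ H i).card) ∧
  (∀ (N Λ ℓ n : ℕ) (E : ℝ) (y : ℕ → Fin (D + 1) → ℝ) (Cs : Finset (Fin (D + 1) → ℤ)),
    Valid N Λ E y Cs → 1 ≤ ℓ → 16 * ℓ ≤ Λ → N = 4 * ℓ * n →
    n ≤ 2 * ((range n).filter (fun i => Free Cs ℓ i)).card)

/-- One level of tents. -/
def TentS : Prop := ∀ (D N Λ ℓ H n : ℕ) (E : ℝ) (y : ℕ → Fin (D + 1) → ℝ)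
  (Cs : Finset (Fin (D + 1) → ℤ)) (S : Finset ℕ) (v : ℕ → Fin (D + 1) → ℤ),
  Valid N Λ E y Cs → 1 ≤ ℓ → 4 * ℓ ∣ Λ → 16 * ℓ ≤ Λ → N = 4 * ℓ * n →
  (∀ i ∈ S, i < n ∧ Free Cs ℓ i ∧ v i ∈ win y ℓ H i) →
  (∃ y' : ℕ → Fin (D + 1) → ℝ,
    Valid N (4 * ℓ) (E + n * ((D + 1) * (4 * ((H : ℝ) + 1) ^ 2 / ℓ))) y' (Cs ∪ S.image v)) ∧
  Disjoint Cs (S.image v) ∧ (S.image v).card = S.card

/-- The lattice path along a valid curve. -/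
def PathS : Prop := ∀ (D N Λ : ℕ) (E : ℝ) (y : ℕ → Fin (D + 1) → ℝ)
  (Cs : Finset (Fin (D + 1) → ℤ)), Valid N Λ E y Cs →
  ∃ l : List (Fin (D + 1) → ℤ), (0 :: l).Nodup ∧ (0 :: l).IsChain Adj ∧
    (l.length : ℝ) ≤ E + 2 * (D + 1) * N ∧ ∀ v ∈ Cs, v ∈ l

/-- Measurability, boundedness and monotonicity of the gain. -/
def GvS : Prop := ∀ (d C : ℕ) (L K : ℝ) (R : ℕ),
  (∀ v : Fin d → ℤ, MeasurableSet {x | Safe C L x v}) ∧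
  (∀ w : (Fin d → ℤ) → ℝ, Measurable (Gv C L K R w)) ∧
  (∀ x : (Fin d → ℤ) → ℝ, 0 ≤ K → Gv C L K R 0 x ≤ ENNReal.ofReal (K * R)) ∧
  (∀ (τ : ℝ) (w x' x'' : (Fin d → ℤ) → ℝ) (Nw : Finset (Fin d → ℤ)), τ ≤ K →
    (∀ v ∈ Nw, τ ≤ x' v) →
    Gv C L K R (fun v => if v ∈ Nw then τ else w v) x'' ≤
      Gv C L K R w (fun v => Fl τ (x' v) (x'' v)))

/-- The layered coupling. -/
def LayerS : Prop := ∀ (d : ℕ) (ν : Measure ℝ) [IsProbabilityMeasure ν] (τ : ℝ),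
  ν (Set.Iio τ) ≠ 0 → ∀ G : ((Fin d → ℤ) → ℝ) → ℝ≥0∞, Measurable G →
  ∫⁻ x, G x ∂Pm d ν =
    ∫⁻ x', ∫⁻ x'', G (fun v => Fl τ (x' v) (x'' v)) ∂Pm d (ν[|Set.Iio τ]) ∂Pm d ν

/-- A site is safe, and a large window is hit, with probability at least one half. -/
def ProbS : Prop := ∀ (d : ℕ) (ν : Measure ℝ) [IsProbabilityMeasure ν],
  (∀ (C : ℕ) (L : ℝ), ν (Set.Iio (-L)) ≤ ENNReal.ofReal (1 / 4 / ((2 * C + 1) ^ d) ^ 2) →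
    ∀ v : Fin d → ℤ, ENNReal.ofReal (1 / 2) ≤ Pm d ν {x | Safe C L x v}) ∧
  (∀ (τ q : ℝ) (W : Finset (Fin d → ℤ)), q ≤ ν.real (Set.Ici τ) → 1 ≤ q * W.card →
    ENNReal.ofReal (1 / 2) ≤ Pm d ν {x | ∃ v ∈ W, τ ≤ x v})

/-- The expected gain without further levels. -/
def BaseS : Prop := ∀ (D C : ℕ) (L K : ℝ) (R N Λ : ℕ) (E : ℝ) (y : ℕ → Fin (D + 1) → ℝ)
  (Cs : Finset (Fin (D + 1) → ℤ)) (w : (Fin (D + 1) → ℤ) → ℝ)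
  (ν : Measure ℝ) [IsProbabilityMeasure ν], Valid N Λ E y Cs → (∀ v, 0 ≤ w v) →
  ν (Set.Iio (-L)) ≤ ENNReal.ofReal (1 / 4 / ((2 * C + 1) ^ (D + 1)) ^ 2) →
  E + 2 * (D + 1) * N ≤ R →
  ENNReal.ofReal ((∑ v ∈ Cs, w v) / 2) ≤ ∫⁻ x, Gv C L K R w x ∂Pm (D + 1) ν

/-- The expected gain with a finite set of levels. -/
def IndS : Prop := ∀ (D C : ℕ) (L K τ₀ : ℝ) (R N : ℕ) (τ u q : ℕ → ℝ) (ℓ H : ℕ → ℕ)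
  (Gd : Finset ℕ) (ν : Measure ℝ) [IsProbabilityMeasure ν] (Λ : ℕ) (E : ℝ)
  (y : ℕ → Fin (D + 1) → ℝ) (Cs : Finset (Fin (D + 1) → ℤ)) (w : (Fin (D + 1) → ℤ) → ℝ),
  Valid N Λ E y Cs → (∀ v, 0 ≤ w v) → ν (Set.Iio τ₀) ≠ 0 →
  ν (Set.Iio (-L)) ≤ ENNReal.ofReal (1 / 4 / ((2 * C + 1) ^ (D + 1)) ^ 2) * ν (Set.Iio τ₀) →
  (∀ k ∈ Gd, τ₀ ≤ τ k ∧ 0 ≤ τ k ∧ τ k ≤ K ∧ 1 ≤ ℓ k ∧ 4 * ℓ k ∣ Λ ∧ 16 * ℓ k ≤ Λ ∧ 4 * ℓ k ∣ N ∧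
    q k ≤ ν.real (Set.Ico (τ k) (u k)) ∧ 1 ≤ q k * (2 * ℓ k * (2 * H k + 1) ^ D)) →
  (∀ k ∈ Gd, ∀ k' ∈ Gd, k < k' → u k ≤ τ k' ∧ ℓ k ∣ ℓ k' ∧ 4 * ℓ k ≤ ℓ k') →
  E + ∑ k ∈ Gd, (N : ℝ) / (4 * ℓ k) * ((D + 1) * (4 * ((H k : ℝ) + 1) ^ 2 / ℓ k)) +
    2 * (D + 1) * N ≤ R →
  ENNReal.ofReal ((∑ v ∈ Cs, w v + ∑ k ∈ Gd, τ k * N / (16 * ℓ k)) / 2) ≤
    ∫⁻ x, Gv C L K R w x ∂Pm (D + 1) ν

/-- Good levels carry a large part of the sum. -/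
def PickS : Prop := ∀ (a : ℕ → ℝ), (∀ k, 0 ≤ a k) → ¬ Summable a → ∀ (k₀ : ℕ) (b : ℝ),
  ∃ Gd : Finset ℕ, (∀ k ∈ Gd, k₀ ≤ k) ∧
    (∀ k ∈ Gd, ∀ k' ∈ Gd, k < k' → a k' ≤ 2 ^ (k' - k) * a k) ∧ b ≤ ∑ k ∈ Gd, a k

/-- The numbers of one level. -/
def NumS : Prop := ∀ (D : ℕ) (p a τ t : ℝ), 0 < p → p ≤ 1 → 0 < a → 0 < τ → 0 < t →
  a ^ (D + 2) = (τ ^ (D + 1) * p) ^ 2 → a ≤ t ^ (2 * (D + 1)) →
  ∃ e H : ℕ, τ * (4 * t ^ D) / a ≤ 4 * 2 ^ e ∧ 4 * 2 ^ e < 2 * (τ * (4 * t ^ D) / a) ∧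
    1 ≤ p / 2 * (2 * 2 ^ e * (2 * (H : ℝ) + 1) ^ D) ∧
    ((H : ℝ) + 1) ^ 2 ≤ 2 * (4 * 2 ^ e) ^ 2 * (a / t ^ (2 * (D + 1))) + 8

/-- The choice of the levels. -/
def LevS : Prop := ∀ (D : ℕ) (μ : Measure ℝ) [IsProbabilityMeasure μ] (a : ℕ → ℝ),
  IsA (D + 1) μ a → ¬ Summable a → ∀ (k₀ : ℕ) (b : ℝ),
  ∃ (Gd : Finset ℕ) (u q : ℕ → ℝ) (ℓ H : ℕ → ℕ) (N₀ : ℕ), 1 ≤ N₀ ∧
    (∀ k ∈ Gd, k₀ ≤ k ∧ 1 ≤ ℓ k ∧ 16 * ℓ k ∣ N₀ ∧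
      q k ≤ μ.real (Set.Ico (16 ^ k) (u k)) ∧ 1 ≤ q k * (2 * ℓ k * (2 * H k + 1) ^ D)) ∧
    (∀ k ∈ Gd, ∀ k' ∈ Gd, k < k' → u k ≤ 16 ^ k' ∧ ℓ k ∣ ℓ k' ∧ 4 * ℓ k ≤ ℓ k') ∧
    ∑ k ∈ Gd, ((H k : ℝ) + 1) ^ 2 / (4 * ℓ k) ^ 2 ≤ 3 ∧ b ≤ ∑ k ∈ Gd, (16 : ℝ) ^ k / (4 * ℓ k)

/-- The expected gain is superlinear. -/
def ExpS : Prop := ∀ (D C : ℕ) (μ : Measure ℝ) [IsProbabilityMeasure μ] (a : ℕ → ℝ),
  IsA (D + 1) μ a → ¬ Summable a → ∀ η : ℝ, 0 < η → ∃ L : ℝ, 0 ≤ L ∧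
    μ (Set.Iio (-L)) ≤ ENNReal.ofReal η ∧ ∀ b : ℝ, ∃ (K : ℝ) (N₀ : ℕ), 0 < K ∧ 1 ≤ N₀ ∧
      ∀ j : ℕ, ENNReal.ofReal (b * (j * N₀ : ℕ)) ≤
        ∫⁻ x, Gv C L K (51 * (D + 1) * (j * N₀)) 0 x ∂Pm (D + 1) μ

/-- A bounded gain with a linear mean is large infinitely often with positive probability. -/
def OftenS : Prop := ∀ (Ω : Type) [MeasurableSpace Ω] (P : Measure Ω) [IsProbabilityMeasure P]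
  (G : ℕ → Ω → ℝ≥0∞) (b M : ℝ), 0 < b → (∀ j, Measurable (G j)) →
  (∀ j x, G j x ≤ ENNReal.ofReal (M * j)) → (∀ j : ℕ, ENNReal.ofReal (b * j) ≤ ∫⁻ x, G j x ∂P) →
  P {x | ∃ᶠ j : ℕ in atTop, ENNReal.ofReal (b * j / 2) < G j x} ≠ 0

/-- The islands met by a path, for a given threshold. -/
def NegS : Prop := ∀ (d C : ℕ), 1 ≤ d → 1 ≤ C → ∃ η : ℝ, 0 < η ∧
  ∀ (μ : Measure ℝ) [IsProbabilityMeasure μ] (L : ℝ), μ (Set.Iio (-L)) ≤ ENNReal.ofReal η →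
  ∃ L₂ : ℝ, L ≤ L₂ ∧ ∀ᵐ x ∂Pm d μ, ∃ (rk : (Fin d → ℤ) → ℕ) (Ex : Finset (Fin d → ℤ)),
    (∀ v, x v < -L → Rk C (fun y => x y < -L) (rk v) v) ∧
    (∀ v, Exc C (fun y => x y < -L) 0 v → v ∈ Ex) ∧ ∀ᶠ n : ℕ in atTop,
      ∀ l : List (Fin d → ℤ), (0 :: l).Nodup → (0 :: l).IsChain Adj → l.length ≤ n →
        ∑ v ∈ l.toFinset.filter (fun y => x y < -L₂),
          ((2 * Dk C (rk v + 1) + 1) ^ d : ℝ) ≤ n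

/-- Rerouting keeps the safe sites. -/
def RouteS : Prop := ∀ (d C : ℕ), Surg d C → ∀ (x : (Fin d → ℤ) → ℝ) (K L L₂ : ℝ),
  0 ≤ K → 0 ≤ L → L ≤ L₂ → ∀ (rk : (Fin d → ℤ) → ℕ) (Ex : Finset (Fin d → ℤ)),
  (∀ v, x v < -L → Rk C (fun y => x y < -L) (rk v) v) →
  (∀ v, Exc C (fun y => x y < -L) 0 v → v ∈ Ex) →
  ∀ l : List (Fin d → ℤ), (0 :: l).Nodup → (0 :: l).IsChain Adj → ∀ u : ℝ,
  ∑ v ∈ l.toFinset.filter (fun y => x y < -L₂), ((2 * Dk C (rk v + 1) + 1) ^ d : ℝ) ≤ u →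
  ∃ l' : List (Fin d → ℤ), (0 :: l').Nodup ∧ (0 :: l').IsChain Adj ∧
    (l'.length : ℝ) ≤ l.length + u ∧
    (∑ v ∈ l.toFinset, if Safe C L x v then max (min (x v) K) 0 else 0) - L₂ * l'.length -
      ∑ v ∈ Ex, |min (x v) K| ≤ (l'.map (fun v => min (x v) K)).sum

/-- The limit for weights truncated from above. -/
def TruncS : Prop := ∀ (d : ℕ), 2 ≤ d → ∀ (μ : Measure ℝ) [IsProbabilityMeasure μ] (K : ℝ),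
  ∃ c : ℝ, ∀ᵐ x ∂Pm d μ, Tendsto (fun n : ℕ => Mx n (fun v => min (x v) K) / n) atTop (𝓝 c)

/-- The lower bound. -/
def LowS : Prop := ∀ (d : ℕ), 2 ≤ d → ∀ (μ : Measure ℝ) [IsProbabilityMeasure μ] (a : ℕ → ℝ),
  IsA d μ a → ¬ Summable a → ∀ᵐ x ∂Pm d μ, Tendsto (fun n : ℕ => Mx n x / n) atTop atTop

/-- The series and the integral. -/
def SerS : Prop := ∀ (d : ℕ), 1 ≤ d → ∀ (μ : Measure ℝ) [IsProbabilityMeasure μ],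
  ∃ a : ℕ → ℝ, IsA d μ a ∧ (Summable a ↔
    ∫⁻ t in Set.Ioi (0 : ℝ), ENNReal.ofReal (t ^ (((d : ℝ) - 1) / (d + 1)) *
      μ.real (Set.Ioi t) ^ ((2 : ℝ) / (d + 1))) < ⊤)

end

end Pool.Agent.MP_1479fb_pr.SG
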