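import Mathlib.Data.List.GetD
import Pool.Agent.MP_1479fb_pr.SG.Spec

set_option autoImplicit false

open MeasureTheory Finset

namespace Pool.Agent.MP_1479fb_pr.SG

namespace DetX

variable {d : ℕ}

/-- The closed walk that follows the path and comes back. -/
def walk (l : List (Fin d → ℤ)) (t : ℕ) : Fin d → ℤ :=
  (0 :: l).getD (min t (2 * l.length - t)) 0

lemma adj_getD {l : List (Fin d → ℤ)} (h : (0 :: l).IsChain Adj) {i : ℕ} (hi : i < l.length) :
    Adj ((0 :: l).getD i 0) ((0 :: l).getD (i + 1) 0) := by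
  have h1 : i + 1 < (0 :: l).length := by simpa using hi
  have := List.isChain_iff_getElem.1 h i h1
  rwa [List.getD_eq_getElem _ _ h1, List.getD_eq_getElem _ _ (by omega)]

lemma lazy_walk {l : List (Fin d → ℤ)} (h : (0 :: l).IsChain Adj) : Lazy (walk l) := by
  intro t
  unfold walk
  by_cases h1 : t < l.length
  · rw [show min t (2 * l.length - t) = t by omega,
      show min (t + 1) (2 * l.length - (t + 1)) = t + 1 by omega]
    exact (adj_getD h h1).le
  · by_cases h2 : t < 2 * l.length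
    · have h3 := adj_getD h (i := 2 * l.length - (t + 1)) (by omega)
      rw [show min t (2 * l.length - t) = 2 * l.length - (t + 1) + 1 by omega,
        show min (t + 1) (2 * l.length - (t + 1)) = 2 * l.length - (t + 1) by omega]
      unfold Adj at h3
      simp only [abs_sub_comm] at h3 ⊢
      exact h3.le
    · rw [show min t (2 * l.length - t) = 0 by omega,
        show min (t + 1) (2 * l.length - (t + 1)) = 0 by omega]
      simp

lemma abs_le_of_lazy {g : ℕ → Fin d → ℤ} (hg : Lazy g) (h0 : g 0 = 0) (c : Fin d) (t : ℕ) :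
    |g t c| ≤ t := by
  induction t with
  | zero => simp [h0]
  | succ t ih =>
    have h1 : |g (t + 1) c - g t c| ≤ 1 :=
      (single_le_sum (f := fun c => |g (t + 1) c - g t c|) (fun _ _ => abs_nonneg _)
        (mem_univ c)).trans (hg t)
    rw [abs_le] at h1 ih ⊢
    push_cast
    constructor <;> linarith [h1.1, h1.2, ih.1, ih.2]

lemma exists_time {l : List (Fin d → ℤ)} {v : Fin d → ℤ} (hv : v ∈ l) :
    ∃ t ≤ l.length, walk l t = v := by
  obtain ⟨i, hi, rfl⟩ := List.getElem_of_mem hv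
  refine ⟨i + 1, hi, ?_⟩
  unfold walk
  rw [show min (i + 1) (2 * l.length - (i + 1)) = i + 1 by omega, List.getD_cons_succ,
    List.getD_eq_getElem _ _ hi]

lemma geom_le (n : ℕ) : ∑ j ∈ range n, (3 / 4 : ℝ) ^ j ≤ 4 := by
  have : ∑ j ∈ range n, (3 / 4 : ℝ) ^ j = 4 - 4 * (3 / 4) ^ n := by
    induction n with
    | zero => simp
    | succ n ih => rw [sum_range_succ, ih, pow_succ]; ring
  have h : (0 : ℝ) ≤ (3 / 4) ^ n := by positivity
  linarith

lemma tail_le (S : Finset ℕ) (m i₀ : ℕ) (h : ∀ k ∈ S, 4 * k + i₀ ≤ m) :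
    ∑ k ∈ S, (3 / 4 : ℝ) ^ (m - 4 * k) ≤ 4 * (3 / 4) ^ i₀ := by
  have h1 : ∑ k ∈ S, (3 / 4 : ℝ) ^ (m - 4 * k) =
      (∑ j ∈ S.image (fun k => m - 4 * k - i₀), (3 / 4 : ℝ) ^ j) * (3 / 4) ^ i₀ := by
    rw [sum_image (fun a ha b hb hab => by
      have := h a ha
      have := h b hb
      have e : m - 4 * a - i₀ = m - 4 * b - i₀ := hab
      omega), sum_mul]
    refine sum_congr rfl fun k hk => ?_
    have := h k hk
    rw [← pow_add]
    congr 1
    omega
  rw [h1]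
  refine mul_le_mul_of_nonneg_right ((sum_le_sum_of_subset_of_nonneg ?_
    (fun _ _ _ => by positivity)).trans (geom_le (m + 1))) (by positivity)
  intro j hj
  obtain ⟨k, -, rfl⟩ := mem_image.1 hj
  exact mem_range.2 (by omega)

lemma level_le {k m : ℕ} (h : 4 * k ≤ m) :
    (16 : ℝ) ^ k * (1 + ((m - 4 * k : ℕ) : ℝ)) ≤ 2 ^ m * (2 * (3 / 4) ^ (m - 4 * k)) := by
  obtain ⟨i, rfl⟩ := Nat.exists_eq_add_of_le h
  rw [Nat.add_sub_cancel_left]
  have h1 : 1 + (i : ℝ) * (1 / 2) ≤ (1 + 1 / 2) ^ i := one_add_mul_le_pow (by norm_num) i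
  have h2 : ((1 : ℝ) + 1 / 2) ^ i = 2 ^ i * (3 / 4) ^ i := by rw [← mul_pow]; norm_num
  have h3 : (2 : ℝ) ^ (4 * k + i) = 16 ^ k * 2 ^ i := by rw [pow_add, pow_mul]; norm_num
  rw [h3, mul_assoc]
  refine mul_le_mul_of_nonneg_left ?_ (by positivity)
  rw [h2] at h1
  linarith

end DetX

open DetX in
theorem detS (h1 : SumChS) (h2 : LevelS) : DetS := by
  classical
  intro d hd μ _ a ha i₀ k₀ m lam T x hl0 hl4 hT hG l _ hch hlen
  have hlazy := lazy_walk hch
  have hg0 : walk l 0 = 0 := by simp [walk]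
  have hgm : walk l (2 ^ m) = 0 := by
    unfold walk
    rw [show min (2 ^ m) (2 * l.length - 2 ^ m) = 0 by omega]
    rfl
  set F := l.toFinset.filter (fun v => (16 : ℝ) ^ k₀ ≤ x v) with hF
  have hκ : ∀ v ∈ F, ∃ k : ℕ, k₀ ≤ k ∧ (16 : ℝ) ^ k ≤ x v ∧ x v < 16 ^ (k + 1) := by
    intro v hv
    have hx := (mem_filter.1 hv).2
    obtain ⟨k, hk1, hk2⟩ := exists_nat_pow_near (x := x v) (y := (16 : ℝ))
      ((one_le_pow₀ (by norm_num)).trans hx) (by norm_num)
    have := (pow_lt_pow_iff_right₀ (a := (16 : ℝ)) (by norm_num)).1 (hx.trans_lt hk2)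
    exact ⟨k, by omega, hk1, hk2⟩
  choose! κ hκ using hκ
  set S := F.image κ with hS
  have hvl : ∀ v ∈ F, ∃ t ≤ 2 ^ m, walk l t = v ∧ v ∈ cube (0 : Fin d → ℤ) (2 ^ m) := by
    intro v hv
    obtain ⟨t, ht, hw⟩ := exists_time (List.mem_toFinset.1 (mem_filter.1 hv).1)
    refine ⟨t, by omega, hw, mem_cube.2 fun c => ?_⟩
    have h3 := abs_le_of_lazy hlazy hg0 c t
    rw [hw] at h3
    have h4 : (t : ℤ) ≤ ((2 ^ m : ℕ) : ℤ) := by exact_mod_cast (show t ≤ 2 ^ m by omega)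
    simpa using h3.trans h4
  set C : ℝ := 12 * 9 ^ d with hC
  have hC0 : 0 ≤ C := by positivity
  have hlev : ∀ k ∈ S, 4 * k + i₀ ≤ m ∧ ∑ v ∈ F.filter (fun v => κ v = k), x v ≤
      16 * C * (10 * (d + 1)) * (16 ^ k * Tot (chg (walk l) lam (a k) (16 ^ k)) m 0) +
        16 * (C + 3 * (d + 1)) * (2 ^ m * (2 * (3 / 4) ^ (m - 4 * k))) := by
    intro k hk
    obtain ⟨v₀, hv₀, hk₀⟩ := mem_image.1 hk
    have hκ₀ := hκ v₀ hv₀
    rw [hk₀] at hκ₀
    rcases hG k hκ₀.1 with hg | ⟨hg1, hg2⟩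
    · obtain ⟨t, -, -, hc⟩ := hvl v₀ hv₀
      exact absurd (hg v₀ hc) (not_lt.2 hκ₀.2.1)
    refine ⟨hg1, ?_⟩
    obtain ⟨q, hq, hq1, hq2⟩ := h2 d hd (walk l) hlazy m hg0 hgm
      (μ.real (Set.Ici ((16 : ℝ) ^ k))) (a k) (16 ^ k) lam measureReal_nonneg
      measureReal_le_one (ha k).1 (by positivity) (ha k).2 hl0 hl4
    have h3 : (F.filter (fun v => κ v = k)).card ≤
        (q.1.filter (fun v => (16 : ℝ) ^ k ≤ x v)).card := by
      refine card_le_card fun v hv => ?_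
      obtain ⟨hv1, hv2⟩ := mem_filter.1 hv
      obtain ⟨t, ht, hw, -⟩ := hvl v hv1
      exact mem_filter.2 ⟨hw ▸ hq1 t ht, hv2 ▸ (hκ v hv1).2.1⟩
    have h4 : ((F.filter (fun v => κ v = k)).card : ℝ) ≤
        C * q.2 + 3 * (d + 1) * ((m - 4 * k : ℕ) : ℝ) := by
      rw [hC]
      exact_mod_cast h3.trans (hg2 q hq).le
    have h5 : ∑ v ∈ F.filter (fun v => κ v = k), x v ≤
        (F.filter (fun v => κ v = k)).card • (16 : ℝ) ^ (k + 1) :=
      sum_le_card_nsmul _ _ _ fun v hv => by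
        obtain ⟨hv1, hv2⟩ := mem_filter.1 hv
        exact (hv2 ▸ (hκ v hv1).2.2).le
    rw [nsmul_eq_mul] at h5
    have h6 := level_le (k := k) (m := m) (by omega)
    have h7 : C * q.2 ≤ C * (1 + 10 * (d + 1) * Tot (chg (walk l) lam (a k) (16 ^ k)) m 0) :=
      mul_le_mul_of_nonneg_left hq2 hC0
    have h8 : C + 3 * (d + 1) * ((m - 4 * k : ℕ) : ℝ) ≤
        (C + 3 * (d + 1)) * (1 + ((m - 4 * k : ℕ) : ℝ)) := by
      have e1 : 0 ≤ C * ((m - 4 * k : ℕ) : ℝ) := by positivity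
      have e2 : (0 : ℝ) ≤ 3 * (d + 1) := by positivity
      nlinarith
    have h9 : (0 : ℝ) ≤ 16 ^ (k + 1) := by positivity
    calc _ ≤ _ := h5
      _ ≤ (C * (10 * (d + 1) * Tot (chg (walk l) lam (a k) (16 ^ k)) m 0) +
          (C + 3 * (d + 1)) * (1 + ((m - 4 * k : ℕ) : ℝ))) * 16 ^ (k + 1) :=
        mul_le_mul_of_nonneg_right (by linarith) h9
      _ = 16 * C * (10 * (d + 1)) * (16 ^ k * Tot (chg (walk l) lam (a k) (16 ^ k)) m 0) +
          16 * (C + 3 * (d + 1)) * (16 ^ k * (1 + ((m - 4 * k : ℕ) : ℝ))) := by ring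
      _ ≤ _ := by gcongr
  rw [← sum_fiberwise_of_maps_to (s := F) (t := S) (g := κ) fun v hv => mem_image_of_mem κ hv]
  refine (sum_le_sum fun k hk => (hlev k hk).2).trans ?_
  rw [sum_add_distrib, ← mul_sum, ← mul_sum, ← mul_sum, ← mul_sum]
  have e1 := h1 d (walk l) hlazy S a lam (fun k => (ha k).1) hl0 m
  have e2 := hT S fun k hk => by
    obtain ⟨v, hv, rfl⟩ := mem_image.1 hk
    exact (hκ v hv).1
  have e3 := tail_le S m i₀ fun k hk => (hlev k hk).1
  have e4 : (2 : ℝ) ^ m * (8 * lam + 16 / lam * ∑ k ∈ S, a k) ≤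
      2 ^ m * (8 * lam + 16 / lam * T) := by gcongr
  calc _ ≤ 16 * C * (10 * (d + 1)) * (2 ^ m * (8 * lam + 16 / lam * T)) +
        16 * (C + 3 * (d + 1)) * (2 ^ m * (2 * (4 * (3 / 4) ^ i₀))) := by
        gcongr
        exact e1.trans e4
    _ = _ := by ring

end Pool.Agent.MP_1479fb_pr.SG
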