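import Pool.Agent.MP_1479fb_pr.SG.Spec

/-! PROJECT SG, row EN: linear properties of the tree sum, width and energy of lazy walks. -/

set_option autoImplicit false

open Finset

namespace Pool.Agent.MP_1479fb_pr.SG

namespace EnX

variable {d : ℕ}

theorem tot_mono (f f' : ℕ → ℕ → ℝ) (h : ∀ j a, f (j + 1) a ≤ f' (j + 1) a) :
    ∀ j a, Tot f j a ≤ Tot f' j a := by
  intro j
  induction j with
  | zero => intro a; simp [Tot]
  | succ j ih =>
    intro a
    simp only [Tot]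
    have h1 := h j a
    have h2 := ih a
    have h3 := ih (a + 2 ^ j)
    linarith

theorem tot_add (f f' : ℕ → ℕ → ℝ) :
    ∀ j a, Tot (fun i b => f i b + f' i b) j a = Tot f j a + Tot f' j a := by
  intro j
  induction j with
  | zero => intro a; simp [Tot]
  | succ j ih =>
    intro a
    simp only [Tot]
    rw [ih a, ih (a + 2 ^ j)]
    ring

theorem tot_smul (c : ℝ) (f : ℕ → ℕ → ℝ) :
    ∀ j a, Tot (fun i b => c * f i b) j a = c * Tot f j a := by
  intro j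
  induction j with
  | zero => intro a; simp [Tot]
  | succ j ih =>
    intro a
    simp only [Tot]
    rw [ih a, ih (a + 2 ^ j)]
    ring

theorem tot_sum (S : Finset ℕ) (f : ℕ → ℕ → ℕ → ℝ) :
    ∀ j a, Tot (fun i b => ∑ k ∈ S, f k i b) j a = ∑ k ∈ S, Tot (f k) j a := by
  intro j
  induction j with
  | zero => intro a; simp [Tot]
  | succ j ih =>
    intro a
    simp only [Tot]
    rw [ih a, ih (a + 2 ^ j), Finset.sum_add_distrib, Finset.sum_add_distrib]

theorem tot_const (f : ℕ → ℝ) :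
    ∀ j a, Tot (fun i _ => f i) j a = 2 ^ j * ∑ i ∈ range j, f (i + 1) / 2 ^ (i + 1) := by
  intro j
  induction j with
  | zero => intro a; simp [Tot]
  | succ j ih =>
    intro a
    simp only [Tot]
    rw [ih a, ih (a + 2 ^ j), Finset.sum_range_succ, mul_add]
    have h : (2 : ℝ) ^ (j + 1) * (f (j + 1) / 2 ^ (j + 1)) = f (j + 1) := by
      field_simp
    rw [h, pow_succ]
    ring

theorem step_le {g : ℕ → Fin d → ℤ} (hg : Lazy g) (t : ℕ) (c : Fin d) :
    |g (t + 1) c - g t c| ≤ 1 :=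
  (Finset.single_le_sum (f := fun c => |g (t + 1) c - g t c|) (fun _ _ => abs_nonneg _)
    (Finset.mem_univ c)).trans (hg t)

theorem lip {g : ℕ → Fin d → ℤ} (hg : Lazy g) (a t : ℕ) (c : Fin d) :
    |g (a + t) c - g a c| ≤ t := by
  induction t with
  | zero => simp
  | succ t ih =>
    have h1 := step_le hg (a + t) c
    have h2 : g (a + (t + 1)) c - g a c =
        (g (a + t + 1) c - g (a + t) c) + (g (a + t) c - g a c) := by
      rw [← add_assoc]; ring
    rw [h2]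
    have h3 := abs_add_le (g (a + t + 1) c - g (a + t) c) (g (a + t) c - g a c)
    push_cast
    linarith

theorem lipR {g : ℕ → Fin d → ℤ} (hg : Lazy g) (a j : ℕ) (c : Fin d) :
    |(g (a + 2 ^ j) c : ℝ) - g a c| ≤ 2 ^ j := by
  have h := lip hg a (2 ^ j) c
  have h' : ((|g (a + 2 ^ j) c - g a c| : ℤ) : ℝ) ≤ (((2 ^ j : ℕ) : ℤ) : ℝ) := Int.cast_le.mpr h
  push_cast at h'
  exact h'

theorem two_add (a j : ℕ) : a + 2 ^ j + 2 ^ j = a + 2 ^ (j + 1) := by
  rw [pow_succ]; ring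

theorem mid_le {g : ℕ → Fin d → ℤ} (hg : Lazy g) (j a : ℕ) (c : Fin d) :
    |mid g j a c| ≤ 2 ^ j := by
  have h1 := lipR hg a j c
  have h2 := lipR hg (a + 2 ^ j) j c
  rw [two_add] at h2
  rw [abs_le] at h1 h2 ⊢
  simp only [mid]
  constructor <;> linarith [h1.1, h1.2, h2.1, h2.2]

theorem wd_nonneg (g : ℕ → Fin d → ℤ) : ∀ j a, 0 ≤ Wd g j a := by
  intro j
  induction j with
  | zero => intro a; simp [Wd]
  | succ j ih =>
    intro a
    simp only [Wd]
    exact add_nonneg (norm_nonneg _) ((ih a).trans (le_max_left _ _))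

theorem wd_le {g : ℕ → Fin d → ℤ} (hg : Lazy g) : ∀ j a, Wd g j a ≤ 2 ^ j := by
  intro j
  induction j with
  | zero => intro a; simp [Wd]
  | succ j ih =>
    intro a
    simp only [Wd]
    have h1 : ‖mid g j a‖ ≤ 2 ^ j :=
      (pi_norm_le_iff_of_nonneg (by positivity)).mpr fun c => by
        rw [Real.norm_eq_abs]; exact mid_le hg j a c
    have h2 : max (Wd g j a) (Wd g j (a + 2 ^ j)) ≤ 2 ^ j := max_le (ih a) (ih _)
    rw [pow_succ]
    linarith

theorem mid_norm (g : ℕ → Fin d → ℤ) (j a : ℕ) (c : Fin d) : |mid g j a c| ≤ ‖mid g j a‖ := by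
  rw [← Real.norm_eq_abs]; exact norm_le_pi_norm _ c

theorem mid_wd (g : ℕ → Fin d → ℤ) (j a : ℕ) (c : Fin d) : |mid g j a c| ≤ Wd g (j + 1) a := by
  simp only [Wd]
  have h1 := mid_norm g j a c
  have h2 : 0 ≤ max (Wd g j a) (Wd g j (a + 2 ^ j)) := (wd_nonneg g j a).trans (le_max_left _ _)
  linarith

theorem abs_shift {x y s m W : ℝ} (hx : |x| ≤ W) (hs0 : 0 ≤ s) (hs1 : s ≤ 1) (hy : |y| ≤ m) :
    |x + s * y| ≤ m + W := by
  have h1 := abs_add_le x (s * y)
  have h2 : |s * y| ≤ m := by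
    rw [abs_mul, abs_of_nonneg hs0]
    have h3 := abs_nonneg y
    nlinarith
  linarith

theorem chord (g : ℕ → Fin d → ℤ) (c : Fin d) : ∀ j a t, t ≤ 2 ^ j → |(g (a + t) c : ℝ) -
    ((g a c : ℝ) + (t : ℝ) / 2 ^ j * ((g (a + 2 ^ j) c : ℝ) - g a c))| ≤ Wd g j a := by
  intro j
  induction j with
  | zero =>
    intro a t ht
    have ht' : t = 0 ∨ t = 1 := by simp at ht; omega
    rcases ht' with rfl | rfl <;> simp [Wd]
  | succ j ih =>
    intro a t ht
    have hp : (0 : ℝ) < 2 ^ j := by positivity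
    simp only [Wd]
    rcases le_or_gt t (2 ^ j) with h | h
    · have h1 := (ih a t h).trans (le_max_left _ (Wd g j (a + 2 ^ j)))
      have hs0 : (0 : ℝ) ≤ (t : ℝ) / 2 ^ j := by positivity
      have hs1 : (t : ℝ) / 2 ^ j ≤ 1 := by
        rw [div_le_one hp]; exact_mod_cast h
      have h2 := abs_shift h1 hs0 hs1 (mid_norm g j a c)
      convert h2 using 2
      simp only [mid]
      rw [pow_succ (2 : ℝ) j]
      field_simp
      ring
    · obtain ⟨s, rfl⟩ : ∃ s, t = 2 ^ j + s := ⟨t - 2 ^ j, by omega⟩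
      have hs : s ≤ 2 ^ j := by rw [pow_succ] at ht; omega
      have h1 := (ih (a + 2 ^ j) s hs).trans (le_max_right (Wd g j a) _)
      rw [two_add, add_assoc] at h1
      have hs1 : (s : ℝ) / 2 ^ j ≤ 1 := by
        rw [div_le_one hp]; exact_mod_cast hs
      have hs0 : (0 : ℝ) ≤ (s : ℝ) / 2 ^ j := by positivity
      have h2 := abs_shift (s := 1 - (s : ℝ) / 2 ^ j) h1 (by linarith) (by linarith)
        (mid_norm g j a c)
      convert h2 using 2
      simp only [mid]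
      rw [pow_succ (2 : ℝ) j]
      push_cast
      field_simp
      ring

/-- The squared displacement over a node. -/
noncomputable def Q (g : ℕ → Fin d → ℤ) (j a : ℕ) : ℝ :=
  ∑ c, ((g (a + 2 ^ j) c : ℝ) - g a c) ^ 2

theorem Q_nonneg (g : ℕ → Fin d → ℤ) (j a : ℕ) : 0 ≤ Q g j a :=
  Finset.sum_nonneg fun _ _ => sq_nonneg _

theorem Q_succ (g : ℕ → Fin d → ℤ) (j a : ℕ) :
    Q g (j + 1) a = 2 * Q g j a + 2 * Q g j (a + 2 ^ j) - 4 * ∑ c, mid g j a c ^ 2 := by
  simp only [Q, mid, two_add, Finset.mul_sum, ← Finset.sum_add_distrib, ← Finset.sum_sub_distrib]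
  refine Finset.sum_congr rfl fun c _ => ?_
  ring

theorem Q_zero {g : ℕ → Fin d → ℤ} (hg : Lazy g) (a : ℕ) : Q g 0 a ≤ 1 := by
  have h1 : ∑ c, (g (a + 1) c - g a c) ^ 2 ≤ 1 := by
    refine le_trans (Finset.sum_le_sum fun c _ => ?_) (hg a)
    have h2 := step_le hg a c
    have h3 := abs_nonneg (g (a + 1) c - g a c)
    rw [← sq_abs]
    nlinarith
  have h4 : ((∑ c, (g (a + 1) c - g a c) ^ 2 : ℤ) : ℝ) ≤ ((1 : ℤ) : ℝ) := Int.cast_le.mpr h1
  push_cast at h4
  simpa [Q] using h4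

theorem norm_sq_le (y : Fin d → ℝ) : ‖y‖ ^ 2 ≤ ∑ c, y c ^ 2 := by
  have h0 : 0 ≤ ∑ c, y c ^ 2 := Finset.sum_nonneg fun _ _ => sq_nonneg _
  have h1 : ‖y‖ ≤ √(∑ c, y c ^ 2) :=
    (pi_norm_le_iff_of_nonneg (Real.sqrt_nonneg _)).mpr fun c => by
      rw [Real.norm_eq_abs]
      exact Real.abs_le_sqrt
        (Finset.single_le_sum (f := fun c => y c ^ 2) (fun _ _ => sq_nonneg _) (Finset.mem_univ c))
  have h2 := pow_le_pow_left₀ (norm_nonneg y) h1 2
  rwa [Real.sq_sqrt h0] at h2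

theorem energy {g : ℕ → Fin d → ℤ} (hg : Lazy g) : ∀ j a,
    2 ^ j * Tot (fun j b => Wd g j b ^ 2 / 2 ^ j) j a + 3 * Wd g j a ^ 2 ≤
      3 * ((2 ^ j) ^ 2 - Q g j a) := by
  intro j
  induction j with
  | zero =>
    intro a
    have h := Q_zero hg a
    simp only [Tot, Wd]
    norm_num
    linarith
  | succ j ih =>
    intro a
    have h1 := ih a
    have h2 := ih (a + 2 ^ j)
    have h3 := norm_sq_le (mid g j a)
    have h4 : max (Wd g j a) (Wd g j (a + 2 ^ j)) ^ 2 ≤ Wd g j a ^ 2 + Wd g j (a + 2 ^ j) ^ 2 := by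
      rcases max_choice (Wd g j a) (Wd g j (a + 2 ^ j)) with h | h <;> rw [h]
      · linarith [sq_nonneg (Wd g j (a + 2 ^ j))]
      · linarith [sq_nonneg (Wd g j a)]
    have h5 : (2 : ℝ) ^ (j + 1) * (Wd g (j + 1) a ^ 2 / 2 ^ (j + 1)) = Wd g (j + 1) a ^ 2 := by
      field_simp
    have h6 : Wd g (j + 1) a = ‖mid g j a‖ + max (Wd g j a) (Wd g j (a + 2 ^ j)) := rfl
    have h7 : 4 * Wd g (j + 1) a ^ 2 ≤
        12 * ‖mid g j a‖ ^ 2 + 6 * max (Wd g j a) (Wd g j (a + 2 ^ j)) ^ 2 := by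
      rw [h6]
      nlinarith [sq_nonneg (2 * ‖mid g j a‖ - max (Wd g j a) (Wd g j (a + 2 ^ j)))]
    rw [Q_succ]
    simp only [Tot]
    rw [mul_add, mul_add, h5, pow_succ (2 : ℝ) j]
    nlinarith

theorem energy_le {g : ℕ → Fin d → ℤ} (hg : Lazy g) (m a : ℕ) :
    Tot (fun j b => Wd g j b ^ 2 / 2 ^ j) m a ≤ 3 * 2 ^ m := by
  have h := energy hg m a
  have hp : (0 : ℝ) < 2 ^ m := by positivity
  have h1 := Q_nonneg g m a
  have h2 := sq_nonneg (Wd g m a)
  refine le_of_mul_le_mul_left ?_ hp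
  nlinarith

end EnX

theorem totS : TotS :=
  ⟨EnX.tot_mono, EnX.tot_add, EnX.tot_smul, EnX.tot_sum, EnX.tot_const⟩

theorem enS : EnS := fun _ g hg =>
  ⟨EnX.lip hg, fun j a => ⟨EnX.wd_nonneg g j a, EnX.wd_le hg j a⟩, EnX.mid_wd g,
    fun j a t c ht => EnX.chord g c j a t ht, EnX.energy_le hg⟩

end Pool.Agent.MP_1479fb_pr.SG
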