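import Pool.Agent.MP_1479fb_pr.SG.Spec

/-! PROJECT SG: the expected gain is superlinear. -/

set_option autoImplicit false

open MeasureTheory ProbabilityTheory Filter Topology Finset
open scoped ENNReal

namespace Pool.Agent.MP_1479fb_pr.SG

namespace ExpX

lemma exists_half (μ : Measure ℝ) [IsProbabilityMeasure μ] :
    ∃ k : ℕ, ENNReal.ofReal (1 / 2) ≤ μ (Set.Iio ((16 : ℝ) ^ k)) := by
  have hm : Monotone fun k : ℕ => Set.Iio ((16 : ℝ) ^ k) := fun i j h =>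
    Set.Iio_subset_Iio (pow_le_pow_right₀ (by norm_num) h)
  have hu : ⋃ k : ℕ, Set.Iio ((16 : ℝ) ^ k) = Set.univ := by
    refine Set.eq_univ_of_forall fun x => ?_
    obtain ⟨k, hk⟩ := pow_unbounded_of_one_lt x (show (1 : ℝ) < 16 by norm_num)
    exact Set.mem_iUnion.2 ⟨k, hk⟩
  have h := tendsto_measure_iUnion_atTop (μ := μ) hm
  rw [hu, measure_univ] at h
  have h2 : ENNReal.ofReal (1 / 2) < 1 := ENNReal.ofReal_lt_one.2 (by norm_num)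
  exact (h.eventually (le_mem_nhds h2)).exists

lemma exists_low (μ : Measure ℝ) [IsProbabilityMeasure μ] {ε : ℝ} (hε : 0 < ε) :
    ∃ L : ℝ, 0 ≤ L ∧ μ (Set.Iio (-L)) ≤ ENNReal.ofReal ε := by
  have hm : Antitone fun k : ℕ => Set.Iio (-(k : ℝ)) := fun i j h =>
    Set.Iio_subset_Iio (neg_le_neg (Nat.cast_le.2 h))
  have hu : ⋂ k : ℕ, Set.Iio (-(k : ℝ)) = ∅ := by
    refine Set.eq_empty_of_forall_notMem fun x hx => ?_
    obtain ⟨k, hk⟩ := exists_nat_gt (-x)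
    have := Set.mem_iInter.1 hx k
    simp only [Set.mem_Iio] at this
    linarith
  have h := tendsto_measure_iInter_atTop (μ := μ)
    (fun k => measurableSet_Iio.nullMeasurableSet) hm ⟨0, measure_ne_top _ _⟩
  rw [hu, measure_empty] at h
  obtain ⟨k, hk⟩ := (h.eventually (ge_mem_nhds (ENNReal.ofReal_pos.2 hε))).exists
  exact ⟨k, Nat.cast_nonneg k, hk⟩

end ExpX

theorem expS (h1 : CntS) (h2 : IndS) (h3 : LevS) : ExpS := by
  intro D C μ _ a hA hns η hη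
  obtain ⟨k₀, hk₀⟩ := ExpX.exists_half μ
  obtain ⟨L, hL0, hL⟩ := ExpX.exists_low μ
    (ε := min η (1 / 4 / ((2 * (C : ℝ) + 1) ^ (D + 1)) ^ 2 * (1 / 2))) (by positivity)
  refine ⟨L, hL0, hL.trans (ENNReal.ofReal_le_ofReal (min_le_left _ _)), fun b => ?_⟩
  obtain ⟨Gd, u, q, ℓ, H, N₀, hN, g1, g2, g3, g4⟩ := h3 D μ a hA hns k₀ (8 * b)
  have hs : 0 ≤ ∑ k ∈ Gd, (16 : ℝ) ^ k := Finset.sum_nonneg fun k _ => by positivity
  refine ⟨1 + ∑ k ∈ Gd, (16 : ℝ) ^ k, N₀, by linarith, hN, fun j => ?_⟩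
  have hne : μ (Set.Iio ((16 : ℝ) ^ k₀)) ≠ 0 :=
    ((ENNReal.ofReal_pos.2 (by norm_num)).trans_le hk₀).ne'
  have hl : ∀ k ∈ Gd, (0 : ℝ) < ℓ k := fun k hk => by exact_mod_cast (g1 k hk).2.1
  have hN0 : (0 : ℝ) ≤ (j * N₀ : ℕ) := Nat.cast_nonneg _
  refine le_trans (ENNReal.ofReal_le_ofReal ?_)
    (h2 D C L (1 + ∑ k ∈ Gd, (16 : ℝ) ^ k) (16 ^ k₀) (51 * (D + 1) * (j * N₀)) (j * N₀)
      (fun k => 16 ^ k) u q ℓ H Gd μ N₀ (j * N₀ : ℕ) _ ∅ 0 ((h1 D).1 _ _) (fun _ => le_rfl) hne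
      ?_ ?_ g2 ?_)
  · have e : ∑ k ∈ Gd, (16 : ℝ) ^ k * (j * N₀ : ℕ) / (16 * ℓ k) =
        (j * N₀ : ℕ) / 4 * ∑ k ∈ Gd, (16 : ℝ) ^ k / (4 * ℓ k) := by
      rw [Finset.mul_sum]
      refine Finset.sum_congr rfl fun k hk => ?_
      have := hl k hk
      field_simp
      ring
    rw [Finset.sum_empty, zero_add, e]
    nlinarith
  · refine hL.trans ((ENNReal.ofReal_le_ofReal (min_le_right _ _)).trans ?_)
    rw [ENNReal.ofReal_mul (by positivity)]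
    exact mul_le_mul_right hk₀ _
  · intro k hk
    obtain ⟨a1, a2, a3, a4, a5⟩ := g1 k hk
    have d1 : 4 * ℓ k ∣ N₀ := (Dvd.intro 4 (by ring)).trans a3
    refine ⟨pow_le_pow_right₀ (by norm_num) a1, by positivity, ?_, a2, d1,
      Nat.le_of_dvd hN a3, d1.mul_left j, a4, a5⟩
    have := Finset.single_le_sum (f := fun k => (16 : ℝ) ^ k) (fun k _ => by positivity) hk
    linarith
  · have e : ∑ k ∈ Gd, ((j * N₀ : ℕ) : ℝ) / (4 * ℓ k) *
        (((D : ℝ) + 1) * (4 * ((H k : ℝ) + 1) ^ 2 / ℓ k)) =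
        16 * (((D : ℝ) + 1) * ((j * N₀ : ℕ) : ℝ)) *
          ∑ k ∈ Gd, ((H k : ℝ) + 1) ^ 2 / (4 * ℓ k) ^ 2 := by
      rw [Finset.mul_sum]
      refine Finset.sum_congr rfl fun k hk => ?_
      have := hl k hk
      field_simp
      ring
    rw [e]
    have h4 : (0 : ℝ) ≤ 16 * (((D : ℝ) + 1) * ((j * N₀ : ℕ) : ℝ)) := by positivity
    have h5 := mul_le_mul_of_nonneg_left g3 h4
    have h6 : (0 : ℝ) ≤ (D : ℝ) * ((j * N₀ : ℕ) : ℝ) := by positivity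
    have h7 : ((51 * (D + 1) * (j * N₀) : ℕ) : ℝ) =
        51 * (((D : ℝ) + 1) * ((j * N₀ : ℕ) : ℝ)) := by
      push_cast; ring
    rw [h7]
    nlinarith

end Pool.Agent.MP_1479fb_pr.SG
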