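import Pool.Agent.MP_1479fb_pr.SG.Spec

/-! PROJECT SG: measurability, boundedness and monotonicity of the gain, and the base case. -/

set_option autoImplicit false

open MeasureTheory ProbabilityTheory Filter Topology Finset
open scoped ENNReal

namespace Pool.Agent.MP_1479fb_pr.SG

open Classical

noncomputable section

namespace GvX

variable {d : ℕ}

lemma meas_safe (C : ℕ) (L : ℝ) (v : Fin d → ℤ) :
    MeasurableSet {x : (Fin d → ℤ) → ℝ | Safe C L x v} := by
  have h := fun k u => measurableSet_isl (d := d) C L k u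
  simp only [Safe, measurableSet_setOfPred] at *
  exact (Measurable.exists fun j => Measurable.exists fun u => (h j u).and measurable_const).not

lemma le_Fl (τ s t : ℝ) : t ≤ Fl τ s t := by
  unfold Fl
  split_ifs
  · exact le_max_right _ _
  · exact le_rfl

lemma le_Fl' {τ s : ℝ} (t : ℝ) (h : τ ≤ s) : τ ≤ Fl τ s t := by
  unfold Fl
  rw [if_pos h]
  exact h.trans (le_max_left _ _)

lemma safe_mono {C : ℕ} {L : ℝ} {x y : (Fin d → ℤ) → ℝ} (h : ∀ v, x v ≤ y v) {v : Fin d → ℤ}
    (hs : Safe C L x v) : Safe C L y v := by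
  rintro ⟨j, u, h1, h2⟩
  exact hs ⟨j, u, Isl.congr j u (fun z _ t => lt_of_le_of_lt (h z) t) h1, h2⟩

lemma term_nonneg (p : Prop) (a b : ℝ) : 0 ≤ (if p then max a (max b 0) else 0) := by
  split_ifs
  · exact (le_max_right b 0).trans (le_max_right _ _)
  · exact le_rfl

end GvX

open GvX

theorem gvS : GvS := by
  intro d C L K R
  refine ⟨meas_safe C L, fun w => ?_, fun x hK => ?_, fun τ w x' x'' Nw hτ hN => ?_⟩
  · unfold Gv
    refine Measurable.iSup fun l => ENNReal.measurable_ofReal.comp ?_
    refine Finset.measurable_sum _ fun v _ => Measurable.ite (meas_safe C L v) ?_ measurable_const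
    exact measurable_const.max (((measurable_pi_apply v).min measurable_const).max measurable_const)
  · unfold Gv
    refine iSup_le fun l => ENNReal.ofReal_le_ofReal ?_
    have h1 : (l.1.toFinset.card : ℝ) ≤ R := by
      exact_mod_cast (List.toFinset_card_le l.1).trans l.2.2.2
    refine (Finset.sum_le_card_nsmul _ _ K fun v _ => ?_).trans ?_
    · split_ifs
      · exact max_le hK (max_le (min_le_right _ _) hK)
      · exact hK
    · rw [nsmul_eq_mul, mul_comm]
      exact mul_le_mul_of_nonneg_left h1 hK
  · unfold Gv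
    refine iSup_mono fun l => ENNReal.ofReal_le_ofReal (Finset.sum_le_sum fun v _ => ?_)
    by_cases hs : Safe C L x'' v
    · have hs' : Safe C L (fun v => Fl τ (x' v) (x'' v)) v :=
        safe_mono (fun u => le_Fl τ (x' u) (x'' u)) hs
      rw [if_pos hs, if_pos hs']
      refine max_le ?_ ((max_le_max (min_le_min (le_Fl _ _ _) le_rfl) le_rfl).trans
        (le_max_right _ _))
      by_cases hv : v ∈ Nw
      · simp only [if_pos hv]
        exact ((le_min (le_Fl' _ (hN v hv)) hτ).trans (le_max_left _ _)).trans (le_max_right _ _)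
      · simp only [if_neg hv]
        exact le_max_left _ _
    · rw [if_neg hs]
      exact term_nonneg _ _ _

theorem baseS (h1 : PathS) (h2 : GvS) (h3 : ProbS) : BaseS := by
  intro D C L K R N Λ E y Cs w ν _ hV hw hν hR
  obtain ⟨l, l1, l2, l3, l4⟩ := h1 D N Λ E y Cs hV
  have l5 : l.length ≤ R := by exact_mod_cast l3.trans hR
  have hm := (h2 (D + 1) C L K R).1
  have hp := (h3 (D + 1) ν).1 C L (by exact_mod_cast hν)
  have key : ∀ x, ∑ v ∈ Cs, {x | Safe C L x v}.indicator (fun _ => ENNReal.ofReal (w v)) x ≤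
      Gv C L K R w x := by
    intro x
    refine le_trans ?_ (le_iSup (fun l : {l : List (Fin (D + 1) → ℤ) //
      (0 :: l).Nodup ∧ (0 :: l).IsChain Adj ∧ l.length ≤ R} =>
        ENNReal.ofReal (∑ v ∈ l.1.toFinset,
          if Safe C L x v then max (w v) (max (min (x v) K) 0) else 0)) ⟨l, l1, l2, l5⟩)
    refine le_trans ?_ (ENNReal.ofReal_le_ofReal (Finset.sum_le_sum_of_subset_of_nonneg
      (s := Cs) (fun v hv => List.mem_toFinset.2 (l4 v hv)) (fun v _ _ => term_nonneg _ _ _)))
    rw [ENNReal.ofReal_sum_of_nonneg (fun v _ => term_nonneg _ _ _)]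
    refine Finset.sum_le_sum fun v _ => ?_
    by_cases hs : Safe C L x v
    · rw [Set.indicator_of_mem (show x ∈ {x | Safe C L x v} from hs), if_pos hs]
      exact ENNReal.ofReal_le_ofReal (le_max_left _ _)
    · rw [Set.indicator_of_notMem (show x ∉ {x | Safe C L x v} from hs)]
      exact bot_le
  refine le_trans ?_ (lintegral_mono key)
  rw [lintegral_finsetSum _ (fun v _ => measurable_const.indicator (hm v)), Finset.sum_div,
    ENNReal.ofReal_sum_of_nonneg (fun v _ => div_nonneg (hw v) zero_le_two)]
  refine Finset.sum_le_sum fun v _ => ?_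
  rw [lintegral_indicator_const (hm v), div_eq_mul_one_div, ENNReal.ofReal_mul (hw v)]
  exact mul_le_mul_right (hp v) _

end

end Pool.Agent.MP_1479fb_pr.SG
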