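import Pool.Agent.MP_1479fb_pr.SG.Spec

/-! PROJECT SG, row IND: the expected gain with a finite set of levels. -/

set_option autoImplicit false

open MeasureTheory ProbabilityTheory Filter Topology Finset
open scoped ENNReal

namespace Pool.Agent.MP_1479fb_pr.SG

open Classical

namespace IndX

theorem prob_Pm (d : ℕ) (ν : Measure ℝ) [IsProbabilityMeasure ν] :
    IsProbabilityMeasure (Pm d ν) := by
  unfold Pm
  infer_instance

theorem meas_hit {d : ℕ} (τ : ℝ) (W : Finset (Fin d → ℤ)) :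
    MeasurableSet {x : (Fin d → ℤ) → ℝ | ∃ v ∈ W, τ ≤ x v} := by
  have h : {x : (Fin d → ℤ) → ℝ | ∃ v ∈ W, τ ≤ x v} = ⋃ v ∈ W, {x | τ ≤ x v} := by
    ext x
    simp
  rw [h]
  exact Finset.measurableSet_biUnion W
    (fun v _ => measurableSet_le measurable_const (measurable_pi_apply v))

/-- Conditioning on a larger half line does not decrease the mass of a subset. -/
theorem le_cond (ν : Measure ℝ) [IsProbabilityMeasure ν] (τ : ℝ) (A : Set ℝ)
    (hA : A ⊆ Set.Iio τ) : ν A ≤ ν[|Set.Iio τ] A := by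
  rw [cond_apply measurableSet_Iio, Set.inter_eq_self_of_subset_right hA]
  have h1 : (1 : ℝ≥0∞) ≤ (ν (Set.Iio τ))⁻¹ := ENNReal.one_le_inv.2 prob_le_one
  calc ν A = 1 * ν A := (one_mul _).symm
    _ ≤ (ν (Set.Iio τ))⁻¹ * ν A := mul_le_mul_left h1 _

theorem cond_tail (ν : Measure ℝ) (τ τ₀ : ℝ) (h : τ₀ ≤ τ) (A : Set ℝ) (c : ℝ≥0∞)
    (hA : ν A ≤ c * ν (Set.Iio τ₀)) : ν[|Set.Iio τ] A ≤ c * ν[|Set.Iio τ] (Set.Iio τ₀) := by
  rw [cond_apply measurableSet_Iio, cond_apply measurableSet_Iio,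
    Set.inter_eq_self_of_subset_right (Set.Iio_subset_Iio h)]
  calc (ν (Set.Iio τ))⁻¹ * ν (Set.Iio τ ∩ A) ≤ (ν (Set.Iio τ))⁻¹ * (c * ν (Set.Iio τ₀)) :=
        mul_le_mul_right ((measure_mono Set.inter_subset_right).trans hA) _
    _ = c * ((ν (Set.Iio τ))⁻¹ * ν (Set.Iio τ₀)) := by ring

/-- Integration of the number of events that occur. -/
theorem int_count {Ω : Type} [MeasurableSpace Ω] (P : Measure Ω) [IsProbabilityMeasure P]
    (F : Finset ℕ) (hit : ℕ → Set Ω) (hm : ∀ i, MeasurableSet (hit i))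
    (hp : ∀ i ∈ F, ENNReal.ofReal (1 / 2) ≤ P (hit i)) (A τ : ℝ) (hA : 0 ≤ A) (hτ : 0 ≤ τ)
    (n : ℕ) (hn : n ≤ 2 * F.card) :
    ENNReal.ofReal ((A + τ * n / 4) / 2) ≤
      ∫⁻ x, ENNReal.ofReal ((A + τ * (F.filter (fun i => x ∈ hit i)).card) / 2) ∂P := by
  have key : ∀ x, ENNReal.ofReal ((A + τ * (F.filter (fun i => x ∈ hit i)).card) / 2) =
      ENNReal.ofReal (A / 2) + ∑ i ∈ F, (hit i).indicator (fun _ => ENNReal.ofReal (τ / 2)) x := by
    intro x
    have h1 : ∑ i ∈ F, (hit i).indicator (fun _ => ENNReal.ofReal (τ / 2)) x =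
        ((F.filter (fun i => x ∈ hit i)).card : ℝ≥0∞) * ENNReal.ofReal (τ / 2) := by
      simp only [Set.indicator_apply]
      rw [← Finset.sum_filter, Finset.sum_const, nsmul_eq_mul]
    rw [h1, ← ENNReal.ofReal_natCast, ← ENNReal.ofReal_mul (Nat.cast_nonneg _),
      ← ENNReal.ofReal_add (by positivity) (by positivity)]
    congr 1
    ring
  simp_rw [key]
  rw [lintegral_add_left measurable_const, lintegral_const, measure_univ, mul_one,
    lintegral_finsetSum _ (fun i _ => measurable_const.indicator (hm i))]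
  have h2 : ∑ _i ∈ F, ENNReal.ofReal (τ / 4) ≤
      ∑ i ∈ F, ∫⁻ x, (hit i).indicator (fun _ => ENNReal.ofReal (τ / 2)) x ∂P := by
    refine Finset.sum_le_sum fun i hi => ?_
    rw [lintegral_indicator_const (hm i)]
    calc ENNReal.ofReal (τ / 4) = ENNReal.ofReal (τ / 2) * ENNReal.ofReal (1 / 2) := by
          rw [← ENNReal.ofReal_mul (by positivity)]
          congr 1
          ring
      _ ≤ ENNReal.ofReal (τ / 2) * P (hit i) := mul_le_mul_right (hp i hi) _
  refine le_trans ?_ (add_le_add_right h2 _)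
  rw [Finset.sum_const, nsmul_eq_mul, ← ENNReal.ofReal_natCast,
    ← ENNReal.ofReal_mul (Nat.cast_nonneg _), ← ENNReal.ofReal_add (by positivity) (by positivity)]
  refine ENNReal.ofReal_le_ofReal ?_
  have h3 : (n : ℝ) ≤ 2 * F.card := by exact_mod_cast hn
  have h4 := mul_le_mul_of_nonneg_left h3 hτ
  linarith only [h4]

theorem int_ge {Ω : Type} [MeasurableSpace Ω] (P : Measure Ω) [IsProbabilityMeasure P]
    (F : Finset ℕ) (hit : ℕ → Set Ω) (hm : ∀ i, MeasurableSet (hit i))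
    (hp : ∀ i ∈ F, ENNReal.ofReal (1 / 2) ≤ P (hit i)) (A τ : ℝ) (hA : 0 ≤ A) (hτ : 0 ≤ τ)
    (n : ℕ) (hn : n ≤ 2 * F.card) (G : Ω → ℝ≥0∞)
    (hG : ∀ x, ∀ S : Finset ℕ, (∀ i ∈ S, i ∈ F ∧ x ∈ hit i) →
      ENNReal.ofReal ((A + τ * S.card) / 2) ≤ G x) :
    ENNReal.ofReal ((A + τ * n / 4) / 2) ≤ ∫⁻ x, G x ∂P :=
  (int_count P F hit hm hp A τ hA hτ n hn).trans
    (lintegral_mono fun x => hG x _ fun _ hi => Finset.mem_filter.1 hi)

theorem sum_new {α : Type} [DecidableEq α] (Cs Nw : Finset α) (hd : Disjoint Cs Nw) (w : α → ℝ)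
    (τ : ℝ) : ∑ z ∈ Cs ∪ Nw, (if z ∈ Nw then τ else w z) = ∑ z ∈ Cs, w z + τ * Nw.card := by
  rw [Finset.sum_union hd]
  congr 1
  · exact Finset.sum_congr rfl fun z hz => if_neg (Finset.disjoint_left.1 hd hz)
  · rw [Finset.sum_congr rfl fun z hz => if_pos hz, Finset.sum_const, nsmul_eq_mul, mul_comm]

end IndX

open IndX in
theorem indS (h1 : CntS) (h2 : TentS) (h3 : GvS) (h4 : LayerS) (h5 : ProbS) (h6 : BaseS) :
    IndS := by
  intro D C L K τ₀ R N τ u q ℓ H Gd
  induction Gd using Finset.induction_on_max with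
  | empty =>
    intro ν _ Λ E y Cs w hV hw _ hL _ _ hR
    rw [Finset.sum_empty, add_zero] at hR ⊢
    refine h6 D C L K R N Λ E y Cs w ν hV hw (hL.trans ?_) hR
    calc _ ≤ ENNReal.ofReal (1 / 4 / ((2 * C + 1) ^ (D + 1)) ^ 2) * 1 :=
          mul_le_mul_right prob_le_one _
      _ = _ := mul_one _
  | insert k s hks ih =>
    intro ν _ Λ E y Cs w hV hw h0 hL hk hkk hR
    have hnot : k ∉ s := fun h => lt_irrefl _ (hks k h)
    obtain ⟨a1, a2, a3, a4, a5, a6, ⟨n, hn⟩, a8, a9⟩ := hk k (Finset.mem_insert_self k s)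
    rw [Finset.sum_insert hnot] at hR ⊢
    have hne : ν (Set.Iio (τ k)) ≠ 0 := fun h =>
      h0 (measure_mono_null (Set.Iio_subset_Iio a1) h)
    have : IsProbabilityMeasure (ν[|Set.Iio (τ k)]) := cond_isProbabilityMeasure hne
    have := prob_Pm (D + 1) ν
    have hℓ : (0 : ℝ) < ℓ k := by exact_mod_cast a4
    have hNn : (N : ℝ) = 4 * ℓ k * n := by exact_mod_cast hn
    have e1 : (N : ℝ) / (4 * ℓ k) = n := by
      rw [hNn]
      field_simp
    have e2 : τ k * N / (16 * ℓ k) = τ k * n / 4 := by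
      rw [hNn]
      field_simp
      ring
    rw [e1] at hR
    rw [e2, h4 (D + 1) ν (τ k) hne _ ((h3 (D + 1) C L K R).2.1 w)]
    have hrest : 0 ≤ ∑ k' ∈ s, τ k' * N / (16 * ℓ k') := Finset.sum_nonneg fun k' hk' => by
      have := (hk k' (Finset.mem_insert_of_mem hk')).2.1
      positivity
    have hA : 0 ≤ ∑ v ∈ Cs, w v + ∑ k' ∈ s, τ k' * N / (16 * ℓ k') :=
      add_nonneg (Finset.sum_nonneg fun v _ => hw v) hrest
    have hq : 0 ≤ q k := by
      by_contra hq
      have h7 : q k * (2 * ℓ k * (2 * H k + 1) ^ D) ≤ 0 :=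
        mul_nonpos_of_nonpos_of_nonneg (not_le.1 hq).le (by positivity)
      linarith only [h7, a9]
    have hcount := int_ge (Pm (D + 1) ν) ((range n).filter (fun i => Free Cs (ℓ k) i))
      (fun i => {x | ∃ v ∈ win y (ℓ k) (H k) i, τ k ≤ x v}) (fun i => meas_hit _ _)
      (fun i _ => (h5 (D + 1) ν).2 (τ k) (q k) _
        (a8.trans (measureReal_mono Set.Ico_subset_Ici_self (measure_ne_top _ _)))
        (a9.trans (mul_le_mul_of_nonneg_left (by
          exact_mod_cast (h1 D).2.1 y (ℓ k) (H k) i) hq)))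
      _ (τ k) hA a2 n ((h1 D).2.2 N Λ (ℓ k) n E y Cs hV a4 a6 hn)
    refine le_trans (le_of_eq ?_) (hcount _ fun x' S hS => ?_)
    · congr 1
      ring
    have hex : ∀ i : ℕ, ∃ v : Fin (D + 1) → ℤ, i ∈ S → v ∈ win y (ℓ k) (H k) i ∧ τ k ≤ x' v := by
      intro i
      by_cases hi : i ∈ S
      · obtain ⟨v, hv⟩ := (hS i hi).2
        exact ⟨v, fun _ => hv⟩
      · exact ⟨0, fun h => absurd h hi⟩
    choose v hv using hex
    obtain ⟨⟨y', hV'⟩, hdis, hcard⟩ := h2 D N Λ (ℓ k) (H k) n E y Cs S v hV a4 a5 a6 hn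
      (fun i hi => ⟨Finset.mem_range.1 (Finset.mem_filter.1 (hS i hi).1).1,
        (Finset.mem_filter.1 (hS i hi).1).2, (hv i hi).1⟩)
    have hih := ih (ν[|Set.Iio (τ k)]) (4 * ℓ k) _ y' (Cs ∪ S.image v)
      (fun z => if z ∈ S.image v then τ k else w z) hV'
      (fun z => by
        by_cases hz : z ∈ S.image v
        · simp only [hz, if_true]
          exact a2
        · simp only [hz, if_false]
          exact hw z)
      (fun h => h0 (le_antisymm ((le_cond ν (τ k) _ (Set.Iio_subset_Iio a1)).trans h.le) zero_le))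
      (cond_tail ν (τ k) τ₀ a1 _ _ hL)
      (fun k' hk' => by
        obtain ⟨b1, b2, b3, b4, _, _, b7, b8, b9⟩ := hk k' (Finset.mem_insert_of_mem hk')
        obtain ⟨c1, c2, c3⟩ := hkk k' (Finset.mem_insert_of_mem hk') k
          (Finset.mem_insert_self k s) (hks k' hk')
        refine ⟨b1, b2, b3, b4, Nat.mul_dvd_mul_left 4 c2, by omega, b7, b8.trans ?_, b9⟩
        exact ENNReal.toReal_mono (measure_ne_top _ _)
          (le_cond ν (τ k) _ (fun t ht => lt_of_lt_of_le ht.2 c1)))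
      (fun k₁ h₁ k₂ h₂ => hkk k₁ (Finset.mem_insert_of_mem h₁) k₂ (Finset.mem_insert_of_mem h₂))
      (by linarith only [hR])
    rw [sum_new Cs (S.image v) hdis w (τ k), hcard] at hih
    refine le_trans (le_of_eq ?_) (hih.trans (lintegral_mono fun x'' => ?_))
    · rw [add_right_comm]
    · refine (h3 (D + 1) C L K R).2.2.2 (τ k) w x' x'' (S.image v) a3 fun z hz => ?_
      obtain ⟨i, hi, rfl⟩ := Finset.mem_image.1 hz
      exact (hv i hi).2

end Pool.Agent.MP_1479fb_pr.SG
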