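import Pool.Agent.MP_1479fb_pr.SG.Spec

/-! PROJECT SG: the Kraft inequality and the volume bound for the family of unions of tubes. -/

set_option autoImplicit false

open Finset

namespace Pool.Agent.MP_1479fb_pr.SG

namespace KraftX

lemma sum_union_le {α : Type} [DecidableEq α] (s t : Finset α) (f : α → ℝ) (hf : ∀ x, 0 ≤ f x) :
    ∑ x ∈ s ∪ t, f x ≤ ∑ x ∈ s, f x + ∑ x ∈ t, f x := by
  have h1 := Finset.sum_union_inter (s₁ := s) (s₂ := t) (f := f)
  have h2 : 0 ≤ ∑ x ∈ s ∩ t, f x := Finset.sum_nonneg fun x _ => hf x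
  linarith

lemma sum_biUnion_le {α β : Type} [DecidableEq β] (s : Finset α) (t : α → Finset β) (f : β → ℝ)
    (hf : ∀ x, 0 ≤ f x) : ∑ x ∈ s.biUnion t, f x ≤ ∑ a ∈ s, ∑ x ∈ t a, f x := by
  classical
  induction s using Finset.induction_on with
  | empty => simp
  | insert a s ha ih =>
    rw [Finset.biUnion_insert, Finset.sum_insert ha]
    exact (sum_union_le _ _ f hf).trans (by linarith)

lemma sum_image_le {α β : Type} [DecidableEq β] (s : Finset α) (g : α → β) (f : β → ℝ)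
    (hf : ∀ x, 0 ≤ f x) : ∑ x ∈ s.image g, f x ≤ ∑ a ∈ s, f (g a) := by
  classical
  induction s using Finset.induction_on with
  | empty => simp
  | insert a s ha ih =>
    rw [Finset.image_insert, Finset.sum_insert ha, Finset.insert_eq]
    refine (sum_union_le _ _ f hf).trans ?_
    rw [Finset.sum_singleton]
    linarith

lemma geo (n : ℕ) : ∑ r ∈ range n, (1 / 2 : ℝ) ^ (r + 4) ≤ 1 / 8 - (1 / 2) ^ (n + 3) := by
  induction n with
  | zero => norm_num
  | succ n ih =>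
    rw [Finset.sum_range_succ]
    have : (1 / 2 : ℝ) ^ (n + 3) = 2 * (1 / 2) ^ (n + 4) := by ring
    have h2 : (1 / 2 : ℝ) ^ (n + 1 + 3) = (1 / 2) ^ (n + 4) := rfl
    linarith

lemma cube_weight (d r : ℕ) :
    ((cube (0 : Fin d → ℤ) (2 ^ (r + 2))).card : ℝ) * (1 / 2) ^ ((r + 4) * (d + 1)) ≤
      (1 / 2) ^ (r + 4) := by
  rw [card_cube]
  have h1 : (2 * 2 ^ (r + 2) + 1 : ℝ) * (1 / 2) ^ (r + 4) ≤ 1 := by
    have h : (2 : ℝ) ^ (r + 4) * (1 / 2) ^ (r + 4) = 1 := by rw [← mul_pow]; norm_num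
    have h' : (1 : ℝ) ≤ 2 ^ r := one_le_pow₀ one_le_two
    have h'' : (2 * 2 ^ (r + 2) + 1 : ℝ) ≤ 2 ^ (r + 4) := by
      rw [pow_add, pow_add]; linarith
    calc _ ≤ (2 : ℝ) ^ (r + 4) * (1 / 2) ^ (r + 4) :=
          mul_le_mul_of_nonneg_right h'' (by positivity)
      _ = 1 := h
  have h2 : ((2 * 2 ^ (r + 2) + 1 : ℝ) * (1 / 2) ^ (r + 4)) ^ d ≤ 1 :=
    pow_le_one₀ (by positivity) h1
  push_cast
  calc (2 * 2 ^ (r + 2) + 1 : ℝ) ^ d * (1 / 2) ^ ((r + 4) * (d + 1))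
      = ((2 * 2 ^ (r + 2) + 1 : ℝ) * (1 / 2) ^ (r + 4)) ^ d * (1 / 2) ^ (r + 4) := by
        rw [mul_pow, ← pow_mul, mul_assoc, ← pow_add, mul_add, mul_one]
    _ ≤ 1 * (1 / 2) ^ (r + 4) := mul_le_mul_of_nonneg_right h2 (by positivity)
    _ = _ := one_mul _

lemma card_tube {d : ℕ} (ρ j : ℕ) (A B : Fin d → ℤ) :
    (tube ρ j A B).card ≤ (2 ^ j / ρ + 1) * (2 * (4 * ρ) + 1) ^ d := by
  unfold tube
  refine (Finset.card_biUnion_le_card_mul _ _ _ fun i _ => (card_cube _ _).le).trans ?_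
  rw [Finset.card_range]

lemma leaf {d : ℕ} (hd : 1 ≤ d) {p : ℝ} (hp : 0 ≤ p) {j : ℕ} (hj : okp p j) (A B : Fin d → ℤ) :
    p * (tube (2 ^ sx d p j) j A B).card ≤ 2 * 9 ^ d := by
  have h1 : sx d p j ≤ j := Nat.findGreatest_le j
  have h2 : p * 2 ^ j * ((2 : ℝ) ^ sx d p j) ^ (d - 1) ≤ 1 :=
    Nat.findGreatest_spec (P := fun s => p * 2 ^ j * ((2 : ℝ) ^ s) ^ (d - 1) ≤ 1) (Nat.zero_le j)
      (by simpa [okp] using hj)
  generalize sx d p j = s at h1 h2
  obtain ⟨k, rfl⟩ := Nat.exists_eq_add_of_le h1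
  obtain ⟨e, rfl⟩ := Nat.exists_eq_add_of_le' hd
  rw [Nat.add_sub_cancel] at h2
  have h3 := card_tube (2 ^ s) (s + k) A B
  rw [pow_add, Nat.mul_div_cancel_left _ (Nat.two_pow_pos s)] at h3
  have h4 : ((tube (2 ^ s) (s + k) A B).card : ℝ) ≤
      (2 ^ k + 1) * (2 * (4 * 2 ^ s) + 1) ^ (e + 1) := by exact_mod_cast h3
  have hk : (1 : ℝ) ≤ 2 ^ k := one_le_pow₀ one_le_two
  have hs : (1 : ℝ) ≤ 2 ^ s := one_le_pow₀ one_le_two
  have h5 : (2 * (4 * 2 ^ s) + 1 : ℝ) ^ (e + 1) ≤ (9 * 2 ^ s) ^ (e + 1) :=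
    pow_le_pow_left₀ (by positivity) (by linarith) _
  have h6 : ((tube (2 ^ s) (s + k) A B).card : ℝ) ≤ (2 * 2 ^ k) * (9 * 2 ^ s) ^ (e + 1) :=
    h4.trans (mul_le_mul (by linarith) h5 (by positivity) (by positivity))
  calc p * ((tube (2 ^ s) (s + k) A B).card : ℝ) ≤ p * ((2 * 2 ^ k) * (9 * 2 ^ s) ^ (e + 1)) :=
        mul_le_mul_of_nonneg_left h6 hp
    _ = 2 * 9 ^ (e + 1) * (p * 2 ^ (s + k) * ((2 : ℝ) ^ s) ^ e) := by
        rw [mul_pow, pow_succ ((2 : ℝ) ^ s), pow_add (2 : ℝ) s k]; ring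
    _ ≤ 2 * 9 ^ (e + 1) * 1 := mul_le_mul_of_nonneg_left h2 (by positivity)
    _ = _ := mul_one _

end KraftX

open KraftX

theorem kraftS : KraftS := by
  intro d s ok j
  induction j with
  | zero =>
    intro A B
    rw [Fam, Finset.sum_singleton]
    norm_num
  | succ j ih =>
    intro A B
    have hn : ∀ q : Finset (Fin d → ℤ) × ℕ, (0 : ℝ) ≤ (1 / 2) ^ q.2 := fun q => by positivity
    rw [Fam]
    refine (sum_union_le _ _ _ hn).trans ?_
    refine (add_le_add (b := 1 / 2) (d := 1 / 8) ?_ ?_).trans (by norm_num)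
    · split_ifs
      · rw [Finset.sum_singleton]
        norm_num
      · rw [Finset.sum_empty]
        norm_num
    · refine (sum_biUnion_le _ _ _ hn).trans ?_
      refine (Finset.sum_le_sum (g := fun r => (1 / 2 : ℝ) ^ (r + 4)) fun r _ => ?_).trans
        ((geo _).trans (sub_le_self _ (by positivity)))
      refine (sum_biUnion_le _ _ _ hn).trans (le_trans ?_ (cube_weight d r))
      rw [← nsmul_eq_mul, ← Finset.sum_const]
      refine Finset.sum_le_sum fun z _ => (sum_image_le _ _ _ hn).trans ?_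
      simp only [pow_add (1 / 2 : ℝ)]
      rw [← Finset.sum_mul, Finset.sum_product' (f := fun (a b : Finset (Fin d → ℤ) × ℕ) =>
        (1 / 2 : ℝ) ^ a.2 * (1 / 2) ^ b.2), ← Finset.sum_mul_sum]
      refine mul_le_of_le_one_left (by positivity) ?_
      exact mul_le_one₀ (ih _ _) (Finset.sum_nonneg fun q _ => hn q) (ih _ _)

theorem volS : VolS := by
  intro d hd p hp hp1 j
  induction j with
  | zero =>
    intro A B q hq
    rw [Fam, Finset.mem_singleton] at hq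
    subst hq
    refine ⟨le_rfl, ?_⟩
    have := leaf hd hp (j := 0) (by simpa [okp] using hp1) A B
    simpa using this
  | succ j ih =>
    intro A B q hq
    rw [Fam, Finset.mem_union] at hq
    rcases hq with hq | hq
    · split_ifs at hq with h
      · rw [Finset.mem_singleton] at hq
        subst hq
        refine ⟨le_rfl, ?_⟩
        have := leaf hd hp h A B
        simpa using this
      · exact absurd hq (Finset.notMem_empty _)
    · obtain ⟨r, -, hq⟩ := Finset.mem_biUnion.1 hq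
      obtain ⟨z, -, hq⟩ := Finset.mem_biUnion.1 hq
      obtain ⟨⟨a, b⟩, hab, rfl⟩ := Finset.mem_image.1 hq
      obtain ⟨ha, hb⟩ := Finset.mem_product.1 hab
      obtain ⟨a1, a2⟩ := ih _ _ a ha
      obtain ⟨b1, b2⟩ := ih _ _ b hb
      refine ⟨by dsimp only; omega, ?_⟩
      have h1 : (((a.1 ∪ b.1).card : ℕ) : ℝ) ≤ a.1.card + b.1.card := by
        exact_mod_cast Finset.card_union_le _ _
      have h2 := mul_le_mul_of_nonneg_left h1 hp
      have h3 : (0 : ℝ) ≤ 2 * 9 ^ d * (((r : ℝ) + 4) * (d + 1)) := by positivity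
      dsimp only
      push_cast
      nlinarith

end Pool.Agent.MP_1479fb_pr.SG
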