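import Pool.Agent.MP_1479fb_pr.SG.Spec

/-! PROJECT SG: the layered coupling. -/

set_option autoImplicit false

open MeasureTheory ProbabilityTheory Filter Topology
open scoped ENNReal

namespace Pool.Agent.MP_1479fb_pr.SG

namespace LayerX

theorem meas_Fl (τ : ℝ) : Measurable fun p : ℝ × ℝ => Fl τ p.1 p.2 := by
  unfold Fl
  exact Measurable.ite (measurableSet_le measurable_const measurable_fst)
    (measurable_fst.max measurable_snd) measurable_snd

theorem site (ν : Measure ℝ) [IsProbabilityMeasure ν] (τ : ℝ) (h : ν (Set.Iio τ) ≠ 0) :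
    MeasurePreserving (fun p : ℝ × ℝ => Fl τ p.1 p.2) (ν.prod (ν[|Set.Iio τ])) ν := by
  have := cond_isProbabilityMeasure (μ := ν) h
  refine ⟨meas_Fl τ, Measure.ext fun t ht => ?_⟩
  rw [Measure.map_apply (meas_Fl τ) ht, Measure.prod_apply (meas_Fl τ ht)]
  have h1 : ∀ s : ℝ, (ν[|Set.Iio τ]) (Prod.mk s ⁻¹' ((fun p : ℝ × ℝ => Fl τ p.1 p.2) ⁻¹' t)) =
      (Set.Ici τ ∩ t).indicator 1 s + (Set.Iio τ).indicator (fun _ => (ν[|Set.Iio τ]) t) s := by
    intro s
    by_cases hs : τ ≤ s
    · rw [Set.indicator_of_notMem (show s ∉ Set.Iio τ from not_lt.2 hs), add_zero,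
        cond_apply measurableSet_Iio]
      by_cases hst : s ∈ t
      · have e : Set.Iio τ ∩ Prod.mk s ⁻¹' ((fun p : ℝ × ℝ => Fl τ p.1 p.2) ⁻¹' t) = Set.Iio τ := by
          refine Set.inter_eq_left.2 fun u hu => ?_
          show Fl τ s u ∈ t
          rwa [Fl, if_pos hs, max_eq_left (hu.le.trans hs)]
        rw [e, Set.indicator_of_mem (show s ∈ Set.Ici τ ∩ t from ⟨hs, hst⟩), Pi.one_apply,
          ENNReal.inv_mul_cancel h (measure_ne_top _ _)]
      · have e : Set.Iio τ ∩ Prod.mk s ⁻¹' ((fun p : ℝ × ℝ => Fl τ p.1 p.2) ⁻¹' t) = ∅ := by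
          refine Set.eq_empty_of_forall_notMem fun u hu => hst ?_
          have h2 : Fl τ s u ∈ t := hu.2
          rwa [Fl, if_pos hs, max_eq_left (hu.1.le.trans hs)] at h2
        rw [e, Set.indicator_of_notMem (show s ∉ Set.Ici τ ∩ t from fun h => hst h.2),
          measure_empty, mul_zero]
    · rw [Set.indicator_of_notMem (show s ∉ Set.Ici τ ∩ t from fun h => hs h.1), zero_add,
        Set.indicator_of_mem (show s ∈ Set.Iio τ from not_le.1 hs)]
      congr 1
      ext u
      show Fl τ s u ∈ t ↔ u ∈ t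
      rw [Fl, if_neg hs]
  simp_rw [h1]
  rw [lintegral_add_left (measurable_one.indicator (measurableSet_Ici.inter ht)),
    lintegral_indicator_one (measurableSet_Ici.inter ht),
    lintegral_indicator_const measurableSet_Iio, cond_apply measurableSet_Iio, mul_comm,
    ← mul_assoc, ENNReal.mul_inv_cancel h (measure_ne_top _ _), one_mul, Set.inter_comm _ t,
    Set.inter_comm _ t, ← Set.compl_Ici, ← Set.sdiff_eq, measure_inter_add_sdiff _ measurableSet_Ici]

theorem field {ι : Type} (ν ν' : Measure ℝ) [IsProbabilityMeasure ν] [IsProbabilityMeasure ν']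
    {F : ℝ × ℝ → ℝ} (hF : MeasurePreserving F (ν.prod ν') ν) :
    MeasurePreserving (fun (p : (ι → ℝ) × (ι → ℝ)) (v : ι) => F (p.1 v, p.2 v))
      ((Measure.infinitePi fun _ : ι => ν).prod (Measure.infinitePi fun _ : ι => ν'))
      (Measure.infinitePi fun _ : ι => ν) := by
  have hm : Measurable fun (p : (ι → ℝ) × (ι → ℝ)) (v : ι) => F (p.1 v, p.2 v) :=
    measurable_pi_lambda _ fun v => hF.measurable.comp (by fun_prop)
  refine ⟨hm, ((Measure.isProjectiveLimit_infinitePi fun _ : ι => ν).unique fun I => ?_).symm⟩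
  have h1 : MeasurePreserving (Prod.map I.restrict I.restrict)
      ((Measure.infinitePi fun _ : ι => ν).prod (Measure.infinitePi fun _ : ι => ν'))
      ((Measure.pi fun _ : I => ν).prod (Measure.pi fun _ : I => ν')) :=
    MeasurePreserving.prod ⟨I.measurable_restrict, Measure.infinitePi_map_restrict _⟩
      ⟨I.measurable_restrict, Measure.infinitePi_map_restrict _⟩
  have h2 := (measurePreserving_arrowProdEquivProdArrow ℝ ℝ I (fun _ => ν) (fun _ => ν')).symm
  have h3 := measurePreserving_pi (fun _ : I => ν.prod ν') (fun _ : I => ν) (f := fun _ => F)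
    fun _ => hF
  rw [Measure.map_map I.measurable_restrict hm]
  exact (h3.comp (h2.comp h1)).map_eq

end LayerX

theorem layerS : LayerS := by
  intro d ν _ τ h G hG
  have := cond_isProbabilityMeasure (μ := ν) h
  have h1 := LayerX.field (ι := Fin d → ℤ) ν (ν[|Set.Iio τ]) (LayerX.site ν τ h)
  unfold Pm
  rw [← h1.lintegral_comp hG]
  exact lintegral_prod _ (hG.comp h1.measurable).aemeasurable

end Pool.Agent.MP_1479fb_pr.SG
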