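import Pool.Agent.MP_1479fb_pr.SG.Spec

/-! PROJECT SG: the choice of the levels. -/

set_option autoImplicit false

open MeasureTheory ProbabilityTheory Filter Topology Finset
open scoped ENNReal

namespace Pool.Agent.MP_1479fb_pr.SG

namespace LevX

lemma tail_anti (μ : Measure ℝ) [IsProbabilityMeasure μ] {k k' : ℕ} (h : k ≤ k') :
    μ.real (Set.Ici ((16 : ℝ) ^ k')) ≤ μ.real (Set.Ici ((16 : ℝ) ^ k)) :=
  measureReal_mono (Set.Ici_subset_Ici.2 (pow_le_pow_right₀ (by norm_num) h))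

lemma tail_pos {D : ℕ} {μ : Measure ℝ} [IsProbabilityMeasure μ] {a : ℕ → ℝ}
    (ha : IsA (D + 1) μ a) (hs : ¬ Summable a) (k : ℕ) :
    0 < μ.real (Set.Ici ((16 : ℝ) ^ k)) := by
  by_contra h
  apply hs
  apply summable_of_ne_finset_zero (s := range k)
  intro j hj
  have hj' : k ≤ j := by simpa using hj
  have h0 : μ.real (Set.Ici ((16 : ℝ) ^ j)) = 0 :=
    le_antisymm ((tail_anti μ hj').trans (not_lt.1 h)) measureReal_nonneg
  have := (ha j).2
  rw [h0, mul_zero] at this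
  simpa using this

lemma a_pos {D : ℕ} {μ : Measure ℝ} [IsProbabilityMeasure μ] {a : ℕ → ℝ}
    (ha : IsA (D + 1) μ a) (hs : ¬ Summable a) (k : ℕ) : 0 < a k := by
  rcases (ha k).1.lt_or_eq with h | h
  · exact h
  · exfalso
    have h1 := (ha k).2
    have h2 := tail_pos ha hs k
    rw [← h, zero_pow (by omega)] at h1
    have : 0 < (((16 : ℝ) ^ k) ^ (D + 1) * μ.real (Set.Ici ((16 : ℝ) ^ k))) ^ 2 := by positivity
    linarith

lemma tail_small (μ : Measure ℝ) [IsProbabilityMeasure μ] {ε : ℝ} (hε : 0 < ε) (k : ℕ) :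
    ∃ J, k < J ∧ μ.real (Set.Ici ((16 : ℝ) ^ J)) ≤ ε := by
  have h1 : Tendsto (fun j : ℕ => μ (Set.Ici ((16 : ℝ) ^ j))) atTop
      (𝓝 (μ (⋂ j : ℕ, Set.Ici ((16 : ℝ) ^ j)))) := by
    apply tendsto_measure_iInter_atTop
    · intro j; exact measurableSet_Ici.nullMeasurableSet
    · intro i j hij
      exact Set.Ici_subset_Ici.2 (pow_le_pow_right₀ (by norm_num) hij)
    · exact ⟨0, measure_ne_top _ _⟩
  have h2 : (⋂ j : ℕ, Set.Ici ((16 : ℝ) ^ j)) = ∅ := by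
    rw [Set.eq_empty_iff_forall_notMem]
    intro x hx
    obtain ⟨n, hn⟩ := pow_unbounded_of_one_lt x (by norm_num : (1 : ℝ) < 16)
    have := Set.mem_iInter.1 hx n
    exact absurd hn (not_lt.2 this)
  rw [h2, measure_empty] at h1
  have h3 : Tendsto (fun j : ℕ => μ.real (Set.Ici ((16 : ℝ) ^ j))) atTop (𝓝 0) := by
    have := (ENNReal.tendsto_toReal (by simp : (0 : ℝ≥0∞) ≠ ⊤)).comp h1
    exact this
  obtain ⟨J, hJ1, hJ2⟩ := ((eventually_gt_atTop k).and (h3.eventually (ge_mem_nhds hε))).exists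
  exact ⟨J, hJ1, hJ2⟩

lemma halves {D : ℕ} {μ : Measure ℝ} [IsProbabilityMeasure μ] {a : ℕ → ℝ}
    (ha : IsA (D + 1) μ a) {k k' : ℕ} (hk : k < k') (h : a k' ≤ 2 ^ (k' - k) * a k) :
    μ.real (Set.Ici ((16 : ℝ) ^ k')) ≤ μ.real (Set.Ici ((16 : ℝ) ^ k)) / 2 := by
  obtain ⟨n, rfl⟩ := Nat.exists_eq_add_of_lt hk
  have e0 : k + n + 1 - k = n + 1 := by omega
  rw [e0] at h
  set p := μ.real (Set.Ici ((16 : ℝ) ^ k)) with hp
  set p' := μ.real (Set.Ici ((16 : ℝ) ^ (k + n + 1))) with hp'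
  have hp0 : 0 ≤ p := measureReal_nonneg
  have hp0' : 0 ≤ p' := measureReal_nonneg
  have h1 := pow_le_pow_left₀ (ha _).1 h (D + 1 + 1)
  rw [mul_pow, (ha _).2, (ha _).2, ← hp, ← hp'] at h1
  set A : ℝ := ((16 : ℝ) ^ k) ^ (D + 1) with hA
  have hA0 : 0 < A := by positivity
  set B : ℝ := ((2 : ℝ) ^ (n + 1)) ^ (D + 1 + 1) with hB
  have hB0 : 0 < B := by positivity
  have e1 : ((16 : ℝ) ^ (k + n + 1)) ^ (D + 1) = A * ((16 : ℝ) ^ (n + 1)) ^ (D + 1) := by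
    rw [hA, ← mul_pow, ← pow_add, add_assoc]
  have e2 : 4 * B ≤ (((16 : ℝ) ^ (n + 1)) ^ (D + 1)) ^ 2 := by
    have : (16 : ℝ) = 2 ^ 4 := by norm_num
    rw [hB, this]
    have : (4 : ℝ) = 2 ^ 2 := by norm_num
    rw [this]
    simp only [← pow_mul, ← pow_add]
    apply pow_le_pow_right₀ (by norm_num)
    nlinarith [Nat.zero_le (n * D)]
  rw [e1] at h1
  have h2 : A ^ 2 * (B * (2 * p') ^ 2) ≤ A ^ 2 * (B * p ^ 2) := by
    have := mul_le_mul_of_nonneg_right e2 (mul_nonneg (sq_nonneg A) (sq_nonneg p'))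
    nlinarith
  have h3 := le_of_mul_le_mul_left (le_of_mul_le_mul_left h2 (by positivity)) hB0
  have h4 : 2 * p' ≤ p := le_of_pow_le_pow_left₀ (by norm_num) hp0 h3
  linarith

lemma ico_ge (μ : Measure ℝ) [IsProbabilityMeasure μ] (x y : ℝ) :
    μ.real (Set.Ici x) ≤ μ.real (Set.Ico x y) + μ.real (Set.Ici y) := by
  refine le_trans (measureReal_mono ?_) (measureReal_union_le _ _)
  intro z hz
  by_cases h : z < y
  · exact Or.inl ⟨hz, h⟩
  · exact Or.inr (not_lt.1 h)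

lemma geo_inj (Gd : Finset ℕ) (e : ℕ → ℕ) (he : Set.InjOn e Gd) :
    ∑ k ∈ Gd, (1 / 2 : ℝ) ^ e k ≤ 2 := by
  classical
  rw [← sum_image (f := fun j => (1 / 2 : ℝ) ^ j) he]
  refine (summable_geometric_two.sum_le_tsum _ (fun _ _ => by positivity)).trans ?_
  rw [tsum_geometric_two]

end LevX

open LevX in
theorem levS (h1 : PickS) (h2 : NumS) : LevS := by
  classical
  intro D μ _ a ha hs k₀ b
  have hp := tail_pos ha hs
  have hap := a_pos ha hs
  set p : ℕ → ℝ := fun k => μ.real (Set.Ici ((16 : ℝ) ^ k)) with hpdef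
  obtain ⟨Gd, hk0, hgood, hb⟩ := h1 a (fun k => (ha k).1) hs k₀ ((max 1 (8 * b)) ^ (2 * (D + 1)))
  set S := ∑ k ∈ Gd, a k with hS
  have hm1 : (1 : ℝ) ≤ max 1 (8 * b) := le_max_left _ _
  have hS1 : 1 ≤ S := (one_le_pow₀ hm1).trans hb
  obtain ⟨t, ht0, htS⟩ : ∃ t : ℝ, 0 < t ∧ t ^ (2 * (D + 1)) = S :=
    ⟨S ^ (((2 * (D + 1) : ℕ) : ℝ)⁻¹), Real.rpow_pos_of_pos (by linarith) _,
      Real.rpow_inv_natCast_pow (by linarith) (by omega)⟩
  have htm : max 1 (8 * b) ≤ t := by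
    rw [← htS] at hb
    exact le_of_pow_le_pow_left₀ (by omega) ht0.le hb
  have ht1 : 1 ≤ t := hm1.trans htm
  have hnum : ∀ k, ∃ e H : ℕ, k ∈ Gd →
      (16 : ℝ) ^ k * (4 * t ^ D) / a k ≤ 4 * 2 ^ e ∧
      4 * 2 ^ e < 2 * ((16 : ℝ) ^ k * (4 * t ^ D) / a k) ∧
      1 ≤ p k / 2 * (2 * 2 ^ e * (2 * (H : ℝ) + 1) ^ D) ∧
      ((H : ℝ) + 1) ^ 2 ≤ 2 * (4 * 2 ^ e) ^ 2 * (a k / t ^ (2 * (D + 1))) + 8 := by
    intro k
    by_cases hk : k ∈ Gd
    · obtain ⟨e, H, h⟩ := h2 D (p k) (a k) (16 ^ k) t (hp k) measureReal_le_one (hap k)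
        (by positivity) ht0 (ha k).2
        (by rw [htS]; exact single_le_sum (fun j _ => (ha j).1) hk)
      exact ⟨e, H, fun _ => h⟩
    · exact ⟨0, 0, fun h => absurd h hk⟩
  choose e H hE using hnum
  have hJ : ∀ k, ∃ J, k < J ∧ p J ≤ p k / 2 := fun k => tail_small μ (half_pos (hp k)) k
  have hee : ∀ k ∈ Gd, ∀ k' ∈ Gd, k < k' → e k + 2 ≤ e k' := by
    intro k hk k' hk' hkk
    have g := hgood k hk k' hk' hkk
    obtain ⟨n, rfl⟩ := Nat.exists_eq_add_of_lt hkk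
    have e0 : k + n + 1 - k = n + 1 := by omega
    rw [e0] at g
    have a1 := (hE k hk).2.1
    have a2 := (hE _ hk').1
    have a3 : 8 * ((16 : ℝ) ^ k * (4 * t ^ D) / a k) ≤
        (16 : ℝ) ^ (k + n + 1) * (4 * t ^ D) / a (k + n + 1) := by
      rw [← mul_div_assoc, div_le_div_iff₀ (hap _) (hap _)]
      have b1 : (8 : ℝ) * 2 ^ (n + 1) ≤ 16 ^ (n + 1) := by
        have : (16 : ℝ) ^ (n + 1) = 8 ^ (n + 1) * 2 ^ (n + 1) := by rw [← mul_pow]; norm_num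
        rw [this]
        apply mul_le_mul_of_nonneg_right _ (by positivity)
        exact le_self_pow₀ (by norm_num) (by omega)
      have b0 : 0 ≤ (16 : ℝ) ^ k * (4 * t ^ D) := by positivity
      have b2 := mul_le_mul_of_nonneg_left g (mul_nonneg (by norm_num : (0 : ℝ) ≤ 8) b0)
      have b3 := mul_le_mul_of_nonneg_right b1 (mul_nonneg b0 (hap k).le)
      have b4 : (16 : ℝ) ^ (k + n + 1) = 16 ^ k * 16 ^ (n + 1) := by rw [add_assoc, pow_add]
      rw [b4]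
      nlinarith
    have a4 : (2 : ℝ) ^ (e k + 2) < 2 ^ e (k + n + 1) := by
      rw [pow_add]; linarith
    exact ((pow_lt_pow_iff_right₀ (by norm_num)).1 a4).le
  refine ⟨Gd, fun k => 16 ^ Nat.find (hJ k), fun k => p k / 2, fun k => 2 ^ e k, H,
    ∏ k ∈ Gd, 16 * 2 ^ e k, ?_, ?_, ?_, ?_, ?_⟩
  · exact Nat.pos_of_ne_zero (prod_ne_zero_iff.2 fun k _ => by positivity)
  · intro k hk
    refine ⟨hk0 k hk, Nat.one_le_two_pow, dvd_prod_of_mem (fun k => 16 * 2 ^ e k) hk, ?_, ?_⟩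
    · have c1 := (Nat.find_spec (hJ k)).2
      have c2 := ico_ge μ (16 ^ k) (16 ^ Nat.find (hJ k))
      simp only [hpdef] at c1 ⊢
      linarith
    · have := (hE k hk).2.2.1
      push_cast
      exact this
  · intro k hk k' hk' hkk
    have c := hee k hk k' hk' hkk
    refine ⟨pow_le_pow_right₀ (by norm_num)
      (Nat.find_min' (hJ k) ⟨hkk, halves ha hkk (hgood k hk k' hk' hkk)⟩),
      pow_dvd_pow 2 (by omega), ?_⟩
    calc 4 * 2 ^ e k = 2 ^ (e k + 2) := by ring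
      _ ≤ _ := Nat.pow_le_pow_right (by norm_num) c
  · have hinj : Set.InjOn e Gd := by
      intro k hk k' hk' h
      rcases lt_trichotomy k k' with c | c | c
      · have := hee k hk k' hk' c; omega
      · exact c
      · have := hee k' hk' k hk c; omega
    have g := geo_inj Gd e hinj
    have c : ∀ k ∈ Gd, ((H k : ℝ) + 1) ^ 2 / (4 * ((2 ^ e k : ℕ) : ℝ)) ^ 2 ≤
        2 / S * a k + 1 / 2 * (1 / 2 : ℝ) ^ e k := by
      intro k hk
      have c1 := (hE k hk).2.2.2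
      rw [htS] at c1
      push_cast
      have c2 : (1 : ℝ) ≤ 2 ^ e k := one_le_pow₀ (by norm_num)
      rw [div_le_iff₀ (by positivity)]
      have c3 : (1 / 2 : ℝ) ^ e k * 2 ^ e k = 1 := by rw [← mul_pow]; norm_num
      have c4 : (2 / S * a k + 1 / 2 * (1 / 2 : ℝ) ^ e k) * (4 * 2 ^ e k) ^ 2 =
          2 * (4 * 2 ^ e k) ^ 2 * (a k / S) + 8 * 2 ^ e k * ((1 / 2 : ℝ) ^ e k * 2 ^ e k) := by
        ring
      rw [c4, c3]
      linarith
    refine (sum_le_sum c).trans ?_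
    rw [sum_add_distrib, ← mul_sum, ← mul_sum, ← hS, div_mul_cancel₀ _ (by linarith)]
    linarith
  · have c : ∀ k ∈ Gd, 1 / (8 * t ^ D) * a k ≤ (16 : ℝ) ^ k / (4 * ((2 ^ e k : ℕ) : ℝ)) := by
      intro k hk
      have c1 := (hE k hk).2.1
      push_cast
      rw [← mul_div_assoc, lt_div_iff₀ (hap k)] at c1
      rw [one_div_mul_eq_div, div_le_div_iff₀ (by positivity) (by positivity)]
      nlinarith
    refine le_trans ?_ (sum_le_sum c)
    rw [← mul_sum, ← hS, ← htS]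
    have c2 : 1 / (8 * t ^ D) * t ^ (2 * (D + 1)) = t ^ (D + 2) / 8 := by
      field_simp
      ring
    have c3 : t ≤ t ^ (D + 2) := le_self_pow₀ ht1 (by omega)
    have c4 : 8 * b ≤ t := (le_max_right _ _).trans htm
    rw [c2]
    linarith

end Pool.Agent.MP_1479fb_pr.SG
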