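import Pool.Agent.MP_1479fb_pr.SG.Spec

/-! PROJECT SG: the lower bound from the module statements. -/

set_option autoImplicit false

open MeasureTheory ProbabilityTheory Filter Topology Finset
open scoped ENNReal

namespace Pool.Agent.MP_1479fb_pr.SG

open Classical

namespace LowX

variable {d : ℕ}

/-- The maximum is monotone in the weights. -/
lemma Mx_mono (hd : 1 ≤ d) (n : ℕ) {Y Z : (Fin d → ℤ) → ℝ} (h : ∀ v, Y v ≤ Z v) :
    Mx n Y ≤ Mx n Z := by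
  obtain ⟨l, h1, h2, rfl, h4⟩ := exists_Mx hd n Y
  rw [← h4]
  exact (List.sum_le_sum (fun v _ => h v)).trans (le_Mx Z h1 h2)

/-- A linear bound for all lengths. -/
lemma Mx_lin (hd : 1 ≤ d) {Y : (Fin d → ℤ) → ℝ} {K c β : ℝ} (hK : 0 ≤ K) (hβ : 0 ≤ β)
    (hY : ∀ v, Y v ≤ K) (hc : c < β)
    (ht : Tendsto (fun n : ℕ => Mx n Y / n) atTop (𝓝 c)) :
    ∃ T : ℝ, ∀ n : ℕ, Mx n Y ≤ β * n + T := by
  obtain ⟨n₁, hn₁⟩ := eventually_atTop.1 (ht.eventually (gt_mem_nhds hc))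
  refine ⟨K * (n₁ + 1), fun n => ?_⟩
  have hp : 0 ≤ β * n := by positivity
  have hq : 0 ≤ K * (n₁ + 1) := by positivity
  rcases le_or_gt (n₁ + 1) n with h | h
  · have hn : (0 : ℝ) < n := by exact_mod_cast (by omega : 0 < n)
    have := (div_lt_iff₀ hn).1 (hn₁ n (by omega))
    linarith
  · obtain ⟨l, -, -, h3, h4⟩ := exists_Mx hd n Y
    have h5 := sum_map_le hY l
    rw [h4, h3] at h5
    have h6 : (n : ℝ) ≤ n₁ + 1 := by exact_mod_cast h.le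
    have := mul_le_mul_of_nonneg_left h6 hK
    linarith

/-- The deterministic contradiction. -/
lemma det (h5 : RouteS) {C : ℕ} (hS : Surg d C) (x : (Fin d → ℤ) → ℝ) {K L L₂ β T : ℝ}
    (hK : 0 ≤ K) (hL : 0 ≤ L) (hL₂ : L ≤ L₂) (hβ : 0 ≤ β) {A N₀ : ℕ} (hA : 1 ≤ A) (hN : 1 ≤ N₀)
    (rk : (Fin d → ℤ) → ℕ) (Ex : Finset (Fin d → ℤ))
    (r1 : ∀ v, x v < -L → Rk C (fun y => x y < -L) (rk v) v)
    (r2 : ∀ v, Exc C (fun y => x y < -L) 0 v → v ∈ Ex)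
    (r3 : ∀ᶠ n : ℕ in atTop,
      ∀ l : List (Fin d → ℤ), (0 :: l).Nodup → (0 :: l).IsChain Adj → l.length ≤ n →
        ∑ v ∈ l.toFinset.filter (fun y => x y < -L₂),
          ((2 * Dk C (rk v + 1) + 1) ^ d : ℝ) ≤ n)
    (hT : ∀ n : ℕ, Mx n (fun v => min (x v) K) ≤ β * n + T)
    (hf : ∃ᶠ j : ℕ in atTop, ENNReal.ofReal (2 * (2 * A * (L₂ + β) + 1) * N₀ * j / 2) <
      Gv C L K (A * (j * N₀)) 0 x) : False := by
  have hR : Tendsto (fun j : ℕ => A * (j * N₀)) atTop atTop :=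
    tendsto_atTop_mono (fun j => by
      calc id j = 1 * (j * 1) := by simp
        _ ≤ A * (j * N₀) := Nat.mul_le_mul hA (Nat.mul_le_mul_left j hN)) tendsto_id
  have hE : ∀ᶠ j : ℕ in atTop, (∑ v ∈ Ex, |min (x v) K|) + T ≤ (j : ℝ) :=
    tendsto_natCast_atTop_atTop.eventually_ge_atTop _
  obtain ⟨j, hj, hj1, hj2⟩ := (hf.and_eventually ((hR.eventually r3).and hE)).exists
  unfold Gv at hj
  obtain ⟨⟨l, l1, l2, l3⟩, hl⟩ := lt_iSup_iff.1 hj
  have hL2 : 0 ≤ L₂ := hL.trans hL₂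
  rw [ENNReal.ofReal_lt_ofReal_iff_of_nonneg (by positivity)] at hl
  have e : (∑ v ∈ l.toFinset,
      if Safe C L x v then max ((0 : (Fin d → ℤ) → ℝ) v) (max (min (x v) K) 0) else 0) =
      ∑ v ∈ l.toFinset, if Safe C L x v then max (min (x v) K) 0 else 0 :=
    Finset.sum_congr rfl (fun v _ => by
      rw [Pi.zero_apply, max_eq_right (le_max_right (min (x v) K) 0)])
  simp only at hl
  rw [e] at hl
  obtain ⟨l', m1, m2, m3, m4⟩ := h5 d C hS x K L L₂ hK hL hL₂ rk Ex r1 r2 l l1 l2 _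
    (hj1 l l1 l2 l3)
  have m5 := (le_Mx (fun v => min (x v) K) m1 m2).trans (hT _)
  have m6 : (l.length : ℝ) ≤ ((A * (j * N₀) : ℕ) : ℝ) := by exact_mod_cast l3
  push_cast at m3 m6
  have m7 : (l'.length : ℝ) ≤ 2 * (A * (j * N₀)) := by linarith
  have m8 := mul_le_mul_of_nonneg_left m7 (add_nonneg hL2 hβ)
  have m9 : (j : ℝ) * 1 ≤ j * N₀ :=
    mul_le_mul_of_nonneg_left (by exact_mod_cast hN) (Nat.cast_nonneg j)
  nlinarith

end LowX

open LowX in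
theorem lowS (h1 : GvS) (h2 : ExpS) (h3 : OftenS) (h4 : NegS) (h5 : RouteS) (h6 : TruncS) :
    LowS := by
  intro d hd μ _ a ha hna
  obtain ⟨D, rfl⟩ : ∃ D, d = D + 2 := ⟨d - 2, by omega⟩
  have : IsProbabilityMeasure (Pm (D + 2) μ) := by unfold Pm; infer_instance
  obtain ⟨C, hC, hS⟩ := surgery D
  have hS' : Surg (D + 2) C := hS
  obtain ⟨η, hη, hneg⟩ := h4 (D + 2) C (by omega) hC
  obtain ⟨L, hL, hμ, hexp⟩ := h2 (D + 1) C μ a ha hna η hη
  obtain ⟨L₂, hL₂, hae⟩ := hneg μ L hμ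
  have hL2 : 0 ≤ L₂ := hL.trans hL₂
  have key : ∀ B : ℕ, ∀ᵐ x ∂Pm (D + 2) μ, ∀ᶠ n : ℕ in atTop, (B : ℝ) ≤ Mx n x / n := by
    intro B
    obtain ⟨K, N₀, hK, hN, hj⟩ :=
      hexp (2 * (2 * ((51 * (D + 1 + 1) : ℕ) : ℝ) * (L₂ + (B + 1)) + 1))
    obtain ⟨c, hc⟩ := h6 (D + 2) hd μ K
    have hN' : (0 : ℝ) < N₀ := by exact_mod_cast hN
    have hcB : (B : ℝ) + 1 ≤ c := by
      by_contra hlt
      have hpos := h3 _ (Pm (D + 2) μ) (fun j => Gv C L K (51 * (D + 1 + 1) * (j * N₀)) 0)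
        (2 * (2 * ((51 * (D + 1 + 1) : ℕ) : ℝ) * (L₂ + (B + 1)) + 1) * N₀)
        (K * ((51 * (D + 1 + 1) : ℕ) : ℝ) * N₀) (by positivity)
        (fun j => (h1 (D + 2) C L K _).2.1 0)
        (fun j x => ((h1 (D + 2) C L K _).2.2.1 x hK.le).trans (le_of_eq (by
          congr 1; push_cast; ring)))
        (fun j => (le_of_eq (by congr 1; push_cast; ring)).trans (hj j))
      obtain ⟨x, hx, ⟨rk, Ex, r1, r2, r3⟩, ht⟩ :=
        Measure.exists_mem_of_measure_ne_zero_of_ae hpos (ae_restrict_of_ae (hae.and hc))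
      obtain ⟨T, hT⟩ := Mx_lin (by omega) hK.le (by positivity : (0 : ℝ) ≤ B + 1)
        (fun v => min_le_right (x v) K) (not_le.1 hlt) ht
      exact det h5 hS' x (A := 51 * (D + 1 + 1)) (β := B + 1) hK.le hL hL₂ (by positivity)
        (by omega) hN rk Ex r1 r2 r3 hT hx
    filter_upwards [hc] with x hx
    filter_upwards [hx.eventually (lt_mem_nhds (show (B : ℝ) < c by linarith))] with n hn
    exact hn.le.trans (div_le_div_of_nonneg_right
      (Mx_mono (by omega) n (fun v => min_le_left (x v) K)) (Nat.cast_nonneg n))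
  filter_upwards [ae_all_iff.2 key] with x hx
  refine tendsto_atTop.2 (fun b => ?_)
  obtain ⟨B, hB⟩ := exists_nat_ge b
  filter_upwards [hx B] with n hn
  exact hB.trans hn

end Pool.Agent.MP_1479fb_pr.SG
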