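import Pool.Agent.MP_1479fb_pr.SG.Spec

/-! A logarithmic moment of order above `(d - 1) / 2` gives the summability. -/

set_option autoImplicit false

open MeasureTheory

namespace Pool.Agent.MP_1479fb_pr.SG

theorem summable_of_moment {d : ℕ} (hd : 2 ≤ d) (μ : Measure ℝ) [IsProbabilityMeasure μ] {α : ℝ}
    (hα : 0 < α) (hm : ∫⁻ t, ENNReal.ofReal ((max t 0) ^ d *
      (max (Real.log (max t 0)) 0) ^ (((d : ℝ) - 1) / 2 + α)) ∂μ < ⊤) {a : ℕ → ℝ}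
    (ha : IsA d μ a) : Summable a := by
  obtain ⟨D, rfl⟩ : ∃ D, d = D + 2 := ⟨d - 2, by omega⟩
  obtain ⟨β, hβ⟩ : ∃ β : ℝ, β = (((D + 2 : ℕ) : ℝ) - 1) / 2 + α := ⟨_, rfl⟩
  rw [← hβ] at hm
  have D0 : (0 : ℝ) ≤ D := Nat.cast_nonneg D
  have β1 : (D + 1 : ℝ) < 2 * β := by rw [hβ]; push_cast; linarith
  have hs := (summable_moment (by omega) μ (by linarith) hm).comp_injective
    (i := fun k : ℕ => 4 * k + 3) (fun i j h => by simpa using h)
  have γ1 : 1 < 2 * β / (D + 1) := by rw [lt_div_iff₀ (by positivity)]; linarith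
  have hu : Summable (fun k : ℕ => (((4 * k + 3 : ℕ) + 1 : ℝ) ^ (2 * β / (D + 1)))⁻¹) := by
    have := ((summable_nat_add_iff 1).2 (Real.summable_nat_rpow_inv.2 γ1)).comp_injective
      (i := fun k : ℕ => 4 * k + 3) (fun i j h => by simpa using h)
    refine this.congr fun k => ?_
    simp
  refine (summable_nat_add_iff 1).1 (Summable.of_nonneg_of_le (fun k => (ha _).1) (fun k => ?_)
    (hs.add hu))
  have e : (2 : ℝ) ^ (4 * k + 3 + 1) = 16 ^ (k + 1) := by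
    rw [show 4 * k + 3 + 1 = 4 * (k + 1) by ring, pow_mul]
    norm_num
  simp only [Function.comp, e]
  obtain ⟨n, hn⟩ : ∃ n : ℝ, n = ((4 * k + 3 : ℕ) + 1 : ℝ) := ⟨_, rfl⟩
  rw [← hn]
  have n0 : 0 < n := by rw [hn]; positivity
  have a1 := (ha (k + 1)).2
  obtain ⟨p, hp⟩ : ∃ p : ℝ, p = μ.real (Set.Ici ((16 : ℝ) ^ (k + 1))) := ⟨_, rfl⟩
  have p0 : 0 ≤ p := hp ▸ measureReal_nonneg
  rw [← hp] at a1 ⊢
  obtain ⟨T, hT⟩ : ∃ T : ℝ, T = ((16 : ℝ) ^ (k + 1)) ^ (D + 2) := ⟨_, rfl⟩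
  have T0 : 0 ≤ T := by rw [hT]; positivity
  rw [← hT] at a1 ⊢
  have u1 : ((n ^ (2 * β / (D + 1)))⁻¹) ^ (D + 1) = ((n ^ β) ^ 2)⁻¹ := by
    rw [inv_pow, ← Real.rpow_natCast, ← Real.rpow_natCast, ← Real.rpow_mul n0.le,
      ← Real.rpow_mul n0.le]
    congr 2
    push_cast
    field_simp
  have b0 : 0 < n ^ β := by positivity
  have u0 : 0 < (n ^ (2 * β / (D + 1)))⁻¹ := by positivity
  generalize (n ^ (2 * β / (D + 1)))⁻¹ = u at u1 u0 ⊢
  have c0 : 0 ≤ T * n ^ β * p := by positivity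
  refine le_of_pow_le_pow_left₀ (n := D + 2 + 1) (by omega) (by positivity) ?_
  calc _ = (T * n ^ β * p) ^ 2 * u ^ (D + 1) := by rw [a1, u1]; field_simp
    _ ≤ (T * n ^ β * p + u) ^ 2 * (T * n ^ β * p + u) ^ (D + 1) := by
        gcongr
        · linarith
        · linarith
    _ = _ := by ring

end Pool.Agent.MP_1479fb_pr.SG
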