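import Pool.Agent.MP_1479fb_pr.SG.Spec

/-! PROJECT SG, row NEG: the islands met by a path and the rerouting around them. -/

set_option autoImplicit false

open MeasureTheory ProbabilityTheory Filter Topology

namespace Pool.Agent.MP_1479fb_pr.SG

theorem negS : NegS := by
  intro d C hd hC
  classical
  obtain ⟨G, hG⟩ : ∃ G : ℝ, G = (2 * C + 1) ^ d := ⟨_, rfl⟩
  have G1 : 1 ≤ G := hG ▸ one_le_pow₀ (by linarith [Nat.cast_nonneg (α := ℝ) C])
  have hw : ∀ k, ((2 * Dk C k + 1 : ℝ)) ^ d = G ^ k := fun k => by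
    rw [hG, ← card_cube_Dk C k (0 : Fin d → ℤ), card_cube]
    norm_cast
  obtain ⟨H, hH⟩ : ∃ H : ℝ, H = (4 * G ^ 2) ^ d := ⟨_, rfl⟩
  have H1 : 1 ≤ H := hH ▸ one_le_pow₀ (by nlinarith)
  have η1 : 1 / (2 * H) ≤ 1 / 2 := one_div_le_one_div_of_le two_pos (by linarith)
  refine ⟨1 / (2 * H) / G ^ 2, by positivity, fun μ _ L hμ => ?_⟩
  have hL : ∀ v : Fin d → ℤ, Measure.infinitePi (fun _ : Fin d → ℤ => μ) {x | x v < -L} ≤
      ENNReal.ofReal (1 / (2 * H) / G ^ 2) := fun v => by
    rw [← (measurePreserving_eval_infinitePi (fun _ : Fin d → ℤ => μ) v).measure_preimage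
      measurableSet_Iio.nullMeasurableSet] at hμ
    exact hμ
  have hq := isl_le μ C L (η := 1 / (2 * H)) (by positivity) (by linarith) (hG ▸ hL)
  rw [← hG] at hq
  obtain ⟨ε, hε1⟩ : ∃ ε : ℝ, ε = 1 := ⟨1, rfl⟩
  have hε : 0 < ε := hε1 ▸ one_pos
  obtain ⟨k₀, h₁⟩ := greedy (P := Measure.infinitePi (fun _ : Fin d → ℤ => μ)) hd
    (fun k v x => Isl C (fun y => x y < -L) k v) (fun k => 2 * Dk C k)
    (fun k => (1 / (2 * H)) ^ (k + 1) / G ^ (k + 2)) (fun k => G ^ (k + 1)) (fun k => (1 / 2) ^ k)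
    (fun k => by positivity) (fun _ => by positivity) (fun k => by positivity)
    (fun k => rare_isl μ C L k (by positivity) (hq k)) summable_geometric_two
    (Summable.of_nonneg_of_le (fun k => by positivity) (fun k => by
      have a1 : ((2 * (2 * Dk C k : ℕ) + 1 : ℝ)) ^ d ≤ G ^ (k + 1) := by
        rw [← hw]
        have : 2 * Dk C k ≤ Dk C (k + 1) := by
          simp only [Dk]
          nlinarith
        gcongr
      have a2 : 1 + 2 * (G ^ (k + 1) * (2 * (2 * Dk C k : ℕ) + 1) ^ d / (1 / 2) ^ k) ≤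
          (4 * G ^ 2) ^ (k + 1) := by
        have b1 : (1 : ℝ) ≤ (2 * G ^ 2) ^ (k + 1) := one_le_pow₀ (by nlinarith)
        have b2 : (2 : ℝ) ≤ 2 ^ (k + 1) := le_self_pow₀ one_le_two (by omega)
        calc _ ≤ 1 + 2 * (G ^ (k + 1) * G ^ (k + 1) / (1 / 2) ^ k) := by gcongr
          _ = 1 + (2 * G ^ 2) ^ (k + 1) := by
              rw [mul_pow, one_div, inv_pow, div_inv_eq_mul]; ring
          _ ≤ 2 ^ (k + 1) * (2 * G ^ 2) ^ (k + 1) := by nlinarith
          _ = _ := by rw [← mul_pow]; ring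
      calc _ ≤ Real.exp 1 * ((4 * G ^ 2) ^ (k + 1)) ^ d * ((1 / (2 * H)) ^ (k + 1) / 1) := by
            gcongr
            exact one_le_pow₀ G1
        _ = Real.exp 1 / 2 * (1 / 2) ^ k := by
            rw [← pow_mul, mul_comm (k + 1) d, pow_mul, ← hH, div_one, mul_assoc, ← mul_pow,
              show H * (1 / (2 * H)) = 1 / 2 by field_simp]
            ring)
      (summable_geometric_two.mul_left _)) (half_pos hε)
  obtain ⟨L₁, h₂⟩ := few_bad μ hd (show 0 < ε / 2 / G ^ k₀ by positivity)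
  refine ⟨max L L₁, le_max_left _ _, ?_⟩
  unfold Pm
  have h₃ : ∑' k, Measure.infinitePi (fun _ : Fin d → ℤ => μ)
      (⋃ v ∈ cube (0 : Fin d → ℤ) (Dk C (k + 1)), {x | Isl C (fun y => x y < -L) k v}) ≠ ⊤ := by
    refine ne_top_of_le_ne_top summable_geometric_two.tsum_ofReal_ne_top
      (ENNReal.tsum_le_tsum fun k => (measure_biUnion_finset_le _ _).trans
        ((Finset.sum_le_card_nsmul _ _ _ (fun v _ => hq k v)).trans ?_))
    rw [nsmul_eq_mul, ← ENNReal.ofReal_natCast, ← ENNReal.ofReal_mul (by positivity),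
      card_cube_Dk, ← hG]
    refine ENNReal.ofReal_le_ofReal ?_
    calc _ ≤ G ^ (k + 2) * ((1 / 2) ^ k / G ^ (k + 2)) := by
          gcongr
          · omega
          · exact (pow_le_pow_left₀ (by positivity) η1 _).trans
              (pow_le_pow_of_le_one (by norm_num) (by norm_num) (by omega))
      _ = _ := by field_simp
  filter_upwards [h₁, h₂, ae_eventually_notMem h₃] with x g1 g2 g3
  obtain ⟨k₁, g3⟩ := eventually_atTop.1 g3
  simp only [Set.mem_iUnion, not_exists, mem_cube] at g3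
  have fin : ∀ v, ∃ j, x v < -L → Rk C (fun y => x y < -L) j v := by
    intro v
    by_cases hv : x v < -L
    · have a1 : ∀ k, k ≤ Dk C k := fun k => by
        induction k with
        | zero => simp
        | succ k ih => simp only [Dk]; omega
      obtain ⟨j, -, a2⟩ := exists_rk (C := C) (b := fun y => x y < -L) hv
        (g3 (k₁ + len1 0 v) (by omega) v
          (inQ_of_len1 (le_trans (by omega) (a1 (k₁ + len1 0 v + 1)))))
      exact ⟨j, fun _ => a2⟩
    · exact ⟨0, fun t => absurd t hv⟩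
  choose rk hrk using fin
  refine ⟨rk, cube 0 (Dk C k₁), hrk, ?_, ?_⟩
  · rintro v ⟨k, a1, a2⟩
    have a3 : InQ 0 (Dk C (k + 1)) v := a2.symm.mono (by simp [Dk])
    have : k < k₁ := by
      by_contra t
      exact g3 k (not_lt.1 t) v a3 a1.1
    exact mem_cube.2 (a3.mono (Dk_mono C this))
  filter_upwards [g1, g2] with n f1 f2 l a1 a2 a3
  set T := l.toFinset.filter (fun y => x y < -max L L₁) with hT
  have hT1 : ∀ v ∈ T, v ∈ l ∧ x v < -L ∧ x v < -L₁ := fun v hv => by
    obtain ⟨b1, b2⟩ := Finset.mem_filter.1 hv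
    exact ⟨List.mem_toFinset.1 b1, by linarith [le_max_left L L₁], by linarith [le_max_right L L₁]⟩
  simp only [hw]
  rw [← Finset.sum_filter_add_sum_filter_not T (fun v => k₀ ≤ rk v)]
  have c1 := f1 l a1 a2 a3 (T.filter (fun v => k₀ ≤ rk v)) rk (fun v hv => by
    obtain ⟨b1, b2⟩ := Finset.mem_filter.1 hv
    exact ⟨(hT1 v b1).1, b2, (hrk v (hT1 v b1).2.1).1⟩)
  have c2 := f2 l a1 a2 a3 (T.filter (fun v => ¬ k₀ ≤ rk v)) (fun v hv => by
    obtain ⟨b1, -⟩ := Finset.mem_filter.1 hv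
    exact ⟨(hT1 v b1).1, (hT1 v b1).2.2⟩)
  have c3 := Finset.sum_le_card_nsmul (T.filter (fun v => ¬ k₀ ≤ rk v))
    (fun v => G ^ (rk v + 1)) (G ^ k₀) (fun v hv =>
      pow_le_pow_right₀ G1 (by have := (Finset.mem_filter.1 hv).2; omega))
  rw [nsmul_eq_mul] at c3
  have c4 := mul_le_mul_of_nonneg_right c2 (show 0 ≤ G ^ k₀ by positivity)
  have : ε / 2 / G ^ k₀ * n * G ^ k₀ = ε / 2 * n := by field_simp
  rw [this] at c4
  rw [hε1] at c1 c4
  linarith

theorem routeS : RouteS := by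
  intro d C hS X K L L₂ hK hL hL₂ rk Ex hrk hEx l h1 h2 u hu
  classical
  let b : (Fin d → ℤ) → Prop := fun y => X y < -L
  let T := l.toFinset.filter (fun y => X y < -L₂ ∧ ¬ Exc C b 0 y)
  have hTb : ∀ x ∈ T, X x < -L := fun x hx => by
    have := (Finset.mem_filter.1 hx).2.1
    linarith
  obtain ⟨l', c1, c2, c3, c4, c5⟩ := cascade (b := b) hS 0 (T.sup rk + 1) T l h1 h2
    (fun x hx => ⟨(Finset.mem_filter.1 hx).2.2, rk x,
      Nat.lt_succ_of_le (Finset.le_sup hx), hrk x (hTb x hx)⟩)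
  let U := T.biUnion (fun x => cube x (Dk C (rk x + 1)))
  have hU : ∀ y, Aff C b T y → y ∈ U := by
    rintro y ⟨x, hx, j, a, c⟩
    rw [a.unique (hrk x (hTb x hx))] at c
    exact Finset.mem_biUnion.2 ⟨x, hx, mem_cube.2 c⟩
  have hUu : (U.card : ℝ) ≤ u := by
    refine le_trans ?_ hu
    refine le_trans (Nat.cast_le.2 Finset.card_biUnion_le) ?_
    push_cast
    simp only [card_cube]
    push_cast
    refine Finset.sum_le_sum_of_subset_of_nonneg (fun x hx => ?_) (fun _ _ _ => by positivity)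
    have := Finset.mem_filter.1 hx
    exact Finset.mem_filter.2 ⟨this.1, this.2.1⟩
  have n1 : l.Nodup := (List.nodup_cons.1 h1).2
  have n2 : l'.Nodup := (List.nodup_cons.1 c1).2
  have len2 : (l'.length : ℝ) ≤ l.length + u := by
    have : l'.toFinset ⊆ l.toFinset ∪ U := fun y hy => Finset.mem_union.2
      ((c5 y (List.mem_toFinset.1 hy)).imp List.mem_toFinset.2 (fun g => hU y g.1))
    have := (Finset.card_le_card this).trans (Finset.card_union_le _ _)
    rw [List.toFinset_card_of_nodup n1, List.toFinset_card_of_nodup n2] at this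
    have : (l'.length : ℝ) ≤ l.length + U.card := by exact_mod_cast this
    linarith
  refine ⟨l', c1, c2, len2, ?_⟩
  have hS1 : ∀ y, Safe C L X y → ¬ Aff C b T y := by
    rintro y hy ⟨x, -, j, a, c⟩
    exact hy ⟨j, x, a.1, c⟩
  have hS2 : ∀ y, Safe C L X y → -L ≤ X y := fun y hy =>
    not_lt.1 fun t => hy ⟨0, y, t, InQ.refl _ _⟩
  rw [← List.sum_toFinset _ n2]
  let G := l.toFinset ∪ l'.toFinset ∪ Ex
  have e : ∀ (s : Finset (Fin d → ℤ)) (g : (Fin d → ℤ) → ℝ), s ⊆ G →
      ∑ y ∈ s, g y = ∑ y ∈ G, if y ∈ s then g y else 0 := by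
    intro s g hs
    rw [Finset.sum_ite_mem, Finset.inter_eq_right.2 hs]
  have e3 : L₂ * l'.length = ∑ _y ∈ l'.toFinset, L₂ := by
    rw [Finset.sum_const, nsmul_eq_mul, mul_comm, List.toFinset_card_of_nodup n2]
  rw [e3, e l.toFinset _ (fun y hy => by simp [G, List.mem_toFinset.1 hy]),
    e l'.toFinset (fun _ => L₂) (fun y hy => by simp [G, List.mem_toFinset.1 hy]),
    e l'.toFinset (fun v => min (X v) K) (fun y hy => by simp [G, List.mem_toFinset.1 hy]),
    e Ex _ (fun y hy => by simp [G, hy]), ← Finset.sum_sub_distrib, ← Finset.sum_sub_distrib]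
  refine Finset.sum_le_sum (fun y _ => ?_)
  have z1 := neg_abs_le (min (X y) K)
  have z2 := abs_nonneg (min (X y) K)
  have z3 : (0 : ℝ) ≤ if y ∈ Ex then |min (X y) K| else 0 := by split_ifs <;> linarith
  simp only [List.mem_toFinset]
  by_cases a2 : y ∈ l'
  · have low : -L₂ - (if y ∈ Ex then |min (X y) K| else 0) ≤ min (X y) K := by
      by_cases a3 : y ∈ Ex
      · rw [if_pos a3]
        linarith
      · rw [if_neg a3, sub_zero]
        refine le_min ?_ (by linarith)
        by_cases a1 : y ∈ l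
        · by_contra t
          exact c3 y a2 (Finset.mem_filter.2 ⟨List.mem_toFinset.2 a1, not_le.1 t,
            fun g => a3 (hEx y g)⟩)
        · rcases ((c5 y a2).resolve_left a1).2 with g | g
          · have : -L ≤ X y := not_lt.1 g
            linarith
          · exact absurd (hEx y g) a3
    rw [if_pos a2, if_pos a2]
    by_cases a1 : y ∈ l
    · rw [if_pos a1]
      by_cases a4 : Safe C L X y
      · rw [if_pos a4]
        rcases le_total (min (X y) K) 0 with t | t
        · rw [max_eq_right t]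
          linarith
        · rw [max_eq_left t]
          linarith
      · rw [if_neg a4]
        linarith
    · rw [if_neg a1]
      linarith
  · rw [if_neg a2, if_neg a2]
    by_cases a1 : y ∈ l
    · rw [if_pos a1, if_neg fun t => hS1 y t ((c4 y a1).resolve_left a2)]
      linarith
    · rw [if_neg a1]
      linarith

end Pool.Agent.MP_1479fb_pr.SG
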