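import Mathlib.Analysis.SpecificLimits.Basic
import Mathlib.Analysis.SpecialFunctions.Pow.Real
import Mathlib.Topology.Algebra.InfiniteSum.Real
import Pool.Agent.MP_1479fb_pr.SG.Spec

/-! PROJECT SG, row NUM: good levels and the numbers of one level. -/

set_option autoImplicit false

open Finset

namespace Pool.Agent.MP_1479fb_pr.SG

namespace NumX

theorem big (a : ℕ → ℝ) (h0 : ∀ k, 0 ≤ a k) (hs : ¬ Summable a) (k₀ : ℕ) (b : ℝ) :
    ∃ N : ℕ, b ≤ ∑ k ∈ Icc k₀ N, a k := by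
  by_contra hc
  push Not at hc
  apply hs
  rw [← summable_nat_add_iff k₀]
  refine summable_of_sum_range_le (c := b) (fun n => h0 _) (fun n => ?_)
  refine le_trans ?_ (hc (k₀ + n)).le
  have h1 : ∑ i ∈ range n, a (i + k₀) = ∑ k ∈ Ico k₀ (k₀ + n), a k := by
    rw [Finset.sum_Ico_eq_sum_range]
    simp only [Nat.add_sub_cancel_left]
    exact Finset.sum_congr rfl fun i _ => by rw [add_comm]
  rw [h1]
  exact Finset.sum_le_sum_of_subset_of_nonneg Finset.Ico_subset_Icc_self fun i _ _ => h0 i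

theorem geo (s : Finset ℕ) (g : ℕ) :
    ∑ k ∈ s, (if k ≤ g then ((1 : ℝ) / 2) ^ (g - k) else 0) ≤ 2 := by
  rw [← Finset.sum_filter]
  have h1 : ∑ k ∈ s.filter (fun k => k ≤ g), ((1 : ℝ) / 2) ^ (g - k) ≤
      ∑ k ∈ range (g + 1), ((1 : ℝ) / 2) ^ (g - k) := by
    refine Finset.sum_le_sum_of_subset_of_nonneg ?_ fun i _ _ => by positivity
    intro k hk
    rw [Finset.mem_filter] at hk
    exact Finset.mem_range.2 (by omega)
  refine h1.trans ?_
  have h2 := Finset.sum_range_reflect (fun j => ((1 : ℝ) / 2) ^ j) (g + 1)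
  simp only [Nat.add_sub_cancel] at h2
  rw [h2]
  exact sum_geometric_two_le _

theorem step {x y : ℝ} {k g : ℕ} (hkg : k ≤ g) (h : x / 2 ^ g ≤ y / 2 ^ k) :
    x ≤ 2 ^ (g - k) * y := by
  obtain ⟨j, rfl⟩ := Nat.exists_eq_add_of_le hkg
  rw [Nat.add_sub_cancel_left]
  rw [div_le_div_iff₀ (by positivity) (by positivity), pow_add] at h
  have hp : (0 : ℝ) < 2 ^ k := by positivity
  have : x * 2 ^ k ≤ (2 ^ j * y) * 2 ^ k := by nlinarith
  exact le_of_mul_le_mul_right this hp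

theorem step' {x y : ℝ} {k g : ℕ} (hkg : k ≤ g) (h : x / 2 ^ k ≤ y / 2 ^ g) :
    x ≤ y * ((1 : ℝ) / 2) ^ (g - k) := by
  obtain ⟨j, rfl⟩ := Nat.exists_eq_add_of_le hkg
  rw [Nat.add_sub_cancel_left]
  rw [div_le_div_iff₀ (by positivity) (by positivity), pow_add] at h
  have hp : (0 : ℝ) < 2 ^ k := by positivity
  have hj : (0 : ℝ) < 2 ^ j := by positivity
  have h1 : (x * 2 ^ j) * 2 ^ k ≤ y * 2 ^ k := by nlinarith
  have h2 := le_of_mul_le_mul_right h1 hp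
  rw [one_div, inv_pow, ← div_eq_mul_inv, le_div_iff₀ hj]
  exact h2

theorem lam_pow (D : ℕ) (p a τ t : ℝ) (ha : 0 < a) (ht : 0 < t)
    (h : a ^ (D + 2) = (τ ^ (D + 1) * p) ^ 2) :
    p ^ 2 * (τ * (4 * t ^ D) / a) ^ (2 * (D + 1)) * (a / t ^ (2 * (D + 1))) ^ D =
      4 ^ (2 * (D + 1)) := by
  have h1 : p ^ 2 * τ ^ (2 * (D + 1)) = a ^ (D + 2) := by rw [h]; ring
  have h2 : (τ * (4 * t ^ D) / a) ^ (2 * (D + 1)) =
      τ ^ (2 * (D + 1)) * (4 ^ (2 * (D + 1)) * (t ^ (2 * (D + 1))) ^ D) / a ^ (2 * (D + 1)) := by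
    rw [div_pow, mul_pow, mul_pow, ← pow_mul, ← pow_mul, mul_comm D]
  have h3 : a ^ (2 * (D + 1)) = a ^ (D + 2) * a ^ D := by ring
  rw [h2, div_pow, h3, ← h1]
  have hne : p ^ 2 * τ ^ (2 * (D + 1)) ≠ 0 := by rw [h1]; positivity
  have hp : p ^ 2 ≠ 0 := left_ne_zero_of_mul hne
  have hτ : τ ^ (2 * (D + 1)) ≠ 0 := right_ne_zero_of_mul hne
  have hS : (t ^ (2 * (D + 1))) ^ D ≠ 0 := by positivity
  have hA : a ^ D ≠ 0 := by positivity
  generalize p ^ 2 = P at hp ⊢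
  generalize τ ^ (2 * (D + 1)) = T at hτ ⊢
  generalize (t ^ (2 * (D + 1))) ^ D = S at hS ⊢
  generalize a ^ D = A at hA ⊢
  generalize (4 : ℝ) ^ (2 * (D + 1)) = F
  field_simp

end NumX

open NumX

theorem pickS : PickS := by
  classical
  intro a h0 hs k₀ b
  obtain ⟨N, hN⟩ := big a h0 hs k₀ (2 * b)
  let Gd : Finset ℕ := (Icc k₀ N).filter fun k => ∀ k' ∈ Icc k N, a k' / 2 ^ k' ≤ a k / 2 ^ k
  refine ⟨Gd, fun k hk => (Finset.mem_Icc.1 (Finset.mem_filter.1 hk).1).1, ?_, ?_⟩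
  · intro k hk k' hk' hlt
    have h1 := (Finset.mem_filter.1 hk).2 k'
      (Finset.mem_Icc.2 ⟨hlt.le, (Finset.mem_Icc.1 (Finset.mem_filter.1 hk').1).2⟩)
    exact step hlt.le h1
  · have h1 : ∀ k ∈ Icc k₀ N,
        a k ≤ ∑ g ∈ Gd, a g * (if k ≤ g then ((1 : ℝ) / 2) ^ (g - k) else 0) := by
      intro k hk
      rw [Finset.mem_Icc] at hk
      obtain ⟨g, hg, hmax⟩ := Finset.exists_max_image (Icc k N) (fun j => a j / 2 ^ j)
        ⟨k, Finset.mem_Icc.2 ⟨le_rfl, hk.2⟩⟩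
      rw [Finset.mem_Icc] at hg
      have hgG : g ∈ Gd := by
        refine Finset.mem_filter.2 ⟨Finset.mem_Icc.2 ⟨hk.1.trans hg.1, hg.2⟩, fun k' hk' => ?_⟩
        rw [Finset.mem_Icc] at hk'
        exact hmax k' (Finset.mem_Icc.2 ⟨hg.1.trans hk'.1, hk'.2⟩)
      have h2 : a k ≤ a g * (if k ≤ g then ((1 : ℝ) / 2) ^ (g - k) else 0) := by
        rw [if_pos hg.1]
        exact step' hg.1 (hmax k (Finset.mem_Icc.2 ⟨le_rfl, hk.2⟩))
      refine h2.trans ?_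
      refine Finset.single_le_sum
        (f := fun g => a g * (if k ≤ g then ((1 : ℝ) / 2) ^ (g - k) else 0)) ?_ hgG
      intro j _
      refine mul_nonneg (h0 j) ?_
      split_ifs <;> positivity
    have h2 : ∑ k ∈ Icc k₀ N, a k ≤ ∑ g ∈ Gd, a g * 2 := by
      refine (Finset.sum_le_sum h1).trans ?_
      rw [Finset.sum_comm]
      refine Finset.sum_le_sum fun g _ => ?_
      rw [← Finset.mul_sum]
      exact mul_le_mul_of_nonneg_left (geo _ g) (h0 g)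
    rw [← Finset.sum_mul] at h2
    linarith

theorem numS : NumS := by
  classical
  intro D p a τ t hp hp1 ha hτ ht h hS
  have key := lam_pow D p a τ t ha ht h
  set lam := τ * (4 * t ^ D) / a with hlam
  set r := a / t ^ (2 * (D + 1)) with hr
  have hlam0 : 0 < lam := by positivity
  have hr0 : 0 < r := by positivity
  have hr1 : r ≤ 1 := by rw [hr, div_le_one (by positivity)]; exact hS
  have h4 : 4 ≤ lam := by
    have h1 : (4 : ℝ) ^ (2 * (D + 1)) ≤ lam ^ (2 * (D + 1)) := by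
      rw [← key]
      have e1 : p ^ 2 ≤ 1 := pow_le_one₀ hp.le hp1
      have e2 : r ^ D ≤ 1 := pow_le_one₀ hr0.le hr1
      have e3 : 0 ≤ lam ^ (2 * (D + 1)) := by positivity
      calc p ^ 2 * lam ^ (2 * (D + 1)) * r ^ D ≤ 1 * lam ^ (2 * (D + 1)) * 1 := by gcongr
        _ = _ := by ring
    exact le_of_pow_le_pow_left₀ (by omega) hlam0.le h1
  have hex : ∃ e : ℕ, lam ≤ 4 * 2 ^ e := by
    obtain ⟨e, he⟩ := pow_unbounded_of_one_lt lam (by norm_num : (1 : ℝ) < 2)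
    have : (0 : ℝ) < 2 ^ e := by positivity
    exact ⟨e, by linarith⟩
  set e := Nat.find hex with he
  have he1 : lam ≤ 4 * 2 ^ e := Nat.find_spec hex
  have he2 : 4 * 2 ^ e < 2 * lam := by
    rcases Nat.eq_zero_or_pos e with h0 | h0
    · rw [h0]; linarith
    · have h1 := Nat.find_min hex (m := e - 1) (by omega)
      have h2 : (2 : ℝ) ^ e = 2 ^ (e - 1) * 2 := by rw [← pow_succ]; congr 1; omega
      rw [h2]; push Not at h1; linarith
  set s := Real.sqrt r with hs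
  have hs0 : 0 < s := Real.sqrt_pos.2 hr0
  have hs2 : s ^ 2 = r := Real.sq_sqrt hr0.le
  set hh : ℝ := 4 * 2 ^ e * s with hhh
  have hh0 : 0 < hh := by positivity
  refine ⟨e, ⌈hh⌉₊, he1, he2, ?_, ?_⟩
  · have h1 : p * lam ^ (D + 1) * s ^ D = 4 ^ (D + 1) := by
      have h2 : (p * lam ^ (D + 1) * s ^ D) ^ 2 = (4 ^ (D + 1)) ^ 2 := by
        rw [← pow_mul, mul_comm (D + 1) 2, ← key, ← hs2]; ring
      exact (pow_left_inj₀ (by positivity) (by positivity) two_ne_zero).1 h2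
    have h3 : lam * s ≤ 2 * (⌈hh⌉₊ : ℝ) + 1 := by
      have h5 : hh ≤ (⌈hh⌉₊ : ℝ) := Nat.le_ceil _
      have h6 : lam * s ≤ hh := mul_le_mul_of_nonneg_right he1 hs0.le
      linarith
    have h7 : (lam * s) ^ D ≤ (2 * (⌈hh⌉₊ : ℝ) + 1) ^ D :=
      pow_le_pow_left₀ (by positivity) h3 D
    have h8 : (4 : ℝ) ≤ 4 ^ (D + 1) := le_self_pow₀ (by norm_num) (by omega)
    have h9 : p * (lam * (lam * s) ^ D) ≤ p * (4 * 2 ^ e * (2 * (⌈hh⌉₊ : ℝ) + 1) ^ D) := by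
      gcongr
    have h10 : p * (lam * (lam * s) ^ D) = 4 ^ (D + 1) := by rw [← h1]; ring
    nlinarith
  · have h1 : (⌈hh⌉₊ : ℝ) < hh + 1 := Nat.ceil_lt_add_one hh0.le
    have h2 : (0 : ℝ) ≤ (⌈hh⌉₊ : ℝ) := Nat.cast_nonneg _
    have h3 : 2 * (4 * 2 ^ e) ^ 2 * r = 2 * hh ^ 2 := by rw [hhh, ← hs2]; ring
    rw [h3]
    have h5 : ((⌈hh⌉₊ : ℝ) + 1) ^ 2 ≤ (hh + 2) ^ 2 :=
      pow_le_pow_left₀ (by positivity) (by linarith) 2
    nlinarith [sq_nonneg (hh - 2)]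

end Pool.Agent.MP_1479fb_pr.SG
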