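import Mathlib.Data.Nat.Choose.Bounds
import Mathlib.Analysis.Complex.ExponentialBounds
import Pool.Agent.MP_1479fb_pr.SG.Spec

/-! PROJECT SG, row OVER: the two union bounds. -/

set_option autoImplicit false

open MeasureTheory ProbabilityTheory Filter Topology Finset
open scoped ENNReal

namespace Pool.Agent.MP_1479fb_pr.SG

namespace OverX

theorem all_ge {d : ℕ} (μ : Measure ℝ) [IsProbabilityMeasure μ] (τ : ℝ)
    (S : Finset (Fin d → ℤ)) :
    Pm d μ (Set.pi (S : Set (Fin d → ℤ)) fun _ => Set.Ici τ) =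
      ENNReal.ofReal (μ.real (Set.Ici τ) ^ S.card) := by
  unfold Pm
  rw [Measure.infinitePi_pi _ (fun _ _ => measurableSet_Ici), Finset.prod_const,
    ENNReal.ofReal_pow measureReal_nonneg, ofReal_measureReal]

theorem many {d : ℕ} (μ : Measure ℝ) [IsProbabilityMeasure μ] (τ : ℝ)
    (U : Finset (Fin d → ℤ)) (M : ℕ) :
    Pm d μ {x | M ≤ (U.filter (fun v => τ ≤ x v)).card} ≤
      ENNReal.ofReal ((U.card.choose M : ℝ) * μ.real (Set.Ici τ) ^ M) := by
  have hsub : {x : (Fin d → ℤ) → ℝ | M ≤ (U.filter (fun v => τ ≤ x v)).card} ⊆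
      ⋃ S ∈ U.powersetCard M, Set.pi (S : Set (Fin d → ℤ)) fun _ => Set.Ici τ := by
    intro x hx
    obtain ⟨S, hS, hc⟩ := Finset.exists_subset_card_eq (show M ≤ _ from hx)
    refine Set.mem_iUnion₂.2 ⟨S, Finset.mem_powersetCard.2
      ⟨hS.trans (Finset.filter_subset _ _), hc⟩, fun v hv => ?_⟩
    exact (Finset.mem_filter.1 (hS hv)).2
  refine (measure_mono hsub).trans ((measure_biUnion_finset_le _ _).trans (le_of_eq ?_))
  rw [Finset.sum_congr rfl (g := fun _ => ENNReal.ofReal (μ.real (Set.Ici τ) ^ M)) fun S hS => by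
    rw [all_ge, (Finset.mem_powersetCard.1 hS).2]]
  rw [Finset.sum_const, Finset.card_powersetCard, nsmul_eq_mul,
    ENNReal.ofReal_mul (Nat.cast_nonneg _), ENNReal.ofReal_natCast]

theorem num (n M : ℕ) (p : ℝ) (hp : 0 ≤ p) (h : 6 * (p * n) ≤ M) :
    (n.choose M : ℝ) * p ^ M ≤ (1 / 2) ^ M := by
  have h1 : (n.choose M : ℝ) ≤ (n : ℝ) ^ M / M.factorial := Nat.choose_le_pow_div M n
  have h2 : (M : ℝ) ^ M / M.factorial ≤ Real.exp M :=
    Real.pow_div_factorial_le_exp (M : ℝ) (Nat.cast_nonneg M) M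
  have h3 : Real.exp M ≤ 3 ^ M := by
    rw [← mul_one (M : ℝ), Real.exp_nat_mul]
    exact pow_le_pow_left₀ (Real.exp_pos 1).le (by linarith [Real.exp_one_lt_d9]) M
  have h4 : (p * n) ^ M ≤ ((M : ℝ) * (1 / 6)) ^ M :=
    pow_le_pow_left₀ (by positivity) (by linarith) M
  have hf : (0 : ℝ) < M.factorial := by positivity
  calc (n.choose M : ℝ) * p ^ M ≤ (n : ℝ) ^ M / M.factorial * p ^ M :=
        mul_le_mul_of_nonneg_right h1 (by positivity)
    _ = (p * n) ^ M / M.factorial := by rw [mul_pow]; ring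
    _ ≤ ((M : ℝ) * (1 / 6)) ^ M / M.factorial := div_le_div_of_nonneg_right h4 hf.le
    _ = (M : ℝ) ^ M / M.factorial * (1 / 6) ^ M := by rw [mul_pow]; ring
    _ ≤ 3 ^ M * (1 / 6) ^ M := mul_le_mul_of_nonneg_right (h2.trans h3) (by positivity)
    _ = (1 / 2) ^ M := by rw [← mul_pow]; norm_num

end OverX

theorem overS (h1 : KraftS) (h2 : VolS) : OverS := by
  intro d hd μ _ τ m
  have hp0 : 0 ≤ μ.real (Set.Ici τ) := measureReal_nonneg
  have hp1 : μ.real (Set.Ici τ) ≤ 1 := measureReal_le_one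
  refine ⟨fun t => ?_, ?_⟩
  · have hsub : {x : (Fin d → ℤ) → ℝ | ∃ q ∈ Fp d (μ.real (Set.Ici τ)) m,
        12 * 9 ^ d * q.2 + t ≤ (q.1.filter (fun v => τ ≤ x v)).card} ⊆
        ⋃ q ∈ Fp d (μ.real (Set.Ici τ)) m,
          {x | 12 * 9 ^ d * q.2 + t ≤ (q.1.filter (fun v => τ ≤ x v)).card} := by
      rintro x ⟨q, hq, hx⟩
      exact Set.mem_iUnion₂.2 ⟨q, hq, hx⟩
    refine (measure_mono hsub).trans ((measure_biUnion_finset_le _ _).trans ?_)
    have hq : ∀ q ∈ Fp d (μ.real (Set.Ici τ)) m,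
        Pm d μ {x | 12 * 9 ^ d * q.2 + t ≤ (q.1.filter (fun v => τ ≤ x v)).card} ≤
          ENNReal.ofReal ((1 / 2) ^ q.2 * (1 / 2) ^ t) := by
      intro q hq
      refine (OverX.many μ τ q.1 _).trans (ENNReal.ofReal_le_ofReal ?_)
      have h3 := (h2 d hd _ hp0 hp1 m 0 0 q hq).2
      refine (OverX.num _ _ _ hp0 ?_).trans ?_
      · push_cast
        have : (0 : ℝ) ≤ t := Nat.cast_nonneg t
        linarith
      · rw [← pow_add]
        refine pow_le_pow_of_le_one (by norm_num) (by norm_num) ?_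
        have : 1 ≤ 12 * 9 ^ d := Nat.one_le_iff_ne_zero.2 (by positivity)
        nlinarith
    refine (Finset.sum_le_sum hq).trans ?_
    rw [← ENNReal.ofReal_sum_of_nonneg fun _ _ => by positivity, ← Finset.sum_mul]
    refine ENNReal.ofReal_le_ofReal ?_
    exact mul_le_of_le_one_left (by positivity) (h1 d _ _ m 0 0)
  · have hsub : {x : (Fin d → ℤ) → ℝ | ∃ v ∈ cube (0 : Fin d → ℤ) (2 ^ m), τ ≤ x v} ⊆
        {x | 1 ≤ ((cube (0 : Fin d → ℤ) (2 ^ m)).filter (fun v => τ ≤ x v)).card} := by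
      rintro x ⟨v, hv, hx⟩
      exact Finset.card_pos.2 ⟨v, Finset.mem_filter.2 ⟨hv, hx⟩⟩
    refine (measure_mono hsub).trans ((OverX.many μ τ _ 1).trans (ENNReal.ofReal_le_ofReal ?_))
    rw [Nat.choose_one_right, pow_one, card_cube, ← mul_pow]
    refine mul_le_mul_of_nonneg_right ?_ hp0
    push_cast
    refine pow_le_pow_left₀ (by positivity) ?_ d
    have : (1 : ℝ) ≤ 2 ^ m := one_le_pow₀ (by norm_num)
    linarith

end Pool.Agent.MP_1479fb_pr.SG
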