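import Pool.Agent.MP_1479fb_pr.SG.Spec

/-! PROJECT SG: counting lemmas and the lattice path along a valid curve. -/

set_option autoImplicit false

open Finset

namespace Pool.Agent.MP_1479fb_pr.SG

namespace PathX

variable {D : ℕ}

lemma len1_update (x y : Fin (D + 1) → ℤ) (c : Fin (D + 1)) (v : ℤ)
    (h : (y c - v).natAbs + 1 = (y c - x c).natAbs) :
    len1 (Function.update x c v) y + 1 = len1 x y := by
  unfold len1
  rw [← Finset.add_sum_erase _ _ (mem_univ c), ← Finset.add_sum_erase _ _ (mem_univ c)]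
  have e : ∑ j ∈ univ.erase c, (y j - Function.update x c v j).natAbs =
      ∑ j ∈ univ.erase c, (y j - x j).natAbs :=
    Finset.sum_congr rfl fun j hj => by rw [Function.update_of_ne (Finset.ne_of_mem_erase hj)]
  rw [e, Function.update_self]
  omega

lemma stair (y : Fin (D + 1) → ℤ) (l : List (Fin (D + 1) → ℤ)) (hc : (y :: l).IsChain Adj)
    (hn : (y :: l).Nodup) (hl : ∀ z ∈ l, y 0 < z 0) (n : ℕ) :
    ∀ x : Fin (D + 1) → ℤ, len1 x y = n → x 0 = y 0 →
      ∃ l' : List (Fin (D + 1) → ℤ), (x :: l').IsChain Adj ∧ (x :: l').Nodup ∧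
        l'.length = n + l.length ∧ (∀ z ∈ y :: l, z ∈ x :: l') ∧
        (∀ z ∈ x :: l', y 0 ≤ z 0 ∧ (len1 z y ≤ n ∨ y 0 < z 0)) := by
  induction n with
  | zero =>
    intro x h _
    have e : x = y := by
      funext c
      have := (Finset.sum_eq_zero_iff.1 h) c (mem_univ c)
      omega
    subst e
    refine ⟨l, hc, hn, by simp, fun z hz => hz, fun z hz => ?_⟩
    rcases List.mem_cons.1 hz with rfl | hz
    · exact ⟨le_rfl, Or.inl h.le⟩
    · exact ⟨(hl z hz).le, Or.inr (hl z hz)⟩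
  | succ n ih =>
    intro x h h0
    obtain ⟨c, hc'⟩ : ∃ c, x c ≠ y c := by
      by_contra hh
      have : len1 x y = 0 :=
        Finset.sum_eq_zero fun c _ => by
          have : x c = y c := by
            by_contra h1
            exact hh ⟨c, h1⟩
          omega
      omega
    have c0 : (0 : Fin (D + 1)) ≠ c := fun e => hc' (e ▸ h0)
    obtain ⟨v, hv1, hv2⟩ : ∃ v : ℤ, (v = x c + 1 ∨ x c = v + 1) ∧
        (y c - v).natAbs + 1 = (y c - x c).natAbs := by
      rcases lt_or_gt_of_ne hc' with g | g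
      · exact ⟨x c + 1, Or.inl rfl, by omega⟩
      · exact ⟨x c - 1, Or.inr (by omega), by omega⟩
    have h1 := len1_update x y c v hv2
    obtain ⟨l', a1, a2, a3, a4, a5⟩ := ih (Function.update x c v) (by omega)
      (by rw [Function.update_of_ne c0]; exact h0)
    refine ⟨Function.update x c v :: l', List.IsChain.cons_cons (adj_update x c v hv1) a1, ?_,
      by simp [a3]; omega, fun z hz => List.mem_cons_of_mem _ (a4 z hz), fun z hz => ?_⟩
    · refine List.nodup_cons.2 ⟨fun hx => ?_, a2⟩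
      rcases (a5 x hx).2 with g | g <;> omega
    · rcases List.mem_cons.1 hz with rfl | hz
      · exact ⟨h0.ge, Or.inl h.le⟩
      · exact ⟨(a5 z hz).1, (a5 z hz).2.imp (fun g => by omega) id⟩

lemma floor_le (a b : ℝ) : (((⌊a⌋ - ⌊b⌋).natAbs : ℕ) : ℝ) ≤ (a - b) ^ 2 + 2 := by
  have e : (((⌊a⌋ - ⌊b⌋).natAbs : ℕ) : ℝ) = |(⌊a⌋ : ℝ) - ⌊b⌋| := by
    rw [← Int.cast_natCast, Int.natCast_natAbs]
    push_cast
    rfl
  rw [e, abs_le]
  have h1 := Int.floor_le a
  have h2 := Int.lt_floor_add_one a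
  have h3 := Int.floor_le b
  have h4 := Int.lt_floor_add_one b
  constructor <;> nlinarith [sq_nonneg (a - b - 1), sq_nonneg (a - b + 1), sq_nonneg (a - b)]

lemma along (y : ℕ → Fin (D + 1) → ℝ) (hy : ∀ t, y t 0 = t) (k : ℕ) : ∀ t : ℕ,
    ∃ l : List (Fin (D + 1) → ℤ), ((fun c => ⌊y t c⌋) :: l).IsChain Adj ∧
      ((fun c => ⌊y t c⌋) :: l).Nodup ∧ (∀ z ∈ l, (t : ℤ) < z 0) ∧
      (l.length : ℝ) ≤ ∑ i ∈ range k, ∑ c, ((y (t + i + 1) c - y (t + i) c) ^ 2 + 2) ∧
      ∀ i, 1 ≤ i → i ≤ k → (fun c => ⌊y (t + i) c⌋) ∈ l := by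
  induction k with
  | zero => exact fun t => ⟨[], by simp, by simp, by simp, by simp, fun i a b => by omega⟩
  | succ k ih =>
    intro t
    obtain ⟨l, a1, a2, a3, a4, a5⟩ := ih (t + 1)
    have f0 : ∀ s : ℕ, ⌊y s 0⌋ = s := fun s => by rw [hy, Int.floor_natCast]
    have hu := len1_update (fun c => ⌊y t c⌋) (fun c => ⌊y (t + 1) c⌋) 0 ((t : ℤ) + 1)
      (by simp only [f0]; omega)
    obtain ⟨l', b1, b2, b3, b4, b5⟩ := stair (fun c => ⌊y (t + 1) c⌋) l a1 a2
      (fun z hz => by simp only [f0]; exact a3 z hz) _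
      (Function.update (fun c => ⌊y t c⌋) 0 ((t : ℤ) + 1)) rfl
      (by simp only [f0, Function.update_self]; omega)
    have hz : ∀ z ∈ Function.update (fun c => ⌊y t c⌋) 0 ((t : ℤ) + 1) :: l', (t : ℤ) < z 0 := by
      intro z hz
      have := (b5 z hz).1
      simp only [f0] at this
      omega
    refine ⟨Function.update (fun c => ⌊y t c⌋) 0 ((t : ℤ) + 1) :: l',
      List.IsChain.cons_cons (adj_update _ 0 _ (Or.inl (by simp only [f0]))) b1,
      List.nodup_cons.2 ⟨fun hx => ?_, b2⟩, hz, ?_, fun i h1 h2 => ?_⟩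
    · have := hz _ hx
      simp only [f0] at this
      omega
    · rw [Finset.sum_range_succ', List.length_cons, b3]
      have e : ∑ i ∈ range k, ∑ c, ((y (t + (i + 1) + 1) c - y (t + (i + 1)) c) ^ 2 + 2) =
          ∑ i ∈ range k, ∑ c, ((y (t + 1 + i + 1) c - y (t + 1 + i) c) ^ 2 + 2) :=
        Finset.sum_congr rfl fun i _ => by rw [show t + (i + 1) = t + 1 + i by omega]
      have g : ((len1 (fun c => ⌊y t c⌋) (fun c => ⌊y (t + 1) c⌋) : ℕ) : ℝ) ≤
          ∑ c, ((y (t + 0 + 1) c - y (t + 0) c) ^ 2 + 2) := by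
        unfold len1
        rw [Nat.cast_sum]
        exact Finset.sum_le_sum fun c _ => floor_le _ _
      rw [e]
      rw [← hu] at g
      push_cast at g ⊢
      linarith
    · apply b4
      rcases Nat.eq_or_lt_of_le h1 with rfl | h3
      · exact List.mem_cons_self
      · have := a5 (i - 1) (by omega) (by omega)
        rw [show t + 1 + (i - 1) = t + i by omega] at this
        exact List.mem_cons_of_mem _ this

end PathX

theorem pathS : PathS := by
  intro D N Λ E y Cs hv
  obtain ⟨h1, h2, h3, -, -, h6⟩ := hv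
  obtain ⟨l, a1, a2, -, a4, a5⟩ := PathX.along y h1 N 0
  have e : (fun c => ⌊y 0 c⌋) = (0 : Fin (D + 1) → ℤ) := by
    funext c
    simp [h2]
  rw [e] at a1 a2
  refine ⟨l, a2, a1, a4.trans ?_, fun v hv => ?_⟩
  · have : ∑ i ∈ range N, ∑ c, ((y (0 + i + 1) c - y (0 + i) c) ^ 2 + 2) =
        En N y + 2 * (D + 1) * N := by
      simp only [En, Finset.sum_add_distrib, zero_add, Finset.sum_const, Finset.card_univ,
        Fintype.card_fin, Finset.card_range, nsmul_eq_mul]
      push_cast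
      ring
    rw [this]
    linarith
  · obtain ⟨t, t1, t2, t3⟩ := h3 v hv
    have := a5 t t1 t2
    have e2 : (fun c => ⌊y (0 + t) c⌋) = v := by
      funext c
      rw [zero_add, t3, Int.floor_intCast]
    rwa [e2] at this

theorem cntS : CntS := by
  classical
  intro D
  refine ⟨fun N Λ => ⟨by simp, by simp, by simp, fun t _ _ c => ?_, by simp, ?_⟩,
    fun y ℓ H i => ?_, fun N Λ ℓ n E y Cs hv h1 h2 h3 => ?_⟩
  · by_cases hc : c = 0
    · subst hc
      simp only [Pi.single_eq_same]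
      push_cast
      ring
    · simp [Pi.single_eq_of_ne hc]
  · have : ∀ t : ℕ, ∑ c : Fin (D + 1), ((Pi.single 0 ((t + 1 : ℕ) : ℝ) : Fin (D + 1) → ℝ) c -
        (Pi.single 0 (t : ℝ) : Fin (D + 1) → ℝ) c) ^ 2 = 1 := by
      intro t
      rw [Fin.sum_univ_succ]
      simp
    simp only [En, this]
    simp
  · unfold win
    rw [Finset.card_image_of_injOn, Finset.card_product, card_cube, Nat.card_Icc]
    · exact Nat.mul_le_mul_right _ (by omega)
    · rintro ⟨a, u⟩ - ⟨b, w⟩ - h
      have h0 := congrFun h 0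
      simp only [Fin.cons_zero, Nat.cast_inj] at h0
      subst h0
      refine Prod.ext rfl (funext fun c => ?_)
      have hc := congrFun h c.succ
      simp only [Fin.cons_succ] at hc
      exact add_left_cancel hc
  · obtain ⟨-, -, -, -, h5, -⟩ := hv
    have a1 : ((range n).filter (fun i => ¬ Free Cs ℓ i)).card ≤ Cs.card := by
      refine le_trans (Finset.card_le_card fun i hi => ?_)
        (Finset.card_image_le (s := Cs) (f := fun v => (v 0).toNat / (4 * ℓ)))
      have hi2 := (Finset.mem_filter.1 hi).2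
      unfold Free at hi2
      simp only [not_forall, not_not] at hi2
      obtain ⟨v, hv, g1, g2⟩ := hi2
      refine Finset.mem_image.2 ⟨v, hv, Nat.div_eq_of_lt_le ?_ ?_⟩
      · rw [mul_comm]
        omega
      · rw [mul_comm]
        omega
    have a2 := Finset.card_filter_add_card_filter_not (s := range n) (fun i => Free Cs ℓ i)
    rw [Finset.card_range] at a2
    have a3 : 2 * Cs.card ≤ n := by
      have b1 : Cs.card * (16 * ℓ) ≤ 2 * (4 * ℓ * n) :=
        (Nat.mul_le_mul_left _ h2).trans (h3 ▸ h5)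
      have b2 : 8 * ℓ * (2 * Cs.card) ≤ 8 * ℓ * n := by nlinarith
      exact Nat.le_of_mul_le_mul_left b2 (by omega)
    omega

end Pool.Agent.MP_1479fb_pr.SG
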