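import Pool.Agent.MP_1479fb_pr.SG.Spec

/-! Three elementary probability bounds. -/

set_option autoImplicit false

open MeasureTheory ProbabilityTheory Filter Topology Finset
open scoped ENNReal

namespace Pool.Agent.MP_1479fb_pr.SG

namespace ProbX

lemma half {Ω : Type} [MeasurableSpace Ω] (P : Measure Ω) [IsProbabilityMeasure P] {S : Set Ω}
    (h : P Sᶜ ≤ ENNReal.ofReal (1 / 2)) : ENNReal.ofReal (1 / 2) ≤ P S := by
  have h1 : (1 : ℝ≥0∞) ≤ P S + P Sᶜ := by
    rw [← measure_univ (μ := P), ← Set.union_compl_self S]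
    exact measure_union_le _ _
  have h2 : ENNReal.ofReal (1 / 2) + ENNReal.ofReal (1 / 2) = 1 := by
    rw [← ENNReal.ofReal_add (by norm_num) (by norm_num)]
    norm_num
  exact ENNReal.le_of_add_le_add_right ENNReal.ofReal_ne_top
    (h2 ▸ h1.trans (add_le_add_right h _))

end ProbX

theorem probS : ProbS := by
  intro d ν _
  have : IsProbabilityMeasure (Pm d ν) := by unfold Pm; infer_instance
  refine ⟨fun C L hL v => ProbX.half _ ?_, fun τ q W hq hW => ProbX.half _ ?_⟩
  · obtain ⟨G, hG⟩ : ∃ G : ℝ, G = (2 * C + 1) ^ d := ⟨_, rfl⟩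
    have G1 : 1 ≤ G := hG ▸ one_le_pow₀ (by linarith [Nat.cast_nonneg (α := ℝ) C])
    have hq := isl_le (d := d) ν C L (η := 1 / 4) (by norm_num) (by norm_num) (fun u => by
      refine le_trans (le_of_eq ?_) hL
      exact (measurePreserving_eval_infinitePi (fun _ : Fin d → ℤ => ν) u).measure_preimage
        (s := Set.Iio (-L)) measurableSet_Iio.nullMeasurableSet)
    rw [← hG] at hq
    have hsub : {x : (Fin d → ℤ) → ℝ | Safe C L x v}ᶜ ⊆
        ⋃ j, ⋃ u ∈ cube v (Dk C (j + 1)), {x | Isl C (fun y => x y < -L) j u} := by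
      intro x hx
      obtain ⟨j, u, h1, h2⟩ := not_not.1 hx
      exact Set.mem_iUnion.2 ⟨j, Set.mem_iUnion₂.2 ⟨u, mem_cube.2 h2.symm, h1⟩⟩
    refine (measure_mono hsub).trans ((measure_iUnion_le _).trans ?_)
    rw [← tsum_geometric_two' (1 / 2),
      ENNReal.ofReal_tsum_of_nonneg (fun n => by positivity) (summable_geometric_two' _)]
    refine ENNReal.tsum_le_tsum fun k => (measure_biUnion_finset_le _ _).trans
      ((Finset.sum_le_card_nsmul _ _ _ (fun u _ => hq k u)).trans ?_)
    rw [nsmul_eq_mul, ← ENNReal.ofReal_natCast, ← ENNReal.ofReal_mul (by positivity),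
      card_cube_Dk, ← hG]
    refine ENNReal.ofReal_le_ofReal ?_
    calc _ ≤ G ^ (k + 2) * ((1 / 4 * (1 / 2) ^ k) / G ^ (k + 2)) := by
          rw [pow_succ' (1 / 4 : ℝ)]
          gcongr
          · omega
          · norm_num
      _ = _ := by rw [one_div_pow]; field_simp; norm_num
  · have e : {x : (Fin d → ℤ) → ℝ | ∃ v ∈ W, τ ≤ x v}ᶜ = Set.pi W (fun _ => Set.Iio τ) := by
      ext x; simp
    have e2 : ν (Set.Iio τ) = ENNReal.ofReal (1 - ν.real (Set.Ici τ)) := by
      rw [← probReal_compl_eq_one_sub measurableSet_Ici, Set.compl_Ici, ofReal_measureReal]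
    have h1 : ν.real (Set.Ici τ) ≤ 1 := measureReal_le_one
    rw [e, Pm, Measure.infinitePi_pi _ fun _ _ => measurableSet_Iio, prod_const, e2,
      ← ENNReal.ofReal_pow (by linarith)]
    refine ENNReal.ofReal_le_ofReal ?_
    calc _ ≤ Real.exp (-ν.real (Set.Ici τ)) ^ W.card :=
          pow_le_pow_left₀ (by linarith) (Real.one_sub_le_exp_neg _) _
      _ ≤ Real.exp (-1) := by
          rw [← Real.exp_nat_mul, Real.exp_le_exp]
          nlinarith [mul_le_mul_of_nonneg_right hq (Nat.cast_nonneg (α := ℝ) W.card)]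
      _ ≤ 1 / 2 := Real.exp_neg_one_lt_d9.le.trans (by norm_num)

theorem oftenS : OftenS := by
  intro Ω _ P _ G b M hb hG hM hb'
  set A : ℕ → Set Ω := fun j => {x | ENNReal.ofReal (b * j / 2) < G j x} with hA
  have mA : ∀ j, MeasurableSet (A j) := fun j => measurableSet_lt measurable_const (hG j)
  have h1 : ∀ j : ℕ, ENNReal.ofReal (b * j / 2) ≤ ENNReal.ofReal (M * j) * P (A j) := by
    intro j
    have h2 : ∫⁻ x, G j x ∂P ≤ ∫⁻ x, (ENNReal.ofReal (b * j / 2) +
        (A j).indicator (fun _ => ENNReal.ofReal (M * j)) x) ∂P := by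
      refine lintegral_mono fun x => ?_
      by_cases hx : x ∈ A j
      · rw [Set.indicator_of_mem hx]
        exact (hM j x).trans le_add_self
      · rw [Set.indicator_of_notMem hx, add_zero]
        exact not_lt.1 hx
    rw [lintegral_add_left measurable_const, lintegral_const, measure_univ, mul_one,
      lintegral_indicator_const (mA j)] at h2
    have h3 := (hb' j).trans h2
    rw [← add_halves (b * j), ENNReal.ofReal_add (by positivity) (by positivity)] at h3
    simp only [add_halves] at h3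
    exact ENNReal.le_of_add_le_add_left ENNReal.ofReal_ne_top h3
  have h4 : ∀ j : ℕ, 1 ≤ j → ENNReal.ofReal (b / 2) ≤ ENNReal.ofReal M * P (A j) := by
    intro j hj
    have h5 := h1 j
    have hj' : (0 : ℝ) < j := by exact_mod_cast hj
    rw [show b * j / 2 = j * (b / 2) by ring, mul_comm M, ENNReal.ofReal_mul hj'.le,
      ENNReal.ofReal_mul hj'.le, mul_assoc] at h5
    exact (ENNReal.mul_le_mul_iff_right (ENNReal.ofReal_pos.2 hj').ne' ENNReal.ofReal_ne_top).1 h5
  have e : {x | ∃ᶠ j : ℕ in atTop, ENNReal.ofReal (b * j / 2) < G j x} =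
      ⋂ J, ⋃ j ≥ J, A j := by
    ext x
    simp [frequently_atTop, hA]
  have ht := tendsto_measure_iInter_atTop (μ := P) (s := fun J => ⋃ j ≥ J, A j)
    (fun J => (MeasurableSet.biUnion (Set.to_countable _) fun j _ => mA j).nullMeasurableSet)
    (fun J J' h => Set.biUnion_subset_biUnion_left fun j hj => le_trans h hj)
    ⟨0, measure_ne_top _ _⟩
  intro h0
  rw [← e, h0] at ht
  have ht' := ENNReal.Tendsto.const_mul (a := ENNReal.ofReal M) ht (Or.inr ENNReal.ofReal_ne_top)
  have h6 := ge_of_tendsto' ht' fun J => (h4 (J + 1) (by omega)).trans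
    (mul_le_mul_right (measure_mono (Set.subset_biUnion_of_mem (u := A)
      (show J + 1 ∈ {j | j ≥ J} from Nat.le_succ J))) _)
  rw [mul_zero, nonpos_iff_eq_zero, ENNReal.ofReal_eq_zero] at h6
  linarith

end Pool.Agent.MP_1479fb_pr.SG
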