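import Mathlib.MeasureTheory.Measure.Lebesgue.Basic
import Pool.Agent.MP_1479fb_pr.SG.Spec

/-! The series over the levels converges exactly when the integral is finite. -/

set_option autoImplicit false

open MeasureTheory Filter Topology Set
open scoped ENNReal

namespace Pool.Agent.MP_1479fb_pr.SG

namespace SerX

variable (μ : Measure ℝ) [IsProbabilityMeasure μ] {al th : ℝ}

theorem len (k : ℕ) : (16 : ℝ) ^ (k + 1) - 16 ^ k = 15 * 16 ^ k := by ring

theorem pow_al (h1 : al ≤ 1) (k : ℕ) :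
    ((16 : ℝ) ^ (k + 1)) ^ al ≤ 16 * ((16 : ℝ) ^ k) ^ al := by
  rw [pow_succ', Real.mul_rpow (by norm_num) (by positivity)]
  gcongr
  exact (Real.rpow_le_rpow_of_exponent_le (by norm_num) h1).trans_eq (Real.rpow_one _)

theorem fin_of_summable (h0 : 0 ≤ al) (h1 : al ≤ 1) (h2 : 0 ≤ th)
    (h : Summable fun k : ℕ => ((16 : ℝ) ^ k) ^ al * 16 ^ k * μ.real (Ici ((16 : ℝ) ^ k)) ^ th) :
    ∫⁻ t in Ioi (0 : ℝ), ENNReal.ofReal (t ^ al * μ.real (Ioi t) ^ th) < ⊤ := by
  have hsub : Ioi (0 : ℝ) ⊆ Ioc 0 1 ∪ ⋃ k : ℕ, Ioc ((16 : ℝ) ^ k) (16 ^ (k + 1)) := by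
    intro t ht
    rcases le_or_gt t 1 with h3 | h3
    · exact Or.inl ⟨ht, h3⟩
    · have hex : ∃ n : ℕ, t ≤ 16 ^ (n + 1) := by
        obtain ⟨n, hn⟩ := pow_unbounded_of_one_lt t (show (1 : ℝ) < 16 by norm_num)
        exact ⟨n, hn.le.trans (pow_le_pow_right₀ (by norm_num) n.le_succ)⟩
      refine Or.inr (mem_iUnion.mpr ⟨Nat.find hex, ?_, Nat.find_spec hex⟩)
      rcases h4 : Nat.find hex with _ | n
      · simpa using h3
      · exact not_le.mp (Nat.find_min hex (h4 ▸ n.lt_succ_self))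
  refine ((lintegral_mono_set hsub).trans (lintegral_union_le _ _ _)).trans_lt
    (ENNReal.add_lt_top.mpr ⟨?_, (lintegral_iUnion_le _ _).trans_lt ?_⟩)
  · refine (setLIntegral_mono' (g := fun _ => 1) measurableSet_Ioc fun t ht => ?_).trans_lt
      (by simp)
    refine ENNReal.ofReal_le_one.mpr (mul_le_one₀ (Real.rpow_le_one ht.1.le ht.2 h0)
      (by positivity) (Real.rpow_le_one measureReal_nonneg measureReal_le_one h2))
  · refine (ENNReal.tsum_le_tsum (g := fun k : ℕ => ENNReal.ofReal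
      (240 * (((16 : ℝ) ^ k) ^ al * 16 ^ k * μ.real (Ici ((16 : ℝ) ^ k)) ^ th))) fun k => ?_).trans_lt
      ?_
    · refine (setLIntegral_mono' (g := fun _ => ENNReal.ofReal
        (16 * ((16 : ℝ) ^ k) ^ al * μ.real (Ici ((16 : ℝ) ^ k)) ^ th)) measurableSet_Ioc
        fun t ht => ENNReal.ofReal_le_ofReal ?_).trans ?_
      · have ht0 : 0 ≤ t := le_trans (by positivity) ht.1.le
        refine mul_le_mul ((Real.rpow_le_rpow ht0 ht.2 h0).trans (pow_al h1 k))
          (Real.rpow_le_rpow measureReal_nonneg (measureReal_mono fun s hs => ?_) h2)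
          (by positivity) (by positivity)
        exact (ht.1.trans hs).le
      · rw [setLIntegral_const, Real.volume_Ioc, len, ← ENNReal.ofReal_mul (by positivity)]
        exact ENNReal.ofReal_le_ofReal (le_of_eq (by ring))
    · rw [← ENNReal.ofReal_tsum_of_nonneg (fun k => by positivity) (h.mul_left _)]
      exact ENNReal.ofReal_lt_top

theorem summable_of_fin (h0 : 0 ≤ al) (h1 : al ≤ 1) (h2 : 0 ≤ th)
    (h : ∫⁻ t in Ioi (0 : ℝ), ENNReal.ofReal (t ^ al * μ.real (Ioi t) ^ th) < ⊤) :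
    Summable fun k : ℕ => ((16 : ℝ) ^ k) ^ al * 16 ^ k * μ.real (Ici ((16 : ℝ) ^ k)) ^ th := by
  have hsub : (⋃ k : ℕ, Ico ((16 : ℝ) ^ k) (16 ^ (k + 1))) ⊆ Ioi 0 := by
    intro t ht
    obtain ⟨k, hk⟩ := mem_iUnion.mp ht
    exact lt_of_lt_of_le (by positivity) hk.1
  have hm : Monotone fun k : ℕ => (16 : ℝ) ^ k := fun _ _ h => pow_le_pow_right₀ (by norm_num) h
  have hdis : Pairwise (Function.onFun Disjoint
      fun k : ℕ => Ico ((16 : ℝ) ^ k) (16 ^ (k + 1))) := by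
    refine (pairwise_disjoint_on _).mpr fun i j hij => ?_
    exact Set.disjoint_left.mpr fun t h1 h2 => absurd (h1.2.trans_le ((hm hij).trans h2.1)) (lt_irrefl _)
  have h3 := (lintegral_mono_set hsub).trans_lt h
  rw [lintegral_iUnion (fun _ => measurableSet_Ico) hdis] at h3
  have h4 : ∑' k : ℕ, ENNReal.ofReal
      (((16 : ℝ) ^ k) ^ al * μ.real (Ici ((16 : ℝ) ^ (k + 1))) ^ th * (15 * 16 ^ k)) ≠ ⊤ := by
    refine ((ENNReal.tsum_le_tsum fun k => ?_).trans_lt h3).ne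
    rw [ENNReal.ofReal_mul (by positivity), ← len, ← Real.volume_Ico, ← setLIntegral_const]
    refine setLIntegral_mono' measurableSet_Ico fun t ht => ENNReal.ofReal_le_ofReal ?_
    have ht0 : 0 ≤ t := le_trans (by positivity) ht.1
    refine mul_le_mul (Real.rpow_le_rpow (by positivity) ht.1 h0)
      (Real.rpow_le_rpow measureReal_nonneg (measureReal_mono fun s hs => ?_) h2)
      (by positivity) (by positivity)
    exact ht.2.trans_le hs
  have h5 := (ENNReal.summable_toReal h4).mul_left 18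
  rw [← summable_nat_add_iff 1]
  refine h5.of_nonneg_of_le (fun k => by positivity) fun k => ?_
  rw [ENNReal.toReal_ofReal (by positivity)]
  have h6 := pow_al h1 k
  have h7 : 0 ≤ ((16 : ℝ) ^ k) ^ al * μ.real (Ici ((16 : ℝ) ^ (k + 1))) ^ th * 16 ^ k := by
    positivity
  calc ((16 : ℝ) ^ (k + 1)) ^ al * 16 ^ (k + 1) * μ.real (Ici ((16 : ℝ) ^ (k + 1))) ^ th
      ≤ 16 * ((16 : ℝ) ^ k) ^ al * 16 ^ (k + 1) * μ.real (Ici ((16 : ℝ) ^ (k + 1))) ^ th := by
        gcongr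
    _ = 256 * (((16 : ℝ) ^ k) ^ al * μ.real (Ici ((16 : ℝ) ^ (k + 1))) ^ th * 16 ^ k) := by ring
    _ ≤ _ := by linarith

end SerX

open SerX in
theorem serS : SerS := by
  intro d hd μ _
  have hd1 : (1 : ℝ) ≤ d := by exact_mod_cast hd
  have h0 : 0 ≤ ((d : ℝ) - 1) / (d + 1) := div_nonneg (by linarith) (by positivity)
  have h1 : ((d : ℝ) - 1) / (d + 1) ≤ 1 := by
    rw [div_le_one (by positivity)]; linarith
  have h2 : 0 ≤ (2 : ℝ) / (d + 1) := by positivity
  refine ⟨fun k => ((16 : ℝ) ^ k) ^ (((d : ℝ) - 1) / (d + 1)) * 16 ^ k *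
    μ.real (Ici ((16 : ℝ) ^ k)) ^ ((2 : ℝ) / (d + 1)), fun k => ⟨by positivity, ?_⟩,
    fin_of_summable μ h0 h1 h2, summable_of_fin μ h0 h1 h2⟩
  have e1 : ((16 : ℝ) ^ k) ^ (((d : ℝ) - 1) / (d + 1)) * 16 ^ k =
      (((16 : ℝ) ^ k) ^ d) ^ ((2 : ℝ) / (d + 1)) := by
    rw [← Real.rpow_add_one (by positivity), ← Real.rpow_natCast _ d,
      ← Real.rpow_mul (by positivity)]
    congr 1
    field_simp
    ring
  beta_reduce
  rw [e1, ← Real.mul_rpow (by positivity) measureReal_nonneg, ← Real.rpow_natCast _ (d + 1),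
    ← Real.rpow_mul (by positivity), ← Real.rpow_two]
  congr 1
  push_cast
  field_simp

end Pool.Agent.MP_1479fb_pr.SG
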