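import Pool.Agent.MP_1479fb_pr.SG.Spec
import Pool.Agent.MP_1479fb_pr.SG.Charge

/-! PROJECT SG: the total charge over all levels and the covering for one level. -/

set_option autoImplicit false

open Finset

namespace Pool.Agent.MP_1479fb_pr.SG

namespace SumChX

theorem psi_nonneg (u : ℝ) : 0 ≤ psi u := by
  unfold psi
  split_ifs
  · exact Real.sqrt_nonneg u
  · exact le_rfl

theorem term_le (c : ℝ) (k : ℕ) : (16 : ℝ) ^ k * psi (c / 16 ^ k) ≤ 4 ^ k * √c := by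
  have h4 : (0 : ℝ) < 4 ^ k := by positivity
  have h16 : (16 : ℝ) ^ k = 4 ^ k * 4 ^ k := by rw [← mul_pow]; norm_num
  unfold psi
  split_ifs with h
  · rw [Real.sqrt_div' _ (by positivity), h16, Real.sqrt_mul_self h4.le]
    apply le_of_eq
    field_simp
  · rw [mul_zero]; positivity

theorem sum_geo (c : ℝ) (n : ℕ) :
    ∑ k ∈ range n, (16 : ℝ) ^ k * psi (c / 16 ^ k) ≤ 4 ^ n * √c / 3 := by
  induction n with
  | zero => simp; positivity
  | succ n ih =>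
    rw [sum_range_succ, pow_succ]
    have := term_le c n
    linarith

theorem sum_range_le (c : ℝ) (hc : 0 ≤ c) (n : ℕ) :
    ∑ k ∈ range n, (16 : ℝ) ^ k * psi (c / 16 ^ k) ≤ 2 * c := by
  induction n with
  | zero => simp; exact hc
  | succ n ih =>
    by_cases h : 1 < c / 16 ^ n
    · have h1 := sum_geo c (n + 1)
      have h16 : (16 : ℝ) ^ n = 4 ^ n * 4 ^ n := by rw [← mul_pow]; norm_num
      have h2 : (16 : ℝ) ^ n < c := by
        rwa [lt_div_iff₀ (by positivity), one_mul] at h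
      have h3 : (4 : ℝ) ^ n ≤ √c := by
        apply Real.le_sqrt_of_sq_le
        rw [sq, ← h16]; exact h2.le
      have h4 : √c * √c = c := Real.mul_self_sqrt hc
      have h5 : (4 : ℝ) ^ n * √c ≤ √c * √c :=
        mul_le_mul_of_nonneg_right h3 (Real.sqrt_nonneg c)
      rw [pow_succ] at h1
      nlinarith
    · rw [sum_range_succ]
      have : psi (c / 16 ^ n) = 0 := by unfold psi; rw [if_neg h]
      rw [this, mul_zero, add_zero]; exact ih

theorem sum_lev (c : ℝ) (hc : 0 ≤ c) (S : Finset ℕ) :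
    ∑ k ∈ S, (16 : ℝ) ^ k * psi (c / 16 ^ k) ≤ 2 * c := by
  refine le_trans (sum_le_sum_of_subset_of_nonneg (t := range (S.sup id + 1)) ?_ ?_)
    (sum_range_le c hc _)
  · intro k hk
    exact mem_range.2 (Nat.lt_succ_of_le (le_sup (f := id) hk))
  · intro k _ _
    exact mul_nonneg (by positivity) (psi_nonneg _)

theorem sum_dy (n : ℕ) : ∀ u : ℝ, 0 < u →
    ∑ i ∈ range n, psi (u * 2 ^ i) / (u * 2 ^ i) ≤ 4 * min 1 (1 / √u) := by
  induction n with
  | zero =>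
    intro u _
    simp only [range_zero, sum_empty]
    have : (0 : ℝ) ≤ min 1 (1 / √u) := le_min zero_le_one (by positivity)
    linarith
  | succ n ih =>
    intro u hu
    rw [sum_range_succ']
    have e : ∀ i : ℕ, u * 2 ^ (i + 1) = 2 * u * 2 ^ i := fun i => by ring
    simp only [e, pow_zero, mul_one]
    have h1 := ih (2 * u) (by positivity)
    have hs : 0 < √u := Real.sqrt_pos.2 hu
    by_cases h : 1 < u
    · have hp : psi u = √u := by unfold psi; rw [if_pos h]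
      have h2 : 1 ≤ √u := Real.one_le_sqrt.2 h.le
      have h3 : min 1 (1 / √u) = 1 / √u := min_eq_right (by rw [div_le_one hs]; exact h2)
      have h4 : psi u / u = 1 / √u := by
        rw [hp, div_eq_div_iff hu.ne' hs.ne', Real.mul_self_sqrt hu.le, one_mul]
      have h5 : 4 / 3 * √u ≤ √(2 * u) := by
        apply Real.le_sqrt_of_sq_le
        rw [mul_pow, Real.sq_sqrt hu.le]; linarith
      have h6 : 1 / √(2 * u) ≤ 1 / (4 / 3 * √u) :=
        one_div_le_one_div_of_le (by positivity) h5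
      have h7 : 1 / (4 / 3 * √u) = 3 / 4 * (1 / √u) := by field_simp
      have h8 := min_le_right (1 : ℝ) (1 / √(2 * u))
      rw [h3, h4]
      linarith
    · have hp : psi u = 0 := by unfold psi; rw [if_neg h]
      have h2 : √u ≤ 1 := Real.sqrt_le_one.2 (not_lt.1 h)
      have h3 : min 1 (1 / √u) = 1 := min_eq_left (by rw [le_div_iff₀ hs]; linarith)
      have h8 := min_le_left (1 : ℝ) (1 / √(2 * u))
      rw [h3, hp, zero_div]
      linarith

theorem sum_time (c : ℝ) (hc : 0 ≤ c) (m : ℕ) :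
    ∑ i ∈ range m, psi (c * 2 ^ (i + 1)) / 2 ^ (i + 1) ≤ 4 * c := by
  rcases hc.eq_or_lt with h | h
  · subst h
    simp [psi]
  · have h1 := sum_dy m (2 * c) (by positivity)
    have h2 := min_le_left (1 : ℝ) (1 / √(2 * c))
    have e : ∑ i ∈ range m, psi (c * 2 ^ (i + 1)) / 2 ^ (i + 1) =
        c * ∑ i ∈ range m, psi (2 * c * 2 ^ i) / (2 * c * 2 ^ i) := by
      rw [mul_sum]
      refine sum_congr rfl fun i _ => ?_
      have : c * 2 ^ (i + 1) = 2 * c * 2 ^ i := by ring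
      rw [this]
      field_simp
      ring
    rw [e]
    nlinarith

theorem sum_quarter (m : ℕ) :
    ∑ i ∈ range m, (1 / (2 : ℝ) ^ (i + 1)) / 2 ^ (i + 1) ≤ 1 - 1 / 2 ^ m := by
  induction m with
  | zero => simp
  | succ m ih =>
    rw [sum_range_succ]
    have h1 : (1 : ℝ) ≤ 2 ^ (m + 1) := one_le_pow₀ (by norm_num)
    have h2 : (1 / (2 : ℝ) ^ (m + 1)) / 2 ^ (m + 1) ≤ 1 / 2 ^ (m + 1) :=
      div_le_self (by positivity) h1
    have h3 : (1 : ℝ) / 2 ^ m = 2 * (1 / 2 ^ (m + 1)) := by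
      rw [pow_succ]; field_simp
    linarith

/-- The charge bound for a real scale parameter. -/
theorem charge_real (d : ℕ) (hd : 2 ≤ d) (p a τ lam L W ρ r : ℝ) (hp : 0 ≤ p) (ha : 0 ≤ a)
    (hτ : 0 < τ) (hA : a ^ (d + 1) = (τ ^ d * p) ^ 2) (hl : 0 < lam) (hl4 : lam ≤ 4) (hL : 0 < L)
    (hρ : 1 ≤ ρ) (h1 : 1 < p * L * (2 * ρ) ^ (d - 1)) (h2 : 1 < p * L ∨ ρ < W)
    (h3 : r = 0 ∨ (2 : ℝ) ^ (r - 1) * ρ < W) :
    (r + 4) * (d + 1) + 1 ≤
      10 * (d + 1) * (psi (4 / lam * a * L / τ) + psi (lam * (max W 1) ^ 2 / (L * τ))) := by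
  obtain ⟨D, rfl⟩ : ∃ D, d = D + 2 := ⟨d - 2, by omega⟩
  have e1 : D + 2 - 1 = D + 1 := rfl
  rw [e1] at h1
  obtain ⟨w, hw⟩ : ∃ w, w = max W 1 := ⟨_, rfl⟩
  rw [← hw]
  have hw1 : 1 ≤ w := hw ▸ le_max_right _ _
  have hwW : W ≤ w := hw ▸ le_max_left _ _
  have hpL : 0 ≤ p * L := by positivity
  obtain ⟨x, hx⟩ : ∃ x, x = p * L * (2 * w) ^ (D + 1) := ⟨_, rfl⟩
  have hx1 : 1 < x := by
    rw [hx]
    rcases h2 with h2 | h2
    · exact h2.trans_le (le_mul_of_one_le_right hpL (one_le_pow₀ (by linarith)))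
    · refine h1.trans_le ?_
      have : ρ ≤ w := h2.le.trans hwW
      gcongr
  obtain ⟨Z, hZ⟩ : ∃ Z, Z = 4 / lam * a * L / τ := ⟨_, rfl⟩
  obtain ⟨Y, hY⟩ : ∃ Y, Y = lam * w ^ 2 / (L * τ) := ⟨_, rfl⟩
  rw [← hZ, ← hY]
  have hZ0 : 0 ≤ Z := by rw [hZ]; positivity
  have hY0 : 0 ≤ Y := by rw [hY]; positivity
  have hZY : Z ^ (D + 2 + 1) * Y ^ (D + 1) = (4 / lam) ^ 2 * x ^ 2 := by
    have e4 : (4 : ℝ) ^ D = 2 ^ D * 2 ^ D := by rw [← mul_pow]; norm_num
    rw [hZ, hY, hx, div_pow, mul_pow, mul_pow, hA, div_pow, div_pow, div_pow]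
    simp only [mul_pow, pow_succ _ (D + 2), pow_succ _ (D + 1), pow_succ _ D, e4, ← pow_mul,
      mul_comm 2 D]
    simp only [pow_mul]
    field_simp
    ring
  obtain ⟨u, hu⟩ : ∃ u, u = max Z Y := ⟨_, rfl⟩
  have hZu : Z ≤ u := hu ▸ le_max_left _ _
  have hYu : Y ≤ u := hu ▸ le_max_right _ _
  have hu0 : 0 ≤ u := hZ0.trans hZu
  have hxu : x ^ 2 ≤ u ^ (D + 2 + 1 + (D + 1)) := by
    have h4 : 1 ≤ 4 / lam := by rw [le_div_iff₀ hl]; linarith
    calc x ^ 2 ≤ (4 / lam) ^ 2 * x ^ 2 := le_mul_of_one_le_left (sq_nonneg _) (one_le_pow₀ h4)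
      _ = _ := hZY.symm
      _ ≤ u ^ (D + 2 + 1) * u ^ (D + 1) := by gcongr
      _ = _ := (pow_add _ _ _).symm
  have hu1 : 1 < u := by
    by_contra hcon
    have := pow_le_one₀ (n := D + 2 + 1 + (D + 1)) hu0 (not_lt.1 hcon)
    nlinarith
  have hs := ChargeX.sqrt_max_le (hu ▸ hu1 : 1 < max Z Y)
  rw [← hu] at hs
  have hs1 : 1 ≤ √u := Real.one_le_sqrt.2 hu1.le
  have hr : r ≤ 3 * √u + 2 := by
    rcases le_or_gt r 1 with hr1 | hr1
    · linarith
    obtain ⟨n, hn⟩ : ∃ n : ℕ, n = ⌊r - 1⌋₊ := ⟨_, rfl⟩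
    have hn1 : (n : ℝ) ≤ r - 1 := hn ▸ Nat.floor_le (by linarith)
    have hn2 : r - 1 < (n : ℝ) + 1 := hn ▸ Nat.lt_floor_add_one _
    have h3' : (2 : ℝ) ^ n * ρ < W := by
      rcases h3 with h3 | h3
      · linarith
      · refine lt_of_le_of_lt ?_ h3
        have b0 : (2 : ℝ) ^ n ≤ (2 : ℝ) ^ (r - 1) := by
          rw [← Real.rpow_natCast]
          exact Real.rpow_le_rpow_of_exponent_le (by norm_num) hn1
        exact mul_le_mul_of_nonneg_right b0 (by linarith)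
    have a1 : ((2 : ℝ) ^ n) ^ (D + 1) ≤ x := by
      have b1 : (2 : ℝ) ^ n * ρ ≤ w := h3'.le.trans hwW
      calc ((2 : ℝ) ^ n) ^ (D + 1) ≤ p * L * (2 * ρ) ^ (D + 1) * ((2 : ℝ) ^ n) ^ (D + 1) :=
            le_mul_of_one_le_left (by positivity) h1.le
        _ = p * L * (2 * (2 ^ n * ρ)) ^ (D + 1) := by simp only [mul_pow]; ring
        _ ≤ _ := by rw [hx]; gcongr
    have a2 : x ≤ (u ^ 2) ^ (D + 1) := by
      refine le_of_sq_le_sq (hxu.trans ?_) (by positivity)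
      rw [← pow_mul, ← pow_mul]
      exact pow_le_pow_right₀ hu1.le (by omega)
    have a3 : (2 : ℝ) ^ n ≤ u ^ 2 :=
      le_of_pow_le_pow_left₀ (Nat.succ_ne_zero D) (by positivity) (a1.trans a2)
    have a4 : (n : ℝ) ^ 4 ≤ 81 * 2 ^ n := by exact_mod_cast ChargeX.pow_four_le n
    have a5 : (n : ℝ) ≤ 3 * √u := by
      refine le_of_pow_le_pow_left₀ (n := 4) (by norm_num) (by positivity) ?_
      have : (3 * √u) ^ 4 = 81 * (√u ^ 2) ^ 2 := by ring
      rw [this, Real.sq_sqrt hu0]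
      linarith
    linarith
  have hD : (1 : ℝ) ≤ ((D + 2 : ℕ) : ℝ) + 1 := by
    have : (0 : ℝ) ≤ ((D + 2 : ℕ) : ℝ) := Nat.cast_nonneg _
    linarith
  calc (r + 4) * (((D + 2 : ℕ) : ℝ) + 1) + 1
      ≤ (r + 4) * (((D + 2 : ℕ) : ℝ) + 1) + (((D + 2 : ℕ) : ℝ) + 1) := by linarith
    _ = (((D + 2 : ℕ) : ℝ) + 1) * (r + 5) := by ring
    _ ≤ (((D + 2 : ℕ) : ℝ) + 1) * (10 * (psi Z + psi Y)) := by
      apply mul_le_mul_of_nonneg_left _ (by linarith)
      linarith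
    _ = _ := by ring

end SumChX

open SumChX

theorem sumChS (h1 : TotS) (h2 : EnS) : SumChS := by
  obtain ⟨hmono, hadd, hmul, hsum, hconst⟩ := h1
  intro d g hg S a lam ha hlam m
  obtain ⟨-, hW, -, -, hE⟩ := h2 d g hg
  have e1 : ∀ k, Tot (chg g lam (a k) (16 ^ k)) m 0 =
      Tot (fun j _ => psi (4 / lam * a k * 2 ^ j / 16 ^ k)) m 0 +
      Tot (fun j b => psi (lam * (max (Wd g j b) 1) ^ 2 / (2 ^ j * 16 ^ k))) m 0 := fun k =>
    hadd (fun j _ => psi (4 / lam * a k * 2 ^ j / 16 ^ k))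
      (fun j b => psi (lam * (max (Wd g j b) 1) ^ 2 / (2 ^ j * 16 ^ k))) m 0
  have hA : ∀ k, (16 : ℝ) ^ k * Tot (fun j _ => psi (4 / lam * a k * 2 ^ j / 16 ^ k)) m 0 ≤
      2 ^ m * (16 / lam * a k) := by
    intro k
    rw [hconst (fun j => psi (4 / lam * a k * 2 ^ j / 16 ^ k)) m 0]
    have hc : 0 ≤ 4 / lam * a k / 16 ^ k := by have := ha k; positivity
    have h3 := sum_time _ hc m
    have e : ∀ i : ℕ, 4 / lam * a k * 2 ^ (i + 1) / 16 ^ k =
        4 / lam * a k / 16 ^ k * 2 ^ (i + 1) := fun i => by ring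
    simp only [e]
    calc (16 : ℝ) ^ k * (2 ^ m * ∑ i ∈ range m,
          psi (4 / lam * a k / 16 ^ k * 2 ^ (i + 1)) / 2 ^ (i + 1))
        ≤ 16 ^ k * (2 ^ m * (4 * (4 / lam * a k / 16 ^ k))) := by gcongr
      _ = 2 ^ m * (16 / lam * a k) := by field_simp; ring
  have hB : ∑ k ∈ S, (16 : ℝ) ^ k *
      Tot (fun j b => psi (lam * (max (Wd g j b) 1) ^ 2 / (2 ^ j * 16 ^ k))) m 0 ≤
      2 ^ m * (8 * lam) := by
    have e2 : ∑ k ∈ S, (16 : ℝ) ^ k *
        Tot (fun j b => psi (lam * (max (Wd g j b) 1) ^ 2 / (2 ^ j * 16 ^ k))) m 0 =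
        Tot (fun j b => ∑ k ∈ S, (16 : ℝ) ^ k *
          psi (lam * (max (Wd g j b) 1) ^ 2 / (2 ^ j * 16 ^ k))) m 0 := by
      rw [hsum S (fun k j b => (16 : ℝ) ^ k *
        psi (lam * (max (Wd g j b) 1) ^ 2 / (2 ^ j * 16 ^ k))) m 0]
      exact sum_congr rfl fun k _ => (hmul _ _ m 0).symm
    rw [e2]
    have h3 : Tot (fun j b => ∑ k ∈ S, (16 : ℝ) ^ k *
          psi (lam * (max (Wd g j b) 1) ^ 2 / (2 ^ j * 16 ^ k))) m 0 ≤
        Tot (fun j b => 2 * lam * (Wd g j b ^ 2 / 2 ^ j + 1 / 2 ^ j)) m 0 := by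
      apply hmono
      intro j b
      have e : ∀ k : ℕ, lam * (max (Wd g (j + 1) b) 1) ^ 2 / (2 ^ (j + 1) * 16 ^ k) =
          lam * (max (Wd g (j + 1) b) 1) ^ 2 / 2 ^ (j + 1) / 16 ^ k := fun k => by
        rw [div_div]
      simp only [e]
      refine le_trans (sum_lev _ (by positivity) S) ?_
      have h4 : (max (Wd g (j + 1) b) 1) ^ 2 ≤ Wd g (j + 1) b ^ 2 + 1 := by
        rcases le_total (Wd g (j + 1) b) 1 with h | h
        · rw [max_eq_right h]; nlinarith [sq_nonneg (Wd g (j + 1) b)]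
        · rw [max_eq_left h]; linarith
      calc 2 * (lam * (max (Wd g (j + 1) b) 1) ^ 2 / 2 ^ (j + 1))
          ≤ 2 * (lam * (Wd g (j + 1) b ^ 2 + 1) / 2 ^ (j + 1)) := by gcongr
        _ = 2 * lam * (Wd g (j + 1) b ^ 2 / 2 ^ (j + 1) + 1 / 2 ^ (j + 1)) := by ring
    refine h3.trans ?_
    rw [hmul (2 * lam) (fun j b => Wd g j b ^ 2 / 2 ^ j + 1 / 2 ^ j) m 0,
      hadd (fun j b => Wd g j b ^ 2 / 2 ^ j) (fun j _ => 1 / 2 ^ j) m 0,
      hconst (fun j => 1 / 2 ^ j) m 0]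
    have h5 := hE m 0
    have h6 := sum_quarter m
    have h7 : (0 : ℝ) < 2 ^ m := by positivity
    have h8 : (0 : ℝ) < 1 / 2 ^ m := by positivity
    have h9 : (2 : ℝ) ^ m * ∑ i ∈ range m, (1 / (2 : ℝ) ^ (i + 1)) / 2 ^ (i + 1) ≤ 2 ^ m * 1 :=
      mul_le_mul_of_nonneg_left (by linarith) h7.le
    nlinarith
  simp only [e1, mul_add, sum_add_distrib]
  have hA' : ∑ k ∈ S, (16 : ℝ) ^ k *
      Tot (fun j _ => psi (4 / lam * a k * 2 ^ j / 16 ^ k)) m 0 ≤
      2 ^ m * (16 / lam * ∑ k ∈ S, a k) := by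
    rw [mul_sum, mul_sum]
    exact sum_le_sum fun k _ => hA k
  linarith

theorem levelS (h1 : TotS) (h2 : CoverS) (_h3 : ChargeS) : LevelS := by
  intro d hd g hg m g0 gm p a τ lam hp _ ha hτ hat hlam hlam4
  have hspec : ∀ j, sx d p j ≠ 0 → p * 2 ^ j * ((2 : ℝ) ^ sx d p j) ^ (d - 1) ≤ 1 := by
    intro j hj
    unfold sx at hj ⊢
    exact Nat.findGreatest_of_ne_zero
      (P := fun s => p * 2 ^ j * ((2 : ℝ) ^ s) ^ (d - 1) ≤ 1) rfl hj
  have hle : ∀ j, sx d p j ≤ j := fun j => by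
    unfold sx; exact Nat.findGreatest_le j
  obtain ⟨q, hq, hcov, hcost⟩ := h2 d g hg (sx d p) (okp p)
    (fun j b => 10 * ((d : ℝ) + 1) * chg g lam a τ j b) hle
    (by
      intro j hj
      by_cases h0 : sx d p (j + 1) = 0
      · omega
      · have h4 := hspec (j + 1) h0
        have h5 : p * 2 ^ j * ((2 : ℝ) ^ sx d p (j + 1)) ^ (d - 1) ≤ 1 := by
          have h6 : 0 ≤ p * 2 ^ j * ((2 : ℝ) ^ sx d p (j + 1)) ^ (d - 1) := by positivity
          rw [pow_succ] at h4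
          nlinarith
        have h7 : sx d p (j + 1) ≤
            Nat.findGreatest (fun s => p * 2 ^ j * ((2 : ℝ) ^ s) ^ (d - 1) ≤ 1) j :=
          Nat.le_findGreatest hj h5
        exact h7)
    (by
      intro j hj
      by_cases h0 : sx d p (j + 1) = 0
      · omega
      · exfalso
        apply hj
        have h4 := hspec (j + 1) h0
        have h5 : (1 : ℝ) ≤ ((2 : ℝ) ^ sx d p (j + 1)) ^ (d - 1) :=
          one_le_pow₀ (one_le_pow₀ (by norm_num))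
        have h6 : 0 ≤ p * 2 ^ (j + 1) := by positivity
        unfold okp
        nlinarith)
    (by
      intro j b
      unfold chg
      have := psi_nonneg (4 / lam * a * 2 ^ j / τ)
      have := psi_nonneg (lam * (max (Wd g j b) 1) ^ 2 / (2 ^ j * τ))
      positivity)
    (by
      intro j b r hj hno hr
      have h4 : ¬ (p * 2 ^ (j + 1) * ((2 : ℝ) ^ (sx d p (j + 1) + 1)) ^ (d - 1) ≤ 1) :=
        Nat.findGreatest_is_greatest
          (P := fun s => p * 2 ^ (j + 1) * ((2 : ℝ) ^ s) ^ (d - 1) ≤ 1) (n := j + 1)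
          (Nat.lt_succ_self _) (by omega)
      refine charge_real d hd p a τ lam (2 ^ (j + 1)) (Wd g (j + 1) b) (2 ^ sx d p (j + 1)) r hp ha hτ hat
        hlam hlam4 (by positivity) (one_le_pow₀ (by norm_num)) ?_ ?_ hr
      · rw [← pow_succ']
        exact not_le.1 h4
      · by_contra hc
        push Not at hc
        exact hno ⟨hc.1, hc.2⟩)
    m 0 0 0
    (by intro c; rw [g0]; simp)
    (by intro c; rw [zero_add, gm]; simp)
  refine ⟨q, hq, fun t ht => by simpa using hcov t ht, ?_⟩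
  rw [h1.2.2.1 (10 * ((d : ℝ) + 1)) (chg g lam a τ) m 0] at hcost
  exact hcost

end Pool.Agent.MP_1479fb_pr.SG
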