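import Pool.Agent.MP_1479fb_pr.SG.Spec

/-! One level of tents. -/

set_option autoImplicit false

open Finset

namespace Pool.Agent.MP_1479fb_pr.SG

open Classical

namespace TentX

/-- The tent function on `[0, L]` with peak at `σ`. -/
noncomputable def tn (L σ s : ℕ) : ℝ := if s ≤ σ then (s : ℝ) / σ else ((L : ℝ) - s) / (L - σ)

variable {ℓ σ : ℕ}

lemma tn_zero (L σ : ℕ) : tn L σ 0 = 0 := by simp [tn]

lemma tn_end (h1 : 1 ≤ ℓ) (h3 : σ ≤ 3 * ℓ) : tn (4 * ℓ) σ (4 * ℓ) = 0 := by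
  rw [tn, if_neg (by omega)]
  simp

lemma tn_peak (h1 : 1 ≤ ℓ) (h2 : ℓ ≤ σ) (L : ℕ) : tn L σ σ = 1 := by
  rw [tn, if_pos le_rfl]
  exact div_self (by exact_mod_cast (by omega : σ ≠ 0))

lemma tn_step (h1 : 1 ≤ ℓ) (h2 : ℓ ≤ σ) (h3 : σ ≤ 3 * ℓ) (s : ℕ) :
    tn (4 * ℓ) σ (s + 1) - tn (4 * ℓ) σ s =
      if s < σ then 1 / (σ : ℝ) else -(1 / (((4 * ℓ : ℕ) : ℝ) - σ)) := by
  have a1 : (0 : ℝ) < σ := by exact_mod_cast (by omega : 0 < σ)
  have a2 : (0 : ℝ) < ((4 * ℓ : ℕ) : ℝ) - σ := by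
    have : σ < 4 * ℓ := by omega
    have : (σ : ℝ) < ((4 * ℓ : ℕ) : ℝ) := by exact_mod_cast this
    linarith
  rcases lt_trichotomy s σ with h | h | h
  · rw [if_pos h, tn, tn, if_pos (by omega), if_pos h.le]
    push_cast
    field_simp
    ring
  · subst h
    rw [if_neg (lt_irrefl _), tn_peak h1 h2, tn, if_neg (by omega)]
    generalize ((4 * ℓ : ℕ) : ℝ) = A at a2 ⊢
    push_cast
    field_simp
    ring
  · rw [if_neg (by omega), tn, tn, if_neg (by omega), if_neg (by omega)]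
    generalize ((4 * ℓ : ℕ) : ℝ) = A at a2 ⊢
    push_cast
    field_simp
    ring

lemma tn_sq (h1 : 1 ≤ ℓ) (h2 : ℓ ≤ σ) (h3 : σ ≤ 3 * ℓ) (s : ℕ) :
    (tn (4 * ℓ) σ (s + 1) - tn (4 * ℓ) σ s) ^ 2 ≤ (1 / (ℓ : ℝ)) ^ 2 := by
  have a0 : (0 : ℝ) < ℓ := by exact_mod_cast h1
  have a1 : (ℓ : ℝ) ≤ σ := by exact_mod_cast h2
  have a2 : (σ : ℝ) ≤ 3 * ℓ := by exact_mod_cast h3
  rw [tn_step h1 h2 h3]
  split_ifs
  · gcongr
  · rw [neg_sq]
    have : (ℓ : ℝ) ≤ ((4 * ℓ : ℕ) : ℝ) - σ := by push_cast; linarith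
    have : (0 : ℝ) < ((4 * ℓ : ℕ) : ℝ) - σ := by linarith
    gcongr

lemma sum_blocks (F : ℕ → ℝ) (L n : ℕ) :
    ∑ t ∈ range (L * n), F t = ∑ i ∈ range n, ∑ s ∈ range L, F (L * i + s) := by
  induction n with
  | zero => simp
  | succ n ih => rw [Nat.mul_succ, sum_range_add, ih, sum_range_succ]

lemma block_le (h1 : 1 ≤ ℓ) (h2 : ℓ ≤ σ) (h3 : σ ≤ 3 * ℓ) (A m M : ℝ) (hm : |m| ≤ M) :
    ∑ s ∈ range (4 * ℓ), (A + (tn (4 * ℓ) σ (s + 1) - tn (4 * ℓ) σ s) * m) ^ 2 ≤
      ∑ _s ∈ range (4 * ℓ), A ^ 2 + 4 * M ^ 2 / ℓ := by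
  have a0 : (0 : ℝ) < ℓ := by exact_mod_cast h1
  have m2 : m ^ 2 ≤ M ^ 2 := sq_le_sq' (abs_le.1 hm).1 (abs_le.1 hm).2
  have z : ∑ s ∈ range (4 * ℓ), (tn (4 * ℓ) σ (s + 1) - tn (4 * ℓ) σ s) = 0 := by
    rw [sum_range_sub (fun s => tn (4 * ℓ) σ s), tn_end h1 h3, tn_zero, sub_zero]
  calc _ ≤ ∑ s ∈ range (4 * ℓ), (A ^ 2 + 2 * A * m * (tn (4 * ℓ) σ (s + 1) - tn (4 * ℓ) σ s) +
        (1 / (ℓ : ℝ)) ^ 2 * M ^ 2) := by
        refine sum_le_sum fun s _ => ?_
        have := mul_le_mul (tn_sq h1 h2 h3 s) m2 (sq_nonneg _) (sq_nonneg _)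
        nlinarith
    _ = _ := by
        rw [sum_add_distrib, sum_add_distrib, ← mul_sum, z, mul_zero, add_zero]
        congr 1
        rw [sum_const, card_range, nsmul_eq_mul]
        push_cast
        field_simp

end TentX

open TentX in
theorem tentS : TentS := by
  intro D N Λ ℓ H n E y Cs S v hV h1 hdvd hΛ hN hS
  obtain ⟨v1, v2, v3, v4, v5, v6⟩ := hV
  have ex : ∀ i, ∃ σ : ℕ, ℓ ≤ σ ∧ σ ≤ 3 * ℓ ∧ (i ∈ S → v i 0 = ((4 * ℓ * i + σ : ℕ) : ℤ) ∧
      ∀ c, |(v i c : ℝ) - y (4 * ℓ * i + σ) c| ≤ H + 1) := by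
    intro i
    by_cases hi : i ∈ S
    · obtain ⟨⟨t, z⟩, a1, a2⟩ := mem_image.1 (hS i hi).2.2
      obtain ⟨b1, b2⟩ := mem_product.1 a1
      obtain ⟨b3, b4⟩ := mem_Icc.1 b1
      simp only at b2 b3 b4 a2
      obtain ⟨σ, rfl⟩ : ∃ σ, t = 4 * ℓ * i + σ := ⟨t - 4 * ℓ * i, by omega⟩
      refine ⟨σ, by omega, by omega, fun _ => ⟨by rw [← a2]; simp, fun c => ?_⟩⟩
      rw [← a2]
      refine Fin.cases ?_ (fun c => ?_) c
      · rw [v1]
        simp
        positivity
      · have c1 := abs_le.1 (mem_cube.1 b2 c)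
        simp only [Pi.zero_apply, sub_zero] at c1
        have c2 : (-(H : ℝ)) ≤ z c := by exact_mod_cast c1.1
        have c3 : (z c : ℝ) ≤ H := by exact_mod_cast c1.2
        have c4 := Int.floor_le (y (4 * ℓ * i + σ) c.succ)
        have c5 := Int.lt_floor_add_one (y (4 * ℓ * i + σ) c.succ)
        simp only [Fin.cons_succ]
        push_cast
        rw [abs_le]
        constructor <;> linarith
    · exact ⟨ℓ, le_rfl, by omega, fun t => absurd t hi⟩
  choose σ s1 s2 s3 using ex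
  have hdis : Disjoint Cs (S.image v) := by
    rw [disjoint_left]
    intro u hu hu'
    obtain ⟨i, hi, rfl⟩ := mem_image.1 hu'
    refine (hS i hi).2.1 _ hu ?_
    rw [(s3 i hi).1]
    have := s1 i
    have := s2 i
    constructor <;> exact_mod_cast (by nlinarith)
  have hcard : (S.image v).card = S.card := by
    refine card_image_of_injOn fun i hi j hj hij => ?_
    have a1 := (s3 i hi).1
    rw [hij, (s3 j hj).1] at a1
    have a2 : 4 * ℓ * j + σ j = 4 * ℓ * i + σ i := by exact_mod_cast a1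
    have a3 : (4 * ℓ * j + σ j) / (4 * ℓ) = j := by
      rw [Nat.mul_add_div (by omega), Nat.div_eq_of_lt (by have := s2 j; omega), add_zero]
    have a4 : (4 * ℓ * i + σ i) / (4 * ℓ) = i := by
      rw [Nat.mul_add_div (by omega), Nat.div_eq_of_lt (by have := s2 i; omega), add_zero]
    rw [← a3, a2, a4]
  refine ⟨?_, hdis, hcard⟩
  let f : ℕ → ℕ → Fin (D + 1) → ℝ := fun i s c =>
    if i ∈ S then tn (4 * ℓ) (σ i) s * ((v i c : ℝ) - y (4 * ℓ * i + σ i) c) else 0
  have f0 : ∀ i c, f i 0 c = 0 := fun i c => by simp [f, tn_zero]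
  let y' : ℕ → Fin (D + 1) → ℝ := fun t c => y t c + f (t / (4 * ℓ)) (t % (4 * ℓ)) c
  have hy : ∀ i s c, s ≤ 4 * ℓ → y' (4 * ℓ * i + s) c = y (4 * ℓ * i + s) c + f i s c := by
    intro i s c hs
    rcases hs.lt_or_eq with hs | rfl
    · simp only [y']
      rw [Nat.mul_add_div (by omega), Nat.div_eq_of_lt hs, add_zero, Nat.mul_add_mod,
        Nat.mod_eq_of_lt hs]
    · simp only [y']
      rw [Nat.mul_add_mod, Nat.mod_self, f0]
      simp [f, tn_end h1 (s2 i)]
  have dec : ∀ t, ∃ i s, s < 4 * ℓ ∧ t = 4 * ℓ * i + s := fun t =>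
    ⟨t / (4 * ℓ), t % (4 * ℓ), Nat.mod_lt _ (by omega), (Nat.div_add_mod _ _).symm⟩
  refine ⟨y', fun t => ?_, ?_, ?_, ?_, ?_, ?_⟩
  · simp only [y', f]
    split_ifs with h
    · rw [(s3 _ h).1, v1, v1, Int.cast_natCast, sub_self, mul_zero, add_zero]
    · rw [v1, add_zero]
  · funext c
    have := hy 0 0 c (by omega)
    simp only [mul_zero, add_zero, f0] at this
    rw [this, v2]
  · intro u hu
    rcases mem_union.1 hu with hu | hu
    · obtain ⟨t, a1, a2, a3⟩ := v3 u hu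
      refine ⟨t, a1, a2, fun c => ?_⟩
      obtain ⟨i, s, b1, rfl⟩ := dec t
      rw [hy i s c b1.le, a3]
      by_cases hi : i ∈ S
      · have b2 : u 0 = ((4 * ℓ * i + s : ℕ) : ℤ) := by
          have := a3 0
          rw [v1] at this
          exact_mod_cast this.symm
        have b3 := (hS i hi).2.1 u hu
        rw [b2] at b3
        have : s = 0 := by
          by_contra t
          exact b3 ⟨by exact_mod_cast (by omega), by exact_mod_cast (by nlinarith)⟩
        rw [this, f0, add_zero]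
      · simp [f, hi]
    · obtain ⟨i, hi, rfl⟩ := mem_image.1 hu
      have := s1 i
      have := s2 i
      have := (hS i hi).1
      refine ⟨4 * ℓ * i + σ i, by omega, by nlinarith, fun c => ?_⟩
      rw [hy i _ c (by omega)]
      simp [f, hi, tn_peak h1 (s1 i)]
  · intro t a1 a2 c
    obtain ⟨i, s, b1, b2⟩ := dec (t + 1)
    obtain ⟨s, rfl⟩ : ∃ s', s = s' + 1 := by
      refine ⟨s - 1, ?_⟩
      by_contra g
      exact a1 ⟨i, by omega⟩
    obtain rfl : t = 4 * ℓ * i + s := by omega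
    have c1 := v4 (4 * ℓ * i + s) (fun g => a1 (hdvd.trans g))
      (fun u hu => a2 u (mem_union_left _ hu)) c
    have e1 := hy i s c (by omega)
    have e2 := hy i (s + 1) c (by omega)
    have e3 := hy i (s + 2) c (by omega)
    rw [← add_assoc] at e2 e3
    rw [show 4 * ℓ * i + s + 2 = 4 * ℓ * i + s + 2 from rfl, e1, e2, e3]
    have c2 : f i (s + 2) c - f i (s + 1) c = f i (s + 1) c - f i s c := by
      simp only [f]
      split_ifs with hi
      · have d1 := a2 (v i) (mem_union_right _ (mem_image_of_mem v hi))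
        rw [(s3 i hi).1] at d1
        have d2 : σ i ≠ s + 1 := fun g => d1 (by rw [g]; push_cast; ring)
        rw [← sub_mul, ← sub_mul, tn_step h1 (s1 i) (s2 i), tn_step h1 (s1 i) (s2 i)]
        by_cases g : s < σ i
        · rw [if_pos g, if_pos (by omega)]
        · rw [if_neg g, if_neg (by omega)]
      · rfl
    linarith
  · have a1 : S.card ≤ n := by
      simpa using card_le_card (show S ⊆ range n from fun i hi => mem_range.2 (hS i hi).1)
    have a2 := card_union_le Cs (S.image v)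
    rw [hcard] at a2
    have a3 : Cs.card * (16 * ℓ) ≤ Cs.card * Λ := Nat.mul_le_mul_left _ hΛ
    have a4 : (Cs ∪ S.image v).card * (4 * ℓ) ≤ (Cs.card + n) * (4 * ℓ) :=
      Nat.mul_le_mul_right _ (by omega)
    nlinarith
  · have a0 : (0 : ℝ) < ℓ := by exact_mod_cast h1
    refine le_trans ?_ (add_le_add_left v6 _)
    rw [En, En, hN, sum_blocks, sum_blocks]
    have : (n : ℝ) * ((D + 1) * (4 * ((H : ℝ) + 1) ^ 2 / ℓ)) =
        ∑ _i ∈ range n, ∑ _c : Fin (D + 1), 4 * ((H : ℝ) + 1) ^ 2 / ℓ := by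
      simp
    rw [this, ← sum_add_distrib]
    refine sum_le_sum fun i _ => ?_
    rw [sum_comm, sum_comm (s := range (4 * ℓ)), ← sum_add_distrib]
    refine sum_le_sum fun c _ => ?_
    have e : ∀ s ∈ range (4 * ℓ), (y' (4 * ℓ * i + s + 1) c - y' (4 * ℓ * i + s) c) ^ 2 =
        ((y (4 * ℓ * i + s + 1) c - y (4 * ℓ * i + s) c) + (f i (s + 1) c - f i s c)) ^ 2 := by
      intro s hs
      have := mem_range.1 hs
      rw [add_assoc, hy i s c (by omega), hy i (s + 1) c (by omega)]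
      ring
    rw [sum_congr rfl e]
    by_cases hi : i ∈ S
    · have aff : ∀ s, s < 4 * ℓ → y (4 * ℓ * i + s + 1) c - y (4 * ℓ * i + s) c =
          y (4 * ℓ * i + 1) c - y (4 * ℓ * i) c := by
        intro s
        induction s with
        | zero => intro _; rfl
        | succ s ih =>
          intro hs
          rw [← ih (by omega)]
          refine v4 (4 * ℓ * i + s) (fun g => ?_) (fun u hu g => (hS i hi).2.1 u hu ?_) c
          · have := Nat.le_of_dvd (by omega) ((Nat.dvd_add_right (Dvd.intro i rfl)).1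
              (add_assoc (4 * ℓ * i) s 1 ▸ hdvd.trans g))
            omega
          · rw [g]
            constructor <;> exact_mod_cast (by nlinarith)
      rw [sum_congr rfl (fun s hs => by rw [aff s (mem_range.1 hs)]),
        sum_congr rfl (fun s hs => by rw [aff s (mem_range.1 hs)] :
          ∀ s ∈ range (4 * ℓ), (y (4 * ℓ * i + s + 1) c - y (4 * ℓ * i + s) c) ^ 2 = _)]
      simp only [f, if_pos hi, ← sub_mul]
      exact block_le h1 (s1 i) (s2 i) _ _ _ ((s3 i hi).2 c)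
    · simp only [f, if_neg hi, sub_self, add_zero]
      exact le_add_of_nonneg_right (by positivity)

end Pool.Agent.MP_1479fb_pr.SG
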