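import Pool.Agent.MP_1479fb_pr.SG.Spec

/-! PROJECT SG: the upper bound and the limit for truncated weights. -/

set_option autoImplicit false

open MeasureTheory ProbabilityTheory Filter Topology Finset
open scoped ENNReal

namespace Pool.Agent.MP_1479fb_pr.SG

namespace UpX

/-- The tails of a summable sequence are small. -/
theorem tails {a : ℕ → ℝ} (_h0 : ∀ k, 0 ≤ a k) (sa : Summable a) {T : ℝ} (hT : 0 < T) :
    ∃ k₀ : ℕ, (∀ k, k₀ ≤ k → a k ≤ 1) ∧
      ∀ S : Finset ℕ, (∀ k ∈ S, k₀ ≤ k) → ∑ k ∈ S, a k ≤ T := by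
  obtain ⟨s₀, hs₀⟩ := summable_iff_vanishing_norm.1 sa (min T 1) (by positivity)
  have key : ∀ S : Finset ℕ, (∀ k ∈ S, s₀.sup id + 1 ≤ k) → ∑ k ∈ S, a k ≤ min T 1 := by
    intro S hS
    refine (le_abs_self _).trans (hs₀ S ?_).le
    rw [Finset.disjoint_left]
    intro k hk hk'
    have b1 := hS k hk
    have b2 : id k ≤ s₀.sup id := Finset.le_sup hk'
    simp only [id] at b1 b2
    omega
  refine ⟨s₀.sup id + 1, fun k hk => ?_, fun S hS => (key S hS).trans (min_le_left _ _)⟩
  have := key {k} (by simpa using hk)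
  rw [Finset.sum_singleton] at this
  exact this.trans (min_le_right _ _)

/-- The choice of the constants. -/
theorem consts {A B ε : ℝ} (hA : 0 < A) (hB : 0 < B) (hε : 0 < ε) :
    ∃ (lam T : ℝ) (i₀ : ℕ), 0 < lam ∧ lam ≤ 4 ∧ 0 < T ∧
      A * (8 * lam + 16 / lam * T) + B * (8 * (3 / 4) ^ i₀) ≤ ε / 4 := by
  obtain ⟨i₀, hi⟩ := exists_pow_lt_of_lt_one (show 0 < ε / (96 * B) by positivity)
    (show (3 / 4 : ℝ) < 1 by norm_num)
  have l0 : 0 < min 4 (ε / (96 * A)) := by positivity
  refine ⟨min 4 (ε / (96 * A)), min 4 (ε / (96 * A)) * (ε / (192 * A)), i₀, l0, min_le_left _ _,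
    by positivity, ?_⟩
  have e1 : A * min 4 (ε / (96 * A)) ≤ ε / 96 := by
    refine (mul_le_mul_of_nonneg_left (min_le_right _ _) hA.le).trans (le_of_eq ?_)
    field_simp
  have e2 : A * (16 / min 4 (ε / (96 * A)) * (min 4 (ε / (96 * A)) * (ε / (192 * A)))) =
      ε / 12 := by
    field_simp
    norm_num
  have e3 : B * (3 / 4) ^ i₀ ≤ ε / 96 := by
    refine (mul_le_mul_of_nonneg_left hi.le hB.le).trans (le_of_eq ?_)
    field_simp
  rw [mul_add, e2]
  linarith

end UpX

theorem upS (h1 : BCS) (h2 : DetS) : UpS := by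
  classical
  intro d hd μ _ a ha sa ε hε
  obtain ⟨lam, T, i₀, l0, l4, T0, hc⟩ := UpX.consts
    (A := 16 * (12 * 9 ^ d) * (10 * ((d : ℝ) + 1))) (B := 16 * (12 * 9 ^ d + 3 * ((d : ℝ) + 1)))
    (by positivity) (by positivity) hε
  obtain ⟨k₀, k1, k2⟩ := UpX.tails (fun k => (ha k).1) sa T0
  refine ⟨16 ^ k₀, by positivity, ?_⟩
  filter_upwards [h1 d hd μ a ha sa i₀ k₀ k1] with x hx
  obtain ⟨m₀, hm₀⟩ := eventually_atTop.1 hx
  filter_upwards [eventually_ge_atTop (2 ^ m₀)] with n hn l g1 g2 g3 K hK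
  have n0 : n ≠ 0 := by have := Nat.one_le_two_pow (n := m₀); omega
  have j1 : 2 * n ≤ 2 ^ (Nat.log 2 n + 2) := by
    have := Nat.lt_pow_succ_log_self (b := 2) (by norm_num) n
    simp only [Nat.succ_eq_add_one, pow_succ] at this ⊢
    omega
  have j2 : 2 ^ (Nat.log 2 n + 2) ≤ 4 * n := by
    have := Nat.pow_log_le_self 2 n0
    simp only [pow_succ]
    omega
  have j3 : m₀ ≤ Nat.log 2 n + 2 := (Nat.le_log_of_pow_le (by norm_num) hn).trans (by omega)
  have key := h2 d hd μ a ha i₀ k₀ (Nat.log 2 n + 2) lam T x l0 l4 k2 (hm₀ _ j3) l g1 g2 (by omega)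
  have j4 : (2 : ℝ) ^ (Nat.log 2 n + 2) ≤ 4 * n := by exact_mod_cast j2
  have key2 : ∑ v ∈ l.toFinset.filter (fun v => (16 : ℝ) ^ k₀ ≤ x v), x v ≤ ε * n := by
    refine key.trans ((mul_le_mul j4 hc (by positivity) (by positivity)).trans (le_of_eq ?_))
    ring
  have K0 : (0 : ℝ) < 16 ^ k₀ := by positivity
  refine le_trans ?_ (add_le_add_right key2 _)
  rw [← List.sum_toFinset _ (List.nodup_cons.1 g1).2, ← List.sum_toFinset _ (List.nodup_cons.1 g1).2,
    Finset.sum_filter, ← Finset.sum_add_distrib]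
  refine Finset.sum_le_sum fun v _ => ?_
  split_ifs with hv
  · have : 0 ≤ min (x v) K := le_min (by linarith) (by linarith)
    linarith
  · rw [min_eq_left (by linarith [not_le.1 hv]), add_zero]

theorem truncS : TruncS := by
  intro d hd μ _ K
  have hf : Measurable fun t : ℝ => min t K := measurable_id.min measurable_const
  have : IsProbabilityMeasure (μ.map fun t : ℝ => min t K) :=
    Measure.isProbabilityMeasure_map hf.aemeasurable
  have hm : (Measure.infinitePi fun _ : Fin d → ℤ => μ).map (fun x v => min (x v) K) =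
      Measure.infinitePi fun _ : Fin d → ℤ => μ.map fun t : ℝ => min t K :=
    Measure.infinitePi_map_pi (μ := fun _ : Fin d → ℤ => μ) (f := fun _ t => min t K) fun _ => hf
  have hF : Measurable fun (x : (Fin d → ℤ) → ℝ) v => min (x v) K :=
    measurable_pi_lambda _ fun v => hf.comp (measurable_pi_apply v)
  have hp : PosTail d (μ.map fun t : ℝ => min t K) := by
    intro ε hε
    refine ⟨max K 0, le_max_right _ _, ?_⟩
    have hle : ∀ᵐ x ∂Measure.infinitePi (fun _ : Fin d → ℤ => μ.map fun t : ℝ => min t K),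
        ∀ v, x v ≤ K := by
      rw [ae_all_iff]
      intro v
      rw [← hm]
      exact (ae_map_iff hF.aemeasurable
        (measurableSet_le (measurable_pi_apply v) measurable_const)).2
        (Eventually.of_forall fun x => min_le_right _ _)
    filter_upwards [hle] with x hx
    refine Eventually.of_forall fun n l _ _ _ K' hK' => ?_
    have e : (fun v => min (x v) K') = x :=
      funext fun v => min_eq_left ((hx v).trans ((le_max_left _ _).trans hK'))
    rw [e]
    exact le_add_of_nonneg_right (by positivity)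
  obtain ⟨c, hc⟩ := canonical_lln _ hd hp
  rw [← hm] at hc
  exact ⟨c, ae_of_ae_map hF.aemeasurable hc⟩

end Pool.Agent.MP_1479fb_pr.SG
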