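import Pool.Agent.MP_1479fb_pr.SG.En
import Pool.Agent.MP_1479fb_pr.SG.Kraft
import Pool.Agent.MP_1479fb_pr.SG.Cover
import Pool.Agent.MP_1479fb_pr.SG.Charge
import Pool.Agent.MP_1479fb_pr.SG.SumCh
import Pool.Agent.MP_1479fb_pr.SG.Over
import Pool.Agent.MP_1479fb_pr.SG.BC
import Pool.Agent.MP_1479fb_pr.SG.Det
import Pool.Agent.MP_1479fb_pr.SG.Up
import Pool.Agent.MP_1479fb_pr.SG.Path
import Pool.Agent.MP_1479fb_pr.SG.Tent
import Pool.Agent.MP_1479fb_pr.SG.Gv
import Pool.Agent.MP_1479fb_pr.SG.Layer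
import Pool.Agent.MP_1479fb_pr.SG.Prob
import Pool.Agent.MP_1479fb_pr.SG.Ind
import Pool.Agent.MP_1479fb_pr.SG.Num
import Pool.Agent.MP_1479fb_pr.SG.Lev
import Pool.Agent.MP_1479fb_pr.SG.Exp
import Pool.Agent.MP_1479fb_pr.SG.Neg
import Pool.Agent.MP_1479fb_pr.SG.Low
import Pool.Agent.MP_1479fb_pr.SG.Ser
import Pool.Agent.MP_1479fb_pr.SG.Mom

/-! Assembly of the upper and the lower bound. -/

namespace Pool.Agent.MP_1479fb_pr.SG

theorem upper : UpS :=
  upS (bcS (overS kraftS volS))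
    (detS (sumChS totS enS) (levelS totS (coverS enS (tubeS enS)) chargeS))

theorem lower : LowS :=
  lowS gvS (expS cntS (indS cntS tentS gvS layerS probS (baseS pathS gvS probS))
    (levS pickS numS)) oftenS negS routeS truncS

end Pool.Agent.MP_1479fb_pr.SG
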